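import Mathlib

/-!
# Real Fourier inversion for even functions
-/

namespace Helper58.GC

open MeasureTheory Real FourierTransform

/-- The integral against `sin` of an even function vanishes. -/
lemma integral_mul_sin_eq_zero {p : ℝ → ℝ} (heven : ∀ x, p (-x) = p x) (t : ℝ) :
    ∫ x, p x * Real.sin (t * x) = 0 := by
  have h := integral_neg_eq_self (μ := volume) (fun x : ℝ => p x * Real.sin (t * x))
  have h2 : ∫ x, p (-x) * Real.sin (t * -x) = -∫ x, p x * Real.sin (t * x) := by
    rw [← integral_neg]
    congr 1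
    ext x
    rw [heven, mul_neg, Real.sin_neg, mul_neg]
  rw [h2] at h
  linarith

/-- Fourier transform of a real even function. -/
lemma fourier_even {p : ℝ → ℝ} (hp : Integrable p) (heven : ∀ x, p (-x) = p x) (v : ℝ) :
    𝓕 (fun x : ℝ => (p x : ℂ)) v = ((∫ x, p x * Real.cos (2 * π * v * x) : ℝ) : ℂ) := by
  rw [Real.fourier_real_eq_integral_exp_smul]
  have h1 : ∀ x : ℝ, Complex.exp (↑(-2 * π * x * v) * Complex.I) • (p x : ℂ)
      = ((p x * Real.cos (2 * π * v * x) : ℝ) : ℂ)
        - ((p x * Real.sin (2 * π * v * x) : ℝ) : ℂ) * Complex.I := by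
    intro x
    rw [smul_eq_mul, Complex.exp_mul_I, ← Complex.ofReal_cos, ← Complex.ofReal_sin]
    have e : -2 * π * x * v = -(2 * π * v * x) := by ring
    rw [e, Real.cos_neg, Real.sin_neg]
    push_cast
    ring
  simp_rw [h1]
  have hc : Integrable (fun x => p x * Real.cos (2 * π * v * x)) := by
    apply hp.mul_bdd (c := 1)
    · exact (by fun_prop : Continuous fun x => Real.cos (2 * π * v * x)).aestronglyMeasurable
    · filter_upwards with x
      rw [Real.norm_eq_abs]; exact Real.abs_cos_le_one _
  have hs : Integrable (fun x => p x * Real.sin (2 * π * v * x)) := by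
    apply hp.mul_bdd (c := 1)
    · exact (by fun_prop : Continuous fun x => Real.sin (2 * π * v * x)).aestronglyMeasurable
    · filter_upwards with x
      rw [Real.norm_eq_abs]; exact Real.abs_sin_le_one _
  rw [integral_sub hc.ofReal (hs.ofReal.mul_const _), integral_mul_const, integral_complex_ofReal,
    integral_complex_ofReal, integral_mul_sin_eq_zero heven]
  simp

/-- **Inversion**: for an even integrable `p` with integrable cosine transform `ψ`, at a point of
continuity `p u = (2π)⁻¹ ∫ ψ t cos (u t) dt`. -/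
theorem inv_even {p ψ : ℝ → ℝ} (hp : Integrable p) (heven : ∀ x, p (-x) = p x)
    (hψ : ∀ t, ψ t = ∫ x, p x * Real.cos (t * x)) (hψi : Integrable ψ) {u : ℝ}
    (hu : ContinuousAt p u) :
    p u = (2 * π)⁻¹ * ∫ t, ψ t * Real.cos (u * t) := by
  have hF : 𝓕 (fun x : ℝ => (p x : ℂ)) = fun v => ((ψ (2 * π * v) : ℝ) : ℂ) := by
    ext v
    rw [fourier_even hp heven, hψ]
  have h2π : (2 * π) ≠ 0 := by positivity
  have hFi : Integrable (𝓕 (fun x : ℝ => (p x : ℂ))) := by
    rw [hF]
    exact (hψi.comp_mul_left' h2π).ofReal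
  have hψe : ∀ t, ψ (-t) = ψ t := by
    intro t
    rw [hψ, hψ]
    congr 1
    ext x
    rw [neg_mul, Real.cos_neg]
  have hcont : ContinuousAt (fun x : ℝ => (p x : ℂ)) u :=
    Complex.continuous_ofReal.continuousAt.comp hu
  have key := hp.ofReal.fourierInv_fourier_eq hFi hcont
  rw [Real.fourierInv_eq_fourier_neg, hF,
    fourier_even (p := fun v => ψ (2 * π * v)) (hψi.comp_mul_left' h2π)
      (by intro x; rw [mul_neg, hψe])] at key
  have key2 : ∫ x, ψ (2 * π * x) * Real.cos (2 * π * -u * x) = p u := by exact_mod_cast key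
  rw [← key2]
  have e : ∀ x, ψ (2 * π * x) * Real.cos (2 * π * -u * x)
      = (fun t => ψ t * Real.cos (u * t)) (2 * π * x) := by
    intro x
    simp only
    congr 1
    rw [← Real.cos_neg]
    congr 1
    ring
  simp_rw [e]
  rw [Measure.integral_comp_mul_left (fun t => ψ t * Real.cos (u * t)) (2 * π), abs_of_pos (by positivity),
    smul_eq_mul]

end Helper58.GC
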