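import Pool.Agent.Helper64.CubeGauss.Defs

/-!
# Basic bounds for `φ` and integrability of products
-/

namespace Helper58.GC

open Set MeasureTheory Helper64.CubeGauss

lemma abs_φ_le_one (t : ℝ) : |φ t| ≤ 1 := by
  unfold φ
  rw [abs_div, abs_of_pos P_pos, div_le_one P_pos]
  have h1 := intervalIntegral.norm_integral_le_of_norm_le (a := -1) (b := 1) (μ := volume)
    (f := fun x => Real.cos (t * x) * g x) (g := g) (by norm_num)
    (by
      filter_upwards with x _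
      rw [norm_mul, Real.norm_eq_abs, Real.norm_eq_abs, abs_of_pos (g_pos x)]
      exact mul_le_of_le_one_left (g_pos x).le (Real.abs_cos_le_one _))
    (g_cont.intervalIntegrable _ _)
  rw [Real.norm_eq_abs] at h1
  exact h1

lemma abs_φ'_le_one (t : ℝ) : |φ' t| ≤ 1 := by
  unfold φ'
  rw [abs_div, abs_of_pos P_pos, div_le_one P_pos, abs_neg]
  have h1 := intervalIntegral.norm_integral_le_of_norm_le (a := -1) (b := 1) (μ := volume)
    (f := fun x => x * Real.sin (t * x) * g x) (g := g) (by norm_num)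
    (by
      filter_upwards with x hx
      rw [norm_mul, norm_mul, Real.norm_eq_abs, Real.norm_eq_abs, Real.norm_eq_abs,
        abs_of_pos (g_pos x)]
      have h1 : |x| ≤ 1 := abs_le.mpr ⟨hx.1.le, hx.2⟩
      have h2 : |x| * |Real.sin (t * x)| ≤ 1 :=
        mul_le_one₀ h1 (abs_nonneg _) (Real.abs_sin_le_one _)
      exact mul_le_of_le_one_left (g_pos x).le h2)
    (g_cont.intervalIntegrable _ _)
  rw [Real.norm_eq_abs] at h1
  exact h1

lemma abs_mul_φ_le (t : ℝ) : |t * φ t| ≤ c + 1 := by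
  have h1 : t * φ t = c * Real.sin t - φ' t := by rw [φ'_eq]; ring
  rw [h1]
  calc |c * Real.sin t - φ' t| ≤ |c * Real.sin t| + |φ' t| := abs_sub _ _
    _ ≤ c + 1 := by
      rw [abs_mul, abs_of_pos c_pos]
      have := mul_le_of_le_one_right c_pos.le (Real.abs_sin_le_one t)
      linarith [abs_φ'_le_one t]

/-- `|φ (a t) φ (b t)| ≤ C / (1 + t²)`. -/
lemma abs_φ_mul_φ_le {a b : ℝ} (ha : a ≠ 0) (hb : b ≠ 0) (t : ℝ) :
    |φ (a * t)| * |φ (b * t)| ≤ (1 + (c + 1) ^ 2 / (|a| * |b|)) * (1 + t ^ 2)⁻¹ := by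
  have h1 : |φ (a * t)| * |φ (b * t)| ≤ 1 :=
    mul_le_one₀ (abs_φ_le_one _) (abs_nonneg _) (abs_φ_le_one _)
  have h2 : (|a| * |b|) * (t ^ 2 * (|φ (a * t)| * |φ (b * t)|)) ≤ (c + 1) ^ 2 := by
    have e : (|a| * |b|) * (t ^ 2 * (|φ (a * t)| * |φ (b * t)|))
        = |a * t * φ (a * t)| * |b * t * φ (b * t)| := by
      rw [abs_mul, abs_mul, abs_mul, abs_mul, ← sq_abs t]; ring
    rw [e, sq]
    exact mul_le_mul (abs_mul_φ_le _) (abs_mul_φ_le _) (abs_nonneg _) (by linarith [c_pos])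
  have hab : 0 < |a| * |b| := mul_pos (abs_pos.mpr ha) (abs_pos.mpr hb)
  have h3 : t ^ 2 * (|φ (a * t)| * |φ (b * t)|) ≤ (c + 1) ^ 2 / (|a| * |b|) := by
    rw [le_div_iff₀ hab]
    linarith
  have hp : (0 : ℝ) < 1 + t ^ 2 := by positivity
  rw [← div_eq_mul_inv, le_div_iff₀ hp]
  nlinarith

lemma integrable_φ_mul_φ {a b : ℝ} (ha : a ≠ 0) (hb : b ≠ 0) :
    Integrable (fun t => φ (a * t) * φ (b * t)) := by
  apply Integrable.mono' ((integrable_inv_one_add_sq).const_mul (1 + (c + 1) ^ 2 / (|a| * |b|)))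
  · have := φ_cont
    exact (by fun_prop : Continuous fun t => φ (a * t) * φ (b * t)).aestronglyMeasurable
  · filter_upwards with t
    rw [norm_mul, Real.norm_eq_abs, Real.norm_eq_abs]
    exact abs_φ_mul_φ_le ha hb t

lemma continuous_prod_φ {ι : Type*} (s : Finset ι) (θ : ι → ℝ) :
    Continuous fun t => ∏ k ∈ s, φ (θ k * t) := by
  have := φ_cont
  fun_prop

lemma abs_prod_φ_le_one {ι : Type*} (s : Finset ι) (θ : ι → ℝ) (t : ℝ) :
    |∏ k ∈ s, φ (θ k * t)| ≤ 1 := by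
  rw [Finset.abs_prod]
  exact Finset.prod_le_one (fun _ _ => abs_nonneg _) (fun _ _ => abs_φ_le_one _)

lemma abs_prod_φ_le_pair {ι : Type*} [DecidableEq ι] {s : Finset ι} (θ : ι → ℝ) {i j : ι}
    (hi : i ∈ s) (hj : j ∈ s) (hij : i ≠ j) (t : ℝ) :
    |∏ k ∈ s, φ (θ k * t)| ≤ |φ (θ i * t)| * |φ (θ j * t)| := by
  rw [Finset.abs_prod]
  have hsub : ({i, j} : Finset ι) ⊆ s := by
    intro k hk
    rcases Finset.mem_insert.mp hk with h | h
    · rw [h]; exact hi
    · rw [Finset.mem_singleton.mp h]; exact hj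
  rw [← Finset.prod_sdiff hsub, Finset.prod_pair hij]
  have h2 : ∏ k ∈ s \ {i, j}, |φ (θ k * t)| ≤ 1 :=
    Finset.prod_le_one (fun _ _ => abs_nonneg _) (fun _ _ => abs_φ_le_one _)
  exact mul_le_of_le_one_left (mul_nonneg (abs_nonneg _) (abs_nonneg _)) h2

lemma integrable_prod_φ {ι : Type*} [DecidableEq ι] {s : Finset ι} (θ : ι → ℝ) {i j : ι}
    (hi : i ∈ s) (hj : j ∈ s) (hij : i ≠ j) (h0i : θ i ≠ 0) (h0j : θ j ≠ 0) :
    Integrable (fun t => ∏ k ∈ s, φ (θ k * t)) := by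
  apply Integrable.mono' (integrable_φ_mul_φ h0i h0j).norm
    (continuous_prod_φ s θ).aestronglyMeasurable
  filter_upwards with t
  rw [Real.norm_eq_abs, norm_mul, Real.norm_eq_abs, Real.norm_eq_abs]
  exact abs_prod_φ_le_pair θ hi hj hij t

end Helper58.GC
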