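import Pool.Agent.Helper64.CubeGauss.Defs
import Pool.Agent.Helper58.GC.Inv
import Pool.Agent.Helper58.GC.Phi

/-!
# The exact value of `∫ φ²`
-/

namespace Helper58.GC

open Set MeasureTheory Helper64.CubeGauss

/-- the truncated Gaussian weight -/
noncomputable def q : ℝ → ℝ := indicator (Icc (-1) 1) g

lemma q_integrable : Integrable q := by
  unfold q
  rw [integrable_indicator_iff measurableSet_Icc]
  exact g_cont.continuousOn.integrableOn_Icc

lemma q_nonneg (x : ℝ) : 0 ≤ q x := indicator_nonneg (fun x _ => (g_pos x).le) x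

lemma q_le_one (x : ℝ) : q x ≤ 1 := by
  unfold q
  by_cases h : x ∈ Icc (-1 : ℝ) 1
  · rw [indicator_of_mem h]; exact g_le_one x
  · rw [indicator_of_notMem h]; exact zero_le_one

lemma q_even (x : ℝ) : q (-x) = q x := by
  unfold q
  by_cases h : x ∈ Icc (-1 : ℝ) 1
  · have h' : -x ∈ Icc (-1 : ℝ) 1 := ⟨by linarith [h.2], by linarith [h.1]⟩
    rw [indicator_of_mem h, indicator_of_mem h']
    unfold g; rw [neg_sq]
  · have h' : -x ∉ Icc (-1 : ℝ) 1 := fun h2 => h ⟨by linarith [h2.2], by linarith [h2.1]⟩
    rw [indicator_of_notMem h, indicator_of_notMem h']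

lemma q_measurable : Measurable q := g_cont.measurable.indicator measurableSet_Icc

lemma q_continuousAt {x : ℝ} (h1 : x ≠ 1) (h2 : x ≠ -1) : ContinuousAt q x := by
  unfold q
  rcases lt_or_gt_of_ne h1 with h | h
  · rcases lt_or_gt_of_ne h2 with h' | h'
    · have : ∀ᶠ y in nhds x, (0 : ℝ) = indicator (Icc (-1) 1) g y := by
        filter_upwards [Iio_mem_nhds h'] with y hy
        rw [indicator_of_notMem]
        exact fun h3 => absurd h3.1 (not_le.mpr hy)
      exact (continuousAt_const (y := (0 : ℝ))).congr this
    · have : ∀ᶠ y in nhds x, g y = indicator (Icc (-1) 1) g y := by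
        filter_upwards [Ioo_mem_nhds h' h] with y hy
        rw [indicator_of_mem (Ioo_subset_Icc_self hy)]
      exact g_cont.continuousAt.congr this
  · have : ∀ᶠ y in nhds x, (0 : ℝ) = indicator (Icc (-1) 1) g y := by
      filter_upwards [Ioi_mem_nhds h] with y hy
      rw [indicator_of_notMem]
      exact fun h3 => absurd h3.2 (not_le.mpr hy)
    exact (continuousAt_const (y := (0 : ℝ))).congr this

lemma integral_q_mul (F : ℝ → ℝ) : ∫ x, q x * F x = ∫ x in (-1 : ℝ)..1, F x * g x := by
  rw [intervalIntegral.integral_of_le (by norm_num), ← integral_Icc_eq_integral_Ioc,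
    ← integral_indicator measurableSet_Icc]
  congr 1
  ext x
  unfold q
  by_cases h : x ∈ Icc (-1 : ℝ) 1
  · rw [indicator_of_mem h, indicator_of_mem h]; ring
  · rw [indicator_of_notMem h, indicator_of_notMem h]; ring

lemma integral_q_cos (t : ℝ) : ∫ x, q x * Real.cos (t * x) = P * φ t := by
  rw [integral_q_mul]
  unfold φ
  rw [mul_div_cancel₀ _ P_pos.ne']

lemma integral_q_cos_add (t u : ℝ) : ∫ x, q x * Real.cos (t * (x + u)) = P * φ t * Real.cos (t * u) := by
  have h1 : ∀ x, q x * Real.cos (t * (x + u)) = q x * Real.cos (t * x) * Real.cos (t * u)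
      - q x * Real.sin (t * x) * Real.sin (t * u) := by
    intro x
    rw [mul_add, Real.cos_add]
    ring
  simp_rw [h1]
  have hc : Integrable (fun x => q x * Real.cos (t * x)) := by
    apply q_integrable.mul_bdd (c := 1)
    · exact (by fun_prop : Continuous fun x => Real.cos (t * x)).aestronglyMeasurable
    · filter_upwards with x
      rw [Real.norm_eq_abs]; exact Real.abs_cos_le_one _
  have hs : Integrable (fun x => q x * Real.sin (t * x)) := by
    apply q_integrable.mul_bdd (c := 1)
    · exact (by fun_prop : Continuous fun x => Real.sin (t * x)).aestronglyMeasurable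
    · filter_upwards with x
      rw [Real.norm_eq_abs]; exact Real.abs_sin_le_one _
  rw [integral_sub (hc.mul_const _) (hs.mul_const _), integral_mul_const, integral_mul_const,
    integral_q_cos, integral_mul_sin_eq_zero q_even]
  ring

/-- the autocorrelation -/
noncomputable def qq (u : ℝ) : ℝ := ∫ x, q x * q (u - x)

lemma integrable_qq_integrand : Integrable (fun p : ℝ × ℝ => q p.2 * q (p.1 - p.2))
    (volume.prod volume) := by
  have := q_integrable.convolution_integrand (ContinuousLinearMap.mul ℝ ℝ) q_integrable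
  simpa using this

lemma qq_integrable : Integrable qq := integrable_qq_integrand.integral_prod_left

lemma qq_even (u : ℝ) : qq (-u) = qq u := by
  unfold qq
  rw [← integral_neg_eq_self]
  congr 1
  ext x
  rw [q_even, ← q_even (u - x)]
  congr 2
  ring

lemma qq_continuousAt (u : ℝ) : ContinuousAt qq u := by
  unfold qq
  apply continuousAt_of_dominated (bound := q)
  · filter_upwards with v
    exact (q_measurable.mul (q_measurable.comp (by fun_prop))).aestronglyMeasurable
  · filter_upwards with v
    filter_upwards with x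
    rw [norm_mul, Real.norm_eq_abs, Real.norm_eq_abs, abs_of_nonneg (q_nonneg _),
      abs_of_nonneg (q_nonneg _)]
    exact mul_le_of_le_one_right (q_nonneg _) (q_le_one _)
  · exact q_integrable
  · have h1 : ∀ᵐ x : ℝ, x ≠ u - 1 := by
      rw [ae_iff]; simp
    have h2 : ∀ᵐ x : ℝ, x ≠ u + 1 := by
      rw [ae_iff]; simp
    filter_upwards [h1, h2] with x hx1 hx2
    apply ContinuousAt.mul continuousAt_const
    apply ContinuousAt.comp (f := fun v => v - x)
    · apply q_continuousAt
      · intro h; apply hx1; linarith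
      · intro h; apply hx2; linarith
    · fun_prop

lemma qq_fourier (t : ℝ) : ∫ u, qq u * Real.cos (t * u) = (P * φ t) ^ 2 := by
  unfold qq
  have e1 : ∀ u, (∫ x, q x * q (u - x)) * Real.cos (t * u)
      = ∫ x, q x * q (u - x) * Real.cos (t * u) := fun u => by rw [integral_mul_const]
  simp_rw [e1]
  rw [integral_integral_swap]
  · have e2 : ∀ x, ∫ u, q x * q (u - x) * Real.cos (t * u) = q x * (P * φ t * Real.cos (t * x)) := by
      intro x
      have e3 : ∀ u, q x * q (u - x) * Real.cos (t * u) = q x * (q (u - x) * Real.cos (t * u)) :=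
        fun u => by ring
      simp_rw [e3]
      rw [integral_const_mul]
      have e4 : ∫ u, q (u - x) * Real.cos (t * u) = ∫ u, q u * Real.cos (t * (u + x)) := by
        rw [← integral_sub_right_eq_self (fun u => q u * Real.cos (t * (u + x))) x]
        congr 1
        ext u
        rw [sub_add_cancel]
      rw [e4, integral_q_cos_add]
    simp_rw [e2]
    have e5 : ∀ x, q x * (P * φ t * Real.cos (t * x)) = P * φ t * (q x * Real.cos (t * x)) :=
      fun x => by ring
    simp_rw [e5]
    rw [integral_const_mul, integral_q_cos]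
    ring
  · have h := integrable_qq_integrand.mul_bdd (c := 1) (g := fun p : ℝ × ℝ => Real.cos (t * p.1))
      (by exact (by fun_prop : Continuous fun p : ℝ × ℝ => Real.cos (t * p.1)).aestronglyMeasurable)
      (by
        filter_upwards with p
        rw [Real.norm_eq_abs]; exact Real.abs_cos_le_one _)
    exact h

lemma qq_zero : qq 0 = ∫ x in (-1 : ℝ)..1, Real.exp (-x ^ 2) := by
  unfold qq
  simp_rw [zero_sub, q_even]
  rw [integral_q_mul]
  apply intervalIntegral.integral_congr
  intro x hx
  rw [uIcc_of_le (by norm_num)] at hx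
  simp only
  unfold q
  rw [indicator_of_mem hx]
  unfold g
  rw [← Real.exp_add]
  congr 1
  ring

/-- **The exact value of `∫ φ²`**. -/
theorem A2_eq : ∫ t, φ t ^ 2 = 2 * Real.pi / P ^ 2 * ∫ x in (-1 : ℝ)..1, Real.exp (-x ^ 2) := by
  have hi : Integrable (fun t => (P * φ t) ^ 2) := by
    have h := (integrable_φ_mul_φ one_ne_zero one_ne_zero).const_mul (P ^ 2)
    refine h.congr ?_
    filter_upwards with t
    rw [one_mul]
    ring
  have h := inv_even (p := qq) (ψ := fun t => (P * φ t) ^ 2) qq_integrable qq_even
    (fun t => (qq_fourier t).symm) hi (u := 0) (qq_continuousAt 0)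
  simp only [zero_mul, Real.cos_zero, mul_one] at h
  rw [qq_zero] at h
  have e : ∫ t, (P * φ t) ^ 2 = P ^ 2 * ∫ t, φ t ^ 2 := by
    rw [← integral_const_mul]
    congr 1
    ext t
    ring
  rw [e] at h
  rw [h]
  have := P_pos.ne'
  have := Real.pi_pos.ne'
  field_simp

end Helper58.GC
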