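import Pool.Agent.Helper58.GC.Ct

/-!
# Equalising the two largest coordinates
-/

namespace Helper58.GC

open Set MeasureTheory Helper64.CubeGauss

lemma mul_φ_eq (a t : ℝ) :
    a * t * φ (a * t) = c * Real.sin (a * t)
      + P⁻¹ * ∫ x in (-1 : ℝ)..1, x * Real.sin (a * t * x) * g x := by
  have h := φ'_eq (a * t)
  unfold φ' at h
  have h2 : a * t * φ (a * t) = c * Real.sin (a * t)
      - -(∫ x in (-1 : ℝ)..1, x * Real.sin (a * t * x) * g x) / P := by
    rw [h]; ring
  rw [h2]
  ring

lemma rot_kernel (a b t : ℝ) :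
    t * (a * φ (a * t) * Real.sin (b * t) - b * φ (b * t) * Real.sin (a * t))
      = (2 * P)⁻¹ * ∫ x in (-1 : ℝ)..1, x * g x * (Real.cos ((a * x - b) * t)
        - Real.cos ((a * x + b) * t) - Real.cos ((a - b * x) * t) + Real.cos ((a + b * x) * t)) := by
  have h1 : t * (a * φ (a * t) * Real.sin (b * t) - b * φ (b * t) * Real.sin (a * t))
      = (a * t * φ (a * t)) * Real.sin (b * t) - (b * t * φ (b * t)) * Real.sin (a * t) := by ring
  rw [h1, mul_φ_eq, mul_φ_eq]
  have h2 : (c * Real.sin (a * t) + P⁻¹ * ∫ x in (-1 : ℝ)..1, x * Real.sin (a * t * x) * g x)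
        * Real.sin (b * t)
      - (c * Real.sin (b * t) + P⁻¹ * ∫ x in (-1 : ℝ)..1, x * Real.sin (b * t * x) * g x)
        * Real.sin (a * t)
      = P⁻¹ * ((∫ x in (-1 : ℝ)..1, x * Real.sin (a * t * x) * g x) * Real.sin (b * t)
        - (∫ x in (-1 : ℝ)..1, x * Real.sin (b * t * x) * g x) * Real.sin (a * t)) := by ring
  rw [h2, ← intervalIntegral.integral_mul_const, ← intervalIntegral.integral_mul_const,
    ← intervalIntegral.integral_sub]
  · have h3 : ∀ x : ℝ, x * Real.sin (a * t * x) * g x * Real.sin (b * t)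
        - x * Real.sin (b * t * x) * g x * Real.sin (a * t)
        = 2⁻¹ * (x * g x * (Real.cos ((a * x - b) * t)
        - Real.cos ((a * x + b) * t) - Real.cos ((a - b * x) * t) + Real.cos ((a + b * x) * t))) := by
      intro x
      have e1 : (a * x - b) * t = a * t * x - b * t := by ring
      have e2 : (a * x + b) * t = a * t * x + b * t := by ring
      have e3 : (a - b * x) * t = a * t - b * t * x := by ring
      have e4 : (a + b * x) * t = a * t + b * t * x := by ring
      rw [e1, e2, e3, e4, Real.cos_sub, Real.cos_add, Real.cos_sub, Real.cos_add]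
      ring
    simp_rw [h3]
    rw [intervalIntegral.integral_const_mul, mul_inv, ← mul_assoc, mul_comm P⁻¹ 2⁻¹]
  · have := g_cont
    exact (by fun_prop : Continuous fun x : ℝ =>
      x * Real.sin (a * t * x) * g x * Real.sin (b * t)).intervalIntegrable _ _
  · have := g_cont
    exact (by fun_prop : Continuous fun x : ℝ =>
      x * Real.sin (b * t * x) * g x * Real.sin (a * t)).intervalIntegrable _ _

lemma integrable_mul_cos {K : ℝ → ℝ} (hK : Integrable K) (u : ℝ) :
    Integrable (fun t => K t * Real.cos (u * t)) := by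
  apply hK.mul_bdd (c := 1)
  · exact (by fun_prop : Continuous fun x => Real.cos (u * x)).aestronglyMeasurable
  · filter_upwards with x
    rw [Real.norm_eq_abs]; exact Real.abs_cos_le_one _

/-- The sign of the rotation derivative. -/
lemma rot_sign {K : ℝ → ℝ} (hK : Integrable K) {C : ℝ} (H : Cls C (ct K)) {a b : ℝ} (hC : 0 ≤ C)
    (hCb : C ≤ b) (hba : b ≤ a) :
    0 ≤ ∫ t, t * (a * φ (a * t) * Real.sin (b * t) - b * φ (b * t) * Real.sin (a * t)) * K t := by
  have e : ∀ t, t * (a * φ (a * t) * Real.sin (b * t) - b * φ (b * t) * Real.sin (a * t)) * K t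
      = (2 * P)⁻¹ * ∫ x in (-1 : ℝ)..1, x * g x * (K t * Real.cos ((a * x - b) * t)
        - K t * Real.cos ((a * x + b) * t) - K t * Real.cos ((a - b * x) * t)
        + K t * Real.cos ((a + b * x) * t)) := by
    intro t
    rw [rot_kernel, mul_assoc, ← intervalIntegral.integral_mul_const]
    congr 2
    ext x
    ring
  simp_rw [e]
  rw [integral_const_mul]
  apply mul_nonneg (inv_nonneg.mpr (by have := P_pos; positivity))
  rw [← intervalIntegral_integral_swap]
  · -- now the inner integral is `x g x Ψ x`
    have e2 : ∀ x : ℝ, ∫ t, x * g x * (K t * Real.cos ((a * x - b) * t)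
        - K t * Real.cos ((a * x + b) * t) - K t * Real.cos ((a - b * x) * t)
        + K t * Real.cos ((a + b * x) * t))
        = x * g x * (ct K (a * x - b) - ct K (a * x + b) - ct K (a - b * x) + ct K (a + b * x)) := by
      intro x
      rw [integral_const_mul]
      unfold ct
      rw [integral_add, integral_sub, integral_sub]
      · exact integrable_mul_cos hK _
      · exact integrable_mul_cos hK _
      · exact (integrable_mul_cos hK _).sub (integrable_mul_cos hK _)
      · exact integrable_mul_cos hK _
      · exact ((integrable_mul_cos hK _).sub (integrable_mul_cos hK _)).sub (integrable_mul_cos hK _)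
      · exact integrable_mul_cos hK _
    simp_rw [e2]
    apply intervalIntegral.integral_nonneg (by norm_num)
    intro x hx
    rcases le_total 0 x with h0 | h0
    · exact mul_nonneg (mul_nonneg h0 (g_pos x).le) (H.four hC hCb hba h0 hx.2)
    · have h4 := H.four hC hCb hba (x := -x) (by linarith) (by linarith [hx.1])
      have e3 : ct K (a * -x - b) = ct K (a * x + b) := by
        rw [← H.even]; congr 1; ring
      have e4 : ct K (a * -x + b) = ct K (a * x - b) := by
        rw [← H.even]; congr 1; ring
      have e5 : a - b * -x = a + b * x := by ring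
      have e6 : a + b * -x = a - b * x := by ring
      rw [e3, e4, e5, e6] at h4
      have h5 : 0 ≤ (-x) * g x * -(ct K (a * x - b) - ct K (a * x + b) - ct K (a - b * x)
          + ct K (a + b * x)) := by
        apply mul_nonneg (mul_nonneg (by linarith) (g_pos x).le)
        linarith
      linarith
  · have hg1 : Integrable (fun x : ℝ => x * g x) (volume.restrict (Set.uIoc (-1) 1)) := by
      rw [uIoc_of_le (by norm_num)]
      have := g_cont
      exact ((by fun_prop : Continuous fun x : ℝ => x * g x).continuousOn.integrableOn_Icc).mono_set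
        Ioc_subset_Icc_self
    have hprod : Integrable (fun p : ℝ × ℝ => (p.1 * g p.1) * K p.2)
        ((volume.restrict (Set.uIoc (-1) 1)).prod volume) := hg1.mul_prod hK
    have h2 := hprod.mul_bdd (c := 4)
      (g := fun p : ℝ × ℝ => Real.cos ((a * p.1 - b) * p.2) - Real.cos ((a * p.1 + b) * p.2)
        - Real.cos ((a - b * p.1) * p.2) + Real.cos ((a + b * p.1) * p.2))
      (by
        exact (by fun_prop : Continuous fun p : ℝ × ℝ =>
          Real.cos ((a * p.1 - b) * p.2) - Real.cos ((a * p.1 + b) * p.2)
        - Real.cos ((a - b * p.1) * p.2) + Real.cos ((a + b * p.1) * p.2)).aestronglyMeasurable)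
      (by
        filter_upwards with p
        rw [Real.norm_eq_abs, abs_le]
        have c1 := Real.abs_cos_le_one ((a * p.1 - b) * p.2)
        have c2 := Real.abs_cos_le_one ((a * p.1 + b) * p.2)
        have c3 := Real.abs_cos_le_one ((a - b * p.1) * p.2)
        have c4 := Real.abs_cos_le_one ((a + b * p.1) * p.2)
        rw [abs_le] at c1 c2 c3 c4
        constructor <;> linarith)
    refine h2.congr ?_
    filter_upwards with p
    simp only [Function.uncurry]
    ring

/-- The derivative of the rotated integral. -/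
lemma rot_deriv {K : ℝ → ℝ} (hKc : Continuous K) {ε : ℝ} (hε : 0 < ε)
    (hKb : ∀ t, |K t| ≤ Real.exp (-ε * t ^ 2 / 2)) (R α : ℝ) :
    HasDerivAt (fun α => ∫ t, φ (R * Real.cos α * t) * φ (R * Real.sin α * t) * K t)
      (c * ∫ t, t * (R * Real.cos α * φ (R * Real.cos α * t) * Real.sin (R * Real.sin α * t)
        - R * Real.sin α * φ (R * Real.sin α * t) * Real.sin (R * Real.cos α * t)) * K t) α := by
  rw [← integral_const_mul]
  have hφ := φ_cont
  have hint : Integrable (fun t : ℝ => c * (2 * |R|) * (|t| * Real.exp (-ε * t ^ 2 / 2))) := by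
    apply Integrable.const_mul
    have h1 := (integrable_mul_exp_neg_mul_sq (b := ε / 2) (by positivity)).norm
    refine h1.congr ?_
    filter_upwards with t
    rw [norm_mul, Real.norm_eq_abs, Real.norm_eq_abs, abs_of_pos (Real.exp_pos _)]
    congr 2
    ring
  refine (hasDerivAt_integral_of_dominated_loc_of_deriv_le (μ := volume)
    (F := fun α t => φ (R * Real.cos α * t) * φ (R * Real.sin α * t) * K t)
    (F' := fun α t => c * (t * (R * Real.cos α * φ (R * Real.cos α * t) * Real.sin (R * Real.sin α * t)
        - R * Real.sin α * φ (R * Real.sin α * t) * Real.sin (R * Real.cos α * t)) * K t))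
    (x₀ := α) (s := univ)
    (bound := fun t => c * (2 * |R|) * (|t| * Real.exp (-ε * t ^ 2 / 2))) Filter.univ_mem
    ?_ ?_ ?_ ?_ hint ?_).2
  · filter_upwards with β
    exact (by fun_prop : Continuous fun t =>
      φ (R * Real.cos β * t) * φ (R * Real.sin β * t) * K t).aestronglyMeasurable
  · apply Integrable.mono' (integrable_gauss hε)
    · exact (by fun_prop : Continuous fun t =>
        φ (R * Real.cos α * t) * φ (R * Real.sin α * t) * K t).aestronglyMeasurable
    · filter_upwards with t
      rw [norm_mul, norm_mul, Real.norm_eq_abs, Real.norm_eq_abs, Real.norm_eq_abs]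
      refine le_trans ?_ (hKb t)
      exact mul_le_of_le_one_left (abs_nonneg _)
        (mul_le_one₀ (abs_φ_le_one _) (abs_nonneg _) (abs_φ_le_one _))
  · exact (by fun_prop : Continuous fun t =>
      c * (t * (R * Real.cos α * φ (R * Real.cos α * t) * Real.sin (R * Real.sin α * t)
        - R * Real.sin α * φ (R * Real.sin α * t) * Real.sin (R * Real.cos α * t)) * K t)).aestronglyMeasurable
  · filter_upwards with t β _
    rw [norm_mul, norm_mul, norm_mul, Real.norm_eq_abs, Real.norm_eq_abs, Real.norm_eq_abs,
      Real.norm_eq_abs, abs_of_pos c_pos]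
    have h1 : |R * Real.cos β * φ (R * Real.cos β * t) * Real.sin (R * Real.sin β * t)
        - R * Real.sin β * φ (R * Real.sin β * t) * Real.sin (R * Real.cos β * t)| ≤ 2 * |R| := by
      have a1 : |R * Real.cos β * φ (R * Real.cos β * t) * Real.sin (R * Real.sin β * t)| ≤ |R| := by
        rw [abs_mul, abs_mul, abs_mul]
        calc |R| * |Real.cos β| * |φ (R * Real.cos β * t)| * |Real.sin (R * Real.sin β * t)|
            ≤ |R| * 1 * 1 * 1 := by
              gcongr
              · exact Real.abs_cos_le_one _
              · exact abs_φ_le_one _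
              · exact Real.abs_sin_le_one _
          _ = |R| := by ring
      have a2 : |R * Real.sin β * φ (R * Real.sin β * t) * Real.sin (R * Real.cos β * t)| ≤ |R| := by
        rw [abs_mul, abs_mul, abs_mul]
        calc |R| * |Real.sin β| * |φ (R * Real.sin β * t)| * |Real.sin (R * Real.cos β * t)|
            ≤ |R| * 1 * 1 * 1 := by
              gcongr
              · exact Real.abs_sin_le_one _
              · exact abs_φ_le_one _
              · exact Real.abs_sin_le_one _
          _ = |R| := by ring
      calc _ ≤ |R * Real.cos β * φ (R * Real.cos β * t) * Real.sin (R * Real.sin β * t)|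
          + |R * Real.sin β * φ (R * Real.sin β * t) * Real.sin (R * Real.cos β * t)| := abs_sub _ _
        _ ≤ 2 * |R| := by linarith
    calc c * (|t| * |R * Real.cos β * φ (R * Real.cos β * t) * Real.sin (R * Real.sin β * t)
        - R * Real.sin β * φ (R * Real.sin β * t) * Real.sin (R * Real.cos β * t)| * |K t|)
        ≤ c * (|t| * (2 * |R|) * Real.exp (-ε * t ^ 2 / 2)) := by
          have := c_pos.le
          gcongr
          exact hKb t
      _ = c * (2 * |R|) * (|t| * Real.exp (-ε * t ^ 2 / 2)) := by ring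
  · filter_upwards with t β _
    have d1 : HasDerivAt (fun β => R * Real.cos β * t) (R * (-Real.sin β) * t) β :=
      ((Real.hasDerivAt_cos β).const_mul R).mul_const t
    have d2 : HasDerivAt (fun β => R * Real.sin β * t) (R * Real.cos β * t) β :=
      ((Real.hasDerivAt_sin β).const_mul R).mul_const t
    have d3 := (hasDerivAt_φ (R * Real.cos β * t)).comp β d1
    have d4 := (hasDerivAt_φ (R * Real.sin β * t)).comp β d2
    refine ((d3.mul d4).mul_const (K t)).congr_deriv ?_
    simp only [Function.comp_apply]
    ring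

/-- **Top two equalisation**, abstract version. -/
theorem top_two {K : ℝ → ℝ} (hKc : Continuous K) {ε : ℝ} (hε : 0 < ε)
    (hKb : ∀ t, |K t| ≤ Real.exp (-ε * t ^ 2 / 2)) {C : ℝ} (H : Cls C (ct K)) (hC : 0 ≤ C)
    {p q : ℝ} (hCq : C ≤ q) (hqp : q ≤ p) :
    ∫ t, φ (p * t) * φ (q * t) * K t
      ≤ ∫ t, φ (√((p ^ 2 + q ^ 2) / 2) * t) * φ (√((p ^ 2 + q ^ 2) / 2) * t) * K t := by
  have hK : Integrable K := by
    apply Integrable.mono' (integrable_gauss hε) hKc.aestronglyMeasurable
    filter_upwards with t
    exact hKb t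
  have hq0 : 0 ≤ q := by linarith
  have hp0 : 0 ≤ p := by linarith
  rcases hp0.eq_or_lt with h0 | hp
  · have hq : q = 0 := by linarith
    rw [hq, ← h0]
    simp
  set R := √(p ^ 2 + q ^ 2) with hR
  have hRsq : R ^ 2 = p ^ 2 + q ^ 2 := Real.sq_sqrt (by positivity)
  have hRpos : 0 < R := Real.sqrt_pos.mpr (by positivity)
  set α₀ := Real.arcsin (q / R) with hα₀
  have hqR : q / R ≤ 1 / √2 := by
    rw [div_le_div_iff₀ hRpos (by positivity)]
    rw [one_mul]
    apply le_of_sq_le_sq _ hRpos.le
    rw [mul_pow, Real.sq_sqrt (by norm_num), hRsq]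
    nlinarith
  have hqR0 : 0 ≤ q / R := div_nonneg hq0 hRpos.le
  have hqR1 : q / R ≤ 1 := hqR.trans (by
    rw [div_le_one (by positivity)]
    exact Real.one_le_sqrt.mpr (by norm_num))
  have hsin : R * Real.sin α₀ = q := by
    rw [hα₀, Real.sin_arcsin (by linarith) hqR1]
    field_simp
  have hcos : R * Real.cos α₀ = p := by
    rw [hα₀, Real.cos_arcsin]
    have e : 1 - (q / R) ^ 2 = (p / R) ^ 2 := by
      rw [div_pow, div_pow, hRsq]
      field_simp
      ring
    rw [e, Real.sqrt_sq (by positivity)]
    field_simp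
  have hα0 : 0 ≤ α₀ := Real.arcsin_nonneg.mpr hqR0
  have hα4 : α₀ ≤ Real.pi / 4 := by
    rw [hα₀]
    have : Real.arcsin (q / R) ≤ Real.arcsin (1 / √2) := Real.arcsin_le_arcsin hqR
    have h2 : Real.arcsin (1 / √2) = Real.pi / 4 := by
      have e : (1 : ℝ) / √2 = Real.sin (Real.pi / 4) := by
        rw [Real.sin_pi_div_four, div_eq_div_iff (by positivity) (by norm_num)]
        rw [Real.mul_self_sqrt (by norm_num)]
        norm_num
      rw [e, Real.arcsin_sin]
      · linarith [Real.pi_pos]
      · linarith [Real.pi_pos]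
    linarith
  set D : ℝ → ℝ := fun α => ∫ t, φ (R * Real.cos α * t) * φ (R * Real.sin α * t) * K t with hD
  have hDd := fun α => rot_deriv hKc hε hKb R α
  have hmono : MonotoneOn D (Icc α₀ (Real.pi / 4)) := by
    apply monotoneOn_of_deriv_nonneg (convex_Icc _ _)
    · exact fun α _ => (hDd α).continuousAt.continuousWithinAt
    · exact fun α _ => (hDd α).differentiableAt.differentiableWithinAt
    · intro α hα
      rw [interior_Icc] at hα
      rw [(hDd α).deriv]
      apply mul_nonneg c_pos.le
      apply rot_sign hK H hC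
      · have : Real.sin α₀ ≤ Real.sin α :=
          Real.sin_le_sin_of_le_of_le_pi_div_two (by linarith [Real.pi_pos])
            (by linarith [Real.pi_pos, hα.2]) hα.1.le
        have := mul_le_mul_of_nonneg_left this hRpos.le
        linarith
      · apply mul_le_mul_of_nonneg_left _ hRpos.le
        have h1 : Real.sin α ≤ Real.sin (Real.pi / 4) :=
          Real.sin_le_sin_of_le_of_le_pi_div_two (by linarith [Real.pi_pos, hα.1])
            (by linarith [Real.pi_pos]) hα.2.le
        have h2 : Real.cos (Real.pi / 4) ≤ Real.cos α :=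
          Real.cos_le_cos_of_nonneg_of_le_pi (by linarith [hα.1]) (by linarith [Real.pi_pos]) hα.2.le
        rw [Real.sin_pi_div_four] at h1
        rw [Real.cos_pi_div_four] at h2
        linarith
  have hfin := hmono (left_mem_Icc.mpr hα4) (right_mem_Icc.mpr hα4) hα4
  simp only [hD] at hfin
  rw [hsin, hcos] at hfin
  have e1 : R * Real.cos (Real.pi / 4) = √((p ^ 2 + q ^ 2) / 2) := by
    rw [Real.cos_pi_div_four, hR, Real.sqrt_div (by positivity)]
    have : √2 * √2 = (2 : ℝ) := Real.mul_self_sqrt (by norm_num)
    field_simp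
    linarith
  have e2 : R * Real.sin (Real.pi / 4) = √((p ^ 2 + q ^ 2) / 2) := by
    rw [← e1, Real.sin_pi_div_four, Real.cos_pi_div_four]
  rw [e1, e2] at hfin
  exact hfin

/-- **Top two equalisation**: replacing the two largest coordinates `p ≥ q` by the two equal
coordinates with the same sum of squares does not decrease the integral. -/
theorem top_two_eq {ι : Type*} [DecidableEq ι] (s : Finset ι) (θ : ι → ℝ) {p q : ℝ}
    (hθ0 : ∀ k ∈ s, 0 ≤ θ k) (hθq : ∀ k ∈ s, θ k ≤ q) (hq : 0 < q) (hqp : q ≤ p) :
    ∫ t, φ (p * t) * φ (q * t) * ∏ k ∈ s, φ (θ k * t)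
      ≤ ∫ t, φ (√((p ^ 2 + q ^ 2) / 2) * t) * φ (√((p ^ 2 + q ^ 2) / 2) * t)
        * ∏ k ∈ s, φ (θ k * t) := by
  have hp : 0 < p := by linarith
  have hφ := φ_cont
  have lim : ∀ a b : ℝ, 0 < a → 0 < b → Filter.Tendsto
      (fun n : ℕ => ∫ t, φ (a * t) * φ (b * t) * Kr (1 / ((n : ℝ) + 1)) s θ t) Filter.atTop
      (nhds (∫ t, φ (a * t) * φ (b * t) * ∏ k ∈ s, φ (θ k * t))) := by
    intro a b ha hb
    apply tendsto_integral_of_dominated_convergence (fun t => |φ (a * t)| * |φ (b * t)|)
    · intro n
      have := continuous_Kr (1 / ((n : ℝ) + 1)) s θ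
      exact (by fun_prop : Continuous fun t =>
        φ (a * t) * φ (b * t) * Kr (1 / ((n : ℝ) + 1)) s θ t).aestronglyMeasurable
    · refine (integrable_φ_mul_φ ha.ne' hb.ne').norm.congr ?_
      filter_upwards with t
      rw [norm_mul, Real.norm_eq_abs, Real.norm_eq_abs]
    · intro n
      filter_upwards with t
      rw [norm_mul, norm_mul, Real.norm_eq_abs, Real.norm_eq_abs, Real.norm_eq_abs]
      apply mul_le_of_le_one_right (by positivity)
      refine (abs_Kr_le _ s θ t).trans ?_
      rw [Real.exp_le_one_iff]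
      have : 0 ≤ 1 / ((n : ℝ) + 1) * t ^ 2 := by positivity
      linarith
    · filter_upwards with t
      apply Filter.Tendsto.const_mul
      unfold Kr
      have h1 : Filter.Tendsto (fun n : ℕ => Real.exp (-(1 / ((n : ℝ) + 1)) * t ^ 2 / 2))
          Filter.atTop (nhds (Real.exp (-0 * t ^ 2 / 2))) := by
        apply (Real.continuous_exp.tendsto _).comp
        apply Filter.Tendsto.div_const
        apply Filter.Tendsto.mul_const
        exact tendsto_one_div_add_atTop_nhds_zero_nat.neg
      have h2 := h1.const_mul (∏ k ∈ s, φ (θ k * t))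
      simpa using h2
  have he : 0 < √((p ^ 2 + q ^ 2) / 2) := Real.sqrt_pos.mpr (by positivity)
  refine le_of_tendsto_of_tendsto' (lim p q hp hq) (lim _ _ he he) ?_
  intro n
  have hε : (0 : ℝ) < 1 / ((n : ℝ) + 1) := by positivity
  exact top_two (continuous_Kr _ s θ) hε (abs_Kr_le _ s θ) (cls_ct_Kr hε s θ hθ0 hθq) hq.le le_rfl hqp

end Helper58.GC
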