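import Pool.Agent.Helper58.GC.Four
import Pool.Agent.Helper58.GC.Rot

/-!
# Special directions and reduction to equal top coordinates
-/

namespace Helper58.GC

open MeasureTheory ProbabilityTheory Module Set Helper64.CubeGauss

open scoped RealInnerProductSpace

variable {n : ℕ}

/-- `γ₁([-a,a])` -/
lemma gauss_Icc (a : ℝ) (ha : 0 ≤ a) : (gaussianReal 0 1).real (Icc (-a) a)
    = (√(2 * Real.pi))⁻¹ * ∫ x in (-a)..a, g x := by
  rw [measureReal_def, gaussianReal_apply_eq_integral 0 one_ne_zero, ENNReal.toReal_ofReal]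
  · rw [intervalIntegral.integral_of_le (by linarith), ← integral_Icc_eq_integral_Ioc,
      ← integral_const_mul]
    simp_rw [pdf_eq]
  · apply setIntegral_nonneg measurableSet_Icc
    intro x _
    exact gaussianPDFReal_nonneg _ _ _

lemma gauss_Icc_one : (gaussianReal 0 1).real (Icc (-1) 1) = (√(2 * Real.pi))⁻¹ * P :=
  gauss_Icc 1 zero_le_one

/-- coordinate directions -/
theorem secMeas_axis {θ : EuclideanSpace ℝ (Fin n)} (hθ : ‖θ‖ = 1) {k : Fin n}
    (h0 : ∀ i, i ≠ k → θ i = 0) :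
    secMeas 1 θ = ((√(2 * Real.pi))⁻¹ * P) ^ (n - 1) := by
  have hk : |θ k| = 1 := by
    have h1 : ∑ l, θ l ^ 2 = 1 := by
      rw [← EuclideanSpace.real_norm_sq_eq, hθ]; norm_num
    rw [Finset.sum_eq_single k (fun i _ hi => by rw [h0 i hi]; norm_num)
      (fun h => absurd (Finset.mem_univ k) h)] at h1
    rw [← sq_eq_sq₀ (abs_nonneg _) zero_le_one, sq_abs, h1]
    norm_num
  have hyk : ∀ y : (Submodule.span ℝ {θ})ᗮ, (y : EuclideanSpace ℝ (Fin n)) k = 0 := by
    intro y
    have h1 : ⟪θ, (y : EuclideanSpace ℝ (Fin n))⟫ = 0 :=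
      Submodule.mem_orthogonal_singleton_iff_inner_right.mp y.2
    rw [PiLp.inner_apply, Finset.sum_eq_single k (fun i _ hi => by rw [h0 i hi]; simp)
      (fun h => absurd (Finset.mem_univ k) h)] at h1
    have hk0 : θ k ≠ 0 := by
      intro h; rw [h] at hk; simp at hk
    simpa [hk0] using h1
  have hG : ∀ s, g s * G θ s = q s * secMeas 1 θ := by
    intro s
    unfold q
    by_cases hs : s ∈ Icc (-1 : ℝ) 1
    · rw [indicator_of_mem hs, ← G_zero]
      congr 1
      unfold G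
      congr 1
      ext y
      rw [mem_ofPred_eq, mem_ofPred_eq]
      have hval : ∀ s' i, i ≠ k → (glue θ (s', y)) i = (y : EuclideanSpace ℝ (Fin n)) i := by
        intro s' i hi
        unfold glue
        simp [h0 i hi]
      have hvalk : ∀ s', |(glue θ (s', y)) k| = |s'| := by
        intro s'
        unfold glue
        simp [hyk y, abs_mul, hk]
      constructor
      · intro h i
        by_cases hi : i = k
        · rw [hi, hvalk]; simp
        · rw [hval 0 i hi, ← hval s i hi]; exact h i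
      · intro h i
        by_cases hi : i = k
        · rw [hi, hvalk]; exact abs_le.mpr ⟨hs.1, hs.2⟩
        · rw [hval s i hi, ← hval 0 i hi]; exact h i
    · rw [indicator_of_notMem hs, zero_mul]
      have : G θ s = 0 := by
        unfold G
        have he : {y : (Submodule.span ℝ {θ})ᗮ | ∀ i, |(glue θ (s, y)) i| ≤ 1} = ∅ := by
          apply eq_empty_of_forall_notMem
          intro y hy
          have h1 := hy k
          have h2 : |(glue θ (s, y)) k| = |s| := by
            unfold glue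
            simp [hyk y, abs_mul, hk]
          rw [h2] at h1
          exact hs ⟨(abs_le.mp h1).1, (abs_le.mp h1).2⟩
        rw [he]
        simp
      rw [this, mul_zero]
  have key := profile_charFun hθ 0
  have e1 : ∀ s, (√(2 * Real.pi))⁻¹ * g s * G θ s * Real.cos (0 * s)
      = (√(2 * Real.pi))⁻¹ * secMeas 1 θ * (q s * Real.cos (0 * s)) := by
    intro s
    have := hG s
    calc (√(2 * Real.pi))⁻¹ * g s * G θ s * Real.cos (0 * s)
        = (√(2 * Real.pi))⁻¹ * (g s * G θ s) * Real.cos (0 * s) := by ring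
      _ = _ := by rw [this]; ring
  simp_rw [e1] at key
  rw [integral_const_mul, integral_q_cos, φ_zero] at key
  simp only [mul_zero, φ_zero, mul_one, Finset.prod_const, Finset.card_univ, Fintype.card_fin] at key
  have hn : n = (n - 1) + 1 := by
    have : 0 < n := Fin.pos k
    omega
  have hpos : 0 < (√(2 * Real.pi))⁻¹ * P := by
    have := P_pos
    have : 0 < √(2 * Real.pi) := Real.sqrt_pos.mpr (by positivity)
    positivity
  have e4 : ((√(2 * Real.pi))⁻¹ * P) ^ n
      = ((√(2 * Real.pi))⁻¹ * P) ^ (n - 1) * ((√(2 * Real.pi))⁻¹ * P) := by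
    rw [← pow_succ]
    congr 1
  rw [e4] at key
  have e3 : (√(2 * Real.pi))⁻¹ * secMeas 1 θ * P = secMeas 1 θ * ((√(2 * Real.pi))⁻¹ * P) := by ring
  rw [e3] at key
  exact mul_right_cancel₀ hpos.ne' key

/-- `∫ φ(t/√2)² dt` in closed form -/
lemma integral_cusp : ((√(2 * Real.pi))⁻¹ * P) ^ 2 * (√(2 * Real.pi))⁻¹ * ∫ t, φ (t / √2) ^ 2
    = (gaussianReal 0 1).real (Icc (-√2) √2) := by
  have h1 : ∫ t, φ (t / √2) ^ 2 = √2 * ∫ t, φ t ^ 2 := by
    have := Measure.integral_comp_div (fun t => φ t ^ 2) (√2)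
    rw [this, abs_of_pos (by positivity), smul_eq_mul]
  have h2 : ∫ x in (-√2)..√2, g x = √2 * ∫ x in (-1 : ℝ)..1, Real.exp (-x ^ 2) := by
    have h3 := intervalIntegral.mul_integral_comp_mul_left (a := -1) (b := 1) (f := g) (√2)
    rw [mul_one, mul_neg_one] at h3
    rw [← h3]
    congr 2
    ext x
    unfold g
    congr 1
    rw [mul_pow, Real.sq_sqrt (by norm_num)]
    ring
  rw [h1, A2_eq, gauss_Icc _ (Real.sqrt_nonneg _), h2]
  have h2π : √(2 * Real.pi) * √(2 * Real.pi) = 2 * Real.pi := Real.mul_self_sqrt (by positivity)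
  have hpos : 0 < √(2 * Real.pi) := Real.sqrt_pos.mpr (by positivity)
  have hP := P_pos.ne'
  have e : 2 * Real.pi / P ^ 2 = √(2 * Real.pi) * √(2 * Real.pi) / P ^ 2 := by rw [h2π]
  rw [e]
  generalize √(2 * Real.pi) = w at *
  field_simp

/-- The cusp direction. -/
theorem secMeas_cusp {θ : EuclideanSpace ℝ (Fin n)} {i j : Fin n} (hij : i ≠ j)
    (hi : θ i = 1 / √2) (hj : θ j = 1 / √2) (h0 : ∀ k, k ≠ i → k ≠ j → θ k = 0) :
    secMeas 1 θ = (gaussianReal 0 1).real (Icc (-√2) √2)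
      * ((√(2 * Real.pi))⁻¹ * P) ^ (n - 2) := by
  have h2 : (0 : ℝ) < 1 / √2 := by positivity
  have hsum : ∑ l, θ l ^ 2 = 1 := by
    have hsub : ({i, j} : Finset (Fin n)) ⊆ Finset.univ := Finset.subset_univ _
    rw [← Finset.sum_subset hsub, Finset.sum_pair hij, hi, hj, div_pow, Real.sq_sqrt (by norm_num)]
    · norm_num
    · intro k _ hk
      rw [Finset.mem_insert, Finset.mem_singleton, not_or] at hk
      rw [h0 k hk.1 hk.2]; norm_num
  have hθ : ‖θ‖ = 1 := by
    rw [← sq_eq_sq₀ (norm_nonneg _) zero_le_one, EuclideanSpace.real_norm_sq_eq, hsum]; norm_num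
  rw [secMeas_eq hθ hij (by rw [hi]; exact h2.ne') (by rw [hj]; exact h2.ne')]
  have hprod : ∀ t, ∏ k, φ (θ k * t) = φ (t / √2) ^ 2 := by
    intro t
    have hsub : ({i, j} : Finset (Fin n)) ⊆ Finset.univ := Finset.subset_univ _
    rw [← Finset.prod_subset hsub, Finset.prod_pair hij, hi, hj, sq]
    · congr 2 <;> ring
    · intro k _ hk
      rw [Finset.mem_insert, Finset.mem_singleton, not_or] at hk
      rw [h0 k hk.1 hk.2, zero_mul, φ_zero]
  simp_rw [hprod]
  rw [← integral_cusp]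
  have hn : n = (n - 2) + 2 := by
    have : ({i, j} : Finset (Fin n)).card ≤ n := by
      have := Finset.card_le_univ ({i, j} : Finset (Fin n))
      rwa [Fintype.card_fin] at this
    rw [Finset.card_pair hij] at this
    omega
  have e4 : ((√(2 * Real.pi))⁻¹ * P) ^ n
      = ((√(2 * Real.pi))⁻¹ * P) ^ (n - 2) * ((√(2 * Real.pi))⁻¹ * P) ^ 2 := by
    rw [← pow_add]
    congr 1
  rw [e4]
  ring

/-- **Reduction**: a bound for all nonnegative unit vectors whose two largest coordinates are equal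
is a bound for all unit vectors with at least two nonzero coordinates. -/
theorem bound_of_top_eq {B : ℝ}
    (hT : ∀ (th : Fin n → ℝ), ∑ i, th i ^ 2 = 1 → ∀ i0 i1, i0 ≠ i1 → th i1 = th i0 →
      (∀ i, 0 ≤ th i ∧ th i ≤ th i0) → ∫ t, ∏ i, φ (th i * t) ≤ B)
    (θ : Fin n → ℝ) (hθ : ∑ i, θ i ^ 2 = 1) {i j : Fin n} (hij : i ≠ j) (hi : θ i ≠ 0)
    (hj : θ j ≠ 0) : ∫ t, ∏ k, φ (θ k * t) ≤ B := by
  classical
  -- absolute values
  have habs : ∀ t, ∏ k, φ (θ k * t) = ∏ k, φ (|θ k| * t) := by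
    intro t
    apply Finset.prod_congr rfl
    intro k _
    rcases abs_cases (θ k) with ⟨e, _⟩ | ⟨e, _⟩
    · rw [e]
    · rw [e, neg_mul, φ_neg]
  simp_rw [habs]
  -- the largest coordinate
  obtain ⟨i0, _, hi0⟩ := Finset.exists_max_image Finset.univ (fun k => |θ k|) ⟨i, Finset.mem_univ i⟩
  obtain ⟨m, hm0, hmne⟩ : ∃ m, θ m ≠ 0 ∧ m ≠ i0 := by
    by_cases h : i = i0
    · exact ⟨j, hj, fun h' => hij (h.trans h'.symm)⟩
    · exact ⟨i, hi, h⟩
  obtain ⟨i1, hi1mem, hi1⟩ := Finset.exists_max_image (Finset.univ.erase i0) (fun k => |θ k|)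
    ⟨m, Finset.mem_erase.mpr ⟨hmne, Finset.mem_univ m⟩⟩
  have hne : i1 ≠ i0 := (Finset.mem_erase.mp hi1mem).1
  have hq : 0 < |θ i1| := lt_of_lt_of_le (abs_pos.mpr hm0)
    (hi1 m (Finset.mem_erase.mpr ⟨hmne, Finset.mem_univ m⟩))
  have hqp : |θ i1| ≤ |θ i0| := hi0 i1 (Finset.mem_univ i1)
  set s : Finset (Fin n) := (Finset.univ.erase i0).erase i1 with hs
  have key := top_two_eq s (fun k => |θ k|) (p := |θ i0|) (q := |θ i1|) (fun k _ => abs_nonneg _)
    (fun k hk => hi1 k (Finset.mem_of_mem_erase hk)) hq hqp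
  have hsplit : ∀ F : Fin n → ℝ, ∏ k, F k = F i0 * F i1 * ∏ k ∈ s, F k := by
    intro F
    rw [← Finset.mul_prod_erase Finset.univ F (Finset.mem_univ i0),
      ← Finset.mul_prod_erase (Finset.univ.erase i0) F hi1mem, mul_assoc]
  have hsplit' : ∀ F : Fin n → ℝ, ∑ k, F k = F i0 + F i1 + ∑ k ∈ s, F k := by
    intro F
    rw [← Finset.add_sum_erase Finset.univ F (Finset.mem_univ i0),
      ← Finset.add_sum_erase (Finset.univ.erase i0) F hi1mem, add_assoc]
  set e := √((|θ i0| ^ 2 + |θ i1| ^ 2) / 2) with he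
  set th : Fin n → ℝ := fun k => if k = i0 ∨ k = i1 then e else |θ k| with hth
  have hth0 : th i0 = e := by simp [hth]
  have hth1 : th i1 = e := by simp [hth]
  have hths : ∀ k ∈ s, th k = |θ k| := by
    intro k hk
    have h1 : k ≠ i1 := Finset.ne_of_mem_erase hk
    have h2 : k ≠ i0 := Finset.ne_of_mem_erase (Finset.mem_of_mem_erase hk)
    simp [hth, h1, h2]
  have hesq : e ^ 2 = (|θ i0| ^ 2 + |θ i1| ^ 2) / 2 := Real.sq_sqrt (by positivity)
  have hqe : |θ i1| ≤ e := by
    apply Real.le_sqrt_of_sq_le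
    nlinarith [hq.le]
  have hsum : ∑ k, th k ^ 2 = 1 := by
    rw [hsplit', hth0, hth1, hesq, Finset.sum_congr rfl (fun k hk => by rw [hths k hk]),
      ← hθ, hsplit' (fun k => θ k ^ 2)]
    simp_rw [sq_abs]
    ring
  have hall : ∀ k, 0 ≤ th k ∧ th k ≤ th i0 := by
    intro k
    rw [hth0]
    by_cases h0 : k = i0
    · rw [h0, hth0]; exact ⟨Real.sqrt_nonneg _, le_rfl⟩
    by_cases h1 : k = i1
    · rw [h1, hth1]; exact ⟨Real.sqrt_nonneg _, le_rfl⟩
    have hks : k ∈ s := Finset.mem_erase.mpr ⟨h1, Finset.mem_erase.mpr ⟨h0, Finset.mem_univ k⟩⟩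
    rw [hths k hks]
    exact ⟨abs_nonneg _, (hi1 k (Finset.mem_of_mem_erase hks)).trans hqe⟩
  have hB := hT th hsum i0 i1 hne.symm (by rw [hth0, hth1]) hall
  refine le_trans (le_of_eq_of_le ?_ (le_of_le_of_eq key ?_)) hB
  · congr 1
    ext t
    rw [hsplit (fun k => φ (|θ k| * t))]
  · congr 1
    ext t
    rw [hsplit (fun k => φ (th k * t)), hth0, hth1]
    congr 1
    apply Finset.prod_congr rfl
    intro k hk
    rw [hths k hk]

end Helper58.GC
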