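import Mathlib

/-!
# The class `Cls c`

`h ∈ Cls c` when `h` is continuous, even and the slopes of `z ↦ h (√z)` satisfy a comparison:
for `0 ≤ u₁ ≤ u₂ ≤ u₃ ≤ u₄` with `2c ≤ u₁ + u₄` and `2c ≤ u₂ + u₃`,
`(h u₃ - h u₄) / (u₄² - u₃²) ≤ (h u₁ - h u₂) / (u₂² - u₁²)`.
-/

namespace Helper58.GC

open Set

/-- The class `Cls c` of even continuous functions. -/
structure Cls (c : ℝ) (h : ℝ → ℝ) : Prop where
  cont : Continuous h
  even : ∀ x, h (-x) = h x
  slope₀ : ∀ u₁ u₂ u₃ u₄ : ℝ, 0 ≤ u₁ → u₁ ≤ u₂ → u₂ ≤ u₃ → u₃ ≤ u₄ → 2 * c ≤ u₁ + u₄ →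
    2 * c ≤ u₂ + u₃ → (h u₃ - h u₄) * (u₂ ^ 2 - u₁ ^ 2) ≤ (h u₁ - h u₂) * (u₄ ^ 2 - u₃ ^ 2)

lemma Cls.abs {c : ℝ} {h : ℝ → ℝ} (H : Cls c h) (x : ℝ) : h |x| = h x := by
  rcases abs_cases x with ⟨e, _⟩ | ⟨e, _⟩
  · rw [e]
  · rw [e, H.even]

/-- Slope comparison for possibly overlapping intervals. -/
lemma Cls.slope {c : ℝ} {h : ℝ → ℝ} (H : Cls c h) {u₁ u₂ u₃ u₄ : ℝ} (h1 : 0 ≤ u₁)
    (h12 : u₁ ≤ u₂) (h13 : u₁ ≤ u₃) (h34 : u₃ ≤ u₄) (hl : u₂ ^ 2 - u₁ ^ 2 ≤ u₄ ^ 2 - u₃ ^ 2)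
    (h14 : 2 * c ≤ u₁ + u₄) (h23 : 2 * c ≤ u₂ + u₃) :
    (h u₃ - h u₄) * (u₂ ^ 2 - u₁ ^ 2) ≤ (h u₁ - h u₂) * (u₄ ^ 2 - u₃ ^ 2) := by
  rcases le_total u₂ u₃ with h23' | h32
  · exact H.slope₀ u₁ u₂ u₃ u₄ h1 h12 h23' h34 h14 h23
  · have h24 : u₂ ≤ u₄ := by
      apply le_of_sq_le_sq _ (by linarith)
      nlinarith
    have ha := H.slope₀ u₁ u₃ u₂ u₄ h1 h13 h32 h24 h14 (by linarith)
    have hb := H.slope₀ u₃ u₂ u₂ u₄ (by linarith) h32 le_rfl h24 (by linarith) (by linarith)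
    have hL1 : 0 ≤ u₃ ^ 2 - u₁ ^ 2 := by nlinarith
    have hO : 0 ≤ u₂ ^ 2 - u₃ ^ 2 := by nlinarith
    have hL2 : 0 ≤ u₄ ^ 2 - u₂ ^ 2 := by nlinarith
    set L₁ := u₃ ^ 2 - u₁ ^ 2 with hL1d
    set O := u₂ ^ 2 - u₃ ^ 2 with hOd
    set L₂ := u₄ ^ 2 - u₂ ^ 2 with hL2d
    have e1 : u₂ ^ 2 - u₁ ^ 2 = L₁ + O := by rw [hL1d, hOd]; ring
    have e2 : u₄ ^ 2 - u₃ ^ 2 = O + L₂ := by rw [hOd, hL2d]; ring
    have hL12 : L₁ ≤ L₂ := by linarith
    rw [e1, e2]
    rcases hL2.eq_or_lt with h0 | hpos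
    · have hL10 : L₁ = 0 := by linarith
      have e13 : u₁ = u₃ := by
        have : (u₃ - u₁) * (u₃ + u₁) = 0 := by nlinarith
        rcases mul_eq_zero.mp this with h' | h' <;> linarith
      have e24 : u₂ = u₄ := by
        have : (u₄ - u₂) * (u₄ + u₂) = 0 := by nlinarith
        rcases mul_eq_zero.mp this with h' | h' <;> linarith
      rw [← h0, hL10, e13, e24]
      simp
    · have key : 0 ≤ L₂ * ((h u₁ - h u₂) * (O + L₂) - (h u₃ - h u₄) * (L₁ + O)) := by
        have e : L₂ * ((h u₁ - h u₂) * (O + L₂) - (h u₃ - h u₄) * (L₁ + O))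
            = (O + L₂) * ((h u₁ - h u₃) * L₂ - (h u₂ - h u₄) * L₁)
              + (L₂ - L₁) * ((h u₃ - h u₂) * L₂ - (h u₂ - h u₄) * O) := by ring
        rw [e]
        have i1 : 0 ≤ (h u₁ - h u₃) * L₂ - (h u₂ - h u₄) * L₁ := by linarith
        have i2 : 0 ≤ (h u₃ - h u₂) * L₂ - (h u₂ - h u₄) * O := by linarith
        have i3 : 0 ≤ L₂ - L₁ := by linarith
        positivity
      have := (mul_nonneg_iff_of_pos_left hpos).mp key
      linarith

/-- The slope comparison follows from the comparison of `-K'(v)/v`. -/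
lemma slope_of_deriv {c : ℝ} {K K' : ℝ → ℝ} (hc : Continuous K)
    (hd : ∀ v, 0 < v → HasDerivAt K (K' v) v)
    (hcmp : ∀ v v', 0 < v → v ≤ v' → 2 * c ≤ v + v' → K' v * v' ≤ K' v' * v)
    (u₁ u₂ u₃ u₄ : ℝ) (h1 : 0 ≤ u₁) (h12 : u₁ ≤ u₂) (h23 : u₂ ≤ u₃) (h34 : u₃ ≤ u₄)
    (hc14 : 2 * c ≤ u₁ + u₄) (hc23 : 2 * c ≤ u₂ + u₃) :
    (K u₃ - K u₄) * (u₂ ^ 2 - u₁ ^ 2) ≤ (K u₁ - K u₂) * (u₄ ^ 2 - u₃ ^ 2) := by
  rcases h12.eq_or_lt with e | h12'
  · subst e; simp
  rcases h34.eq_or_lt with e | h34'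
  · subst e; simp
  set l := u₂ ^ 2 - u₁ ^ 2 with hl
  set l' := u₄ ^ 2 - u₃ ^ 2 with hl'
  have hlpos : 0 < l := by rw [hl]; nlinarith
  have hl'pos : 0 < l' := by rw [hl']; nlinarith
  have hu2 : 0 < u₂ := by linarith
  have hu3 : 0 < u₃ := by linarith
  set ψ : ℝ → ℝ := fun s => K (√(u₁ ^ 2 + s * l)) * l' + K (√(u₄ ^ 2 - s * l')) * l with hψ
  have hψc : ContinuousOn ψ (Icc 0 1) := by
    apply Continuous.continuousOn
    rw [hψ]
    fun_prop
  have hanti : AntitoneOn ψ (Icc 0 1) := by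
    apply antitoneOn_of_deriv_nonpos (convex_Icc 0 1) hψc
    · intro s hs
      rw [interior_Icc] at hs
      have p1 : 0 < u₁ ^ 2 + s * l := by
        have := mul_pos hs.1 hlpos
        positivity
      have p2 : 0 < u₄ ^ 2 - s * l' := by
        have : s * l' < 1 * l' := mul_lt_mul_of_pos_right hs.2 hl'pos
        have : 0 < u₃ ^ 2 := by positivity
        linarith
      have d1 : HasDerivAt (fun s => u₁ ^ 2 + s * l) l s := by
        simpa using ((hasDerivAt_id s).mul_const l).const_add (u₁ ^ 2)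
      have d2 : HasDerivAt (fun s => u₄ ^ 2 - s * l') (-l') s := by
        simpa using ((hasDerivAt_id s).mul_const l').const_sub (u₄ ^ 2)
      have e1 := ((hd _ (Real.sqrt_pos.mpr p1)).comp s (d1.sqrt p1.ne')).mul_const l'
      have e2 := ((hd _ (Real.sqrt_pos.mpr p2)).comp s (d2.sqrt p2.ne')).mul_const l
      exact (e1.add e2).differentiableAt.differentiableWithinAt
    · intro s hs
      rw [interior_Icc] at hs
      have p1 : 0 < u₁ ^ 2 + s * l := by
        have := mul_pos hs.1 hlpos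
        positivity
      have p2 : 0 < u₄ ^ 2 - s * l' := by
        have : s * l' < 1 * l' := mul_lt_mul_of_pos_right hs.2 hl'pos
        have : 0 < u₃ ^ 2 := by positivity
        linarith
      have d1 : HasDerivAt (fun s => u₁ ^ 2 + s * l) l s := by
        simpa using ((hasDerivAt_id s).mul_const l).const_add (u₁ ^ 2)
      have d2 : HasDerivAt (fun s => u₄ ^ 2 - s * l') (-l') s := by
        simpa using ((hasDerivAt_id s).mul_const l').const_sub (u₄ ^ 2)
      have e1 := ((hd _ (Real.sqrt_pos.mpr p1)).comp s (d1.sqrt p1.ne')).mul_const l'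
      have e2 := ((hd _ (Real.sqrt_pos.mpr p2)).comp s (d2.sqrt p2.ne')).mul_const l
      have e3 : deriv ψ s = K' √(u₁ ^ 2 + s * l) * (l / (2 * √(u₁ ^ 2 + s * l))) * l'
          + K' √(u₄ ^ 2 - s * l') * (-l' / (2 * √(u₄ ^ 2 - s * l'))) * l := (e1.add e2).deriv
      rw [e3]
      set w := √(u₁ ^ 2 + s * l) with hw
      set w' := √(u₄ ^ 2 - s * l') with hw'
      have hwpos : 0 < w := Real.sqrt_pos.mpr p1
      have hw'pos : 0 < w' := Real.sqrt_pos.mpr p2
      have hww' : w ≤ w' := by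
        apply Real.sqrt_le_sqrt
        have a1 : s * l ≤ 1 * l := mul_le_mul_of_nonneg_right hs.2.le hlpos.le
        have a2 : s * l' ≤ 1 * l' := mul_le_mul_of_nonneg_right hs.2.le hl'pos.le
        nlinarith
      have b1 : (1 - s) * u₁ + s * u₂ ≤ w := by
        apply Real.le_sqrt_of_sq_le
        have : 0 ≤ s * (1 - s) * (u₂ - u₁) ^ 2 :=
          mul_nonneg (mul_nonneg hs.1.le (by linarith [hs.2])) (sq_nonneg _)
        rw [hl]
        nlinarith
      have b2 : (1 - s) * u₄ + s * u₃ ≤ w' := by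
        apply Real.le_sqrt_of_sq_le
        have : 0 ≤ s * (1 - s) * (u₄ - u₃) ^ 2 :=
          mul_nonneg (mul_nonneg hs.1.le (by linarith [hs.2])) (sq_nonneg _)
        rw [hl']
        nlinarith
      have hsum : 2 * c ≤ w + w' := by
        have a1 : (1 - s) * (2 * c) ≤ (1 - s) * (u₁ + u₄) :=
          mul_le_mul_of_nonneg_left hc14 (by linarith [hs.2])
        have a2 : s * (2 * c) ≤ s * (u₂ + u₃) := mul_le_mul_of_nonneg_left hc23 hs.1.le
        nlinarith
      have hk := hcmp w w' hwpos hww' hsum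
      have e4 : K' w * (l / (2 * w)) * l' + K' w' * (-l' / (2 * w')) * l
          = (K' w * w' - K' w' * w) * (l * l' / (2 * w * w')) := by
        field_simp
        ring
      rw [e4]
      exact mul_nonpos_of_nonpos_of_nonneg (by linarith) (by positivity)
  have h01 := hanti (left_mem_Icc.mpr zero_le_one) (right_mem_Icc.mpr zero_le_one) zero_le_one
  have s1 : √(u₁ ^ 2 + 1 * l) = u₂ := by
    rw [hl, one_mul, add_sub_cancel, Real.sqrt_sq hu2.le]
  have s2 : √(u₄ ^ 2 - 1 * l') = u₃ := by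
    rw [hl', one_mul, sub_sub_cancel, Real.sqrt_sq hu3.le]
  have s3 : √(u₁ ^ 2 + 0 * l) = u₁ := by
    rw [zero_mul, add_zero, Real.sqrt_sq h1]
  have s4 : √(u₄ ^ 2 - 0 * l') = u₄ := by
    rw [zero_mul, sub_zero, Real.sqrt_sq (by linarith)]
  simp only [hψ] at h01
  rw [s1, s2, s3, s4] at h01
  linarith

/-- Twice the average of `h` over `[u - r, u + r]`. -/
noncomputable def sm (r : ℝ) (h : ℝ → ℝ) (u : ℝ) : ℝ := ∫ x in (-1 : ℝ)..1, h (u + r * x)

lemma continuous_sm₂ {h : ℝ → ℝ} (hc : Continuous h) :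
    Continuous (fun p : ℝ × ℝ => sm p.1 h p.2) := by
  unfold sm
  apply intervalIntegral.continuous_parametric_intervalIntegral_of_continuous'
  fun_prop

lemma continuous_sm {h : ℝ → ℝ} (hc : Continuous h) (r : ℝ) : Continuous (sm r h) :=
  (continuous_sm₂ hc).comp (Continuous.prodMk continuous_const continuous_id)

lemma sm_even {h : ℝ → ℝ} (he : ∀ x, h (-x) = h x) (r : ℝ) (x : ℝ) : sm r h (-x) = sm r h x := by
  unfold sm
  have h1 : ∫ y in (-1 : ℝ)..1, h (-x + r * y) = ∫ y in (-1 : ℝ)..1, h (-x + r * -y) := by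
    have := intervalIntegral.integral_comp_neg (a := -1) (b := 1) (fun y => h (-x + r * y))
    rw [neg_neg] at this
    exact this.symm
  rw [h1]
  apply intervalIntegral.integral_congr
  intro y _
  simp only
  rw [← he]
  congr 1
  ring

lemma mul_sm (h : ℝ → ℝ) (r u : ℝ) : r * sm r h u = ∫ y in (u - r)..(u + r), h y := by
  unfold sm
  rw [intervalIntegral.mul_integral_comp_add_mul (f := h)]
  congr 1 <;> ring

lemma Cls.sm {c r : ℝ} {h : ℝ → ℝ} (H : Cls c h) (h0 : 0 ≤ r) (hr : r ≤ c) : Cls c (sm r h) := by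
  refine ⟨continuous_sm H.cont r, sm_even H.even r, ?_⟩
  rcases h0.eq_or_lt with e | hpos
  · intro u₁ u₂ u₃ u₄ h1 h12 h23 h34 h14 h23'
    have hs : ∀ u, GC.sm r h u = 2 * h u := by
      intro u
      unfold GC.sm
      rw [← e]
      simp
      norm_num
    rw [hs, hs, hs, hs]
    have := H.slope₀ u₁ u₂ u₃ u₄ h1 h12 h23 h34 h14 h23'
    linarith
  · set K : ℝ → ℝ := fun u => r * GC.sm r h u with hK
    have hKc : Continuous K := continuous_const.mul (continuous_sm H.cont r)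
    have hKd : ∀ v, HasDerivAt K (h (v + r) - h (v - r)) v := by
      intro v
      have hF : ∀ x, HasDerivAt (fun x => ∫ y in (0 : ℝ)..x, h y) (h x) x := fun x =>
        intervalIntegral.integral_hasDerivAt_right (H.cont.intervalIntegrable _ _)
          (H.cont.stronglyMeasurableAtFilter _ _) H.cont.continuousAt
      have e1 : K = fun u => (∫ y in (0 : ℝ)..(u + r), h y) - ∫ y in (0 : ℝ)..(u - r), h y := by
        ext u
        rw [hK]
        simp only
        rw [mul_sm, intervalIntegral.integral_interval_sub_left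
          (H.cont.intervalIntegrable _ _) (H.cont.intervalIntegrable _ _)]
      rw [e1]
      have d1 : HasDerivAt (fun u : ℝ => u + r) 1 v := (hasDerivAt_id v).add_const r
      have d2 : HasDerivAt (fun u : ℝ => u - r) 1 v := (hasDerivAt_id v).sub_const r
      refine HasDerivAt.congr_deriv (f' := h (v + r) * 1 - h (v - r) * 1) ?_ (by ring)
      exact ((hF (v + r)).comp v d1).sub ((hF (v - r)).comp v d2)
    have key := slope_of_deriv (c := c) hKc (fun v _ => hKd v) (by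
      intro v v' hv hvv' hs
      have hv'c : c ≤ v' := by linarith
      have hv'r : 0 ≤ v' - r := by linarith
      have s := H.slope (u₁ := |v - r|) (u₂ := v + r) (u₃ := v' - r) (u₄ := v' + r)
        (abs_nonneg _) (abs_le.mpr ⟨by linarith, by linarith⟩)
        (abs_le.mpr ⟨by linarith, by linarith⟩) (by linarith)
        (by rw [sq_abs]; nlinarith) (by linarith [neg_abs_le (v - r), le_abs_self (v - r)])
        (by linarith)
      rw [H.abs, sq_abs] at s
      have e1 : (v + r) ^ 2 - (v - r) ^ 2 = 4 * r * v := by ring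
      have e2 : (v' + r) ^ 2 - (v' - r) ^ 2 = 4 * r * v' := by ring
      rw [e1, e2] at s
      have s2 : 0 ≤ (4 * r) * ((h (v' + r) - h (v' - r)) * v - (h (v + r) - h (v - r)) * v') := by
        linarith
      have := (mul_nonneg_iff_of_pos_left (by positivity)).mp s2
      linarith)
    intro u₁ u₂ u₃ u₄ h1 h12 h23 h34 h14 h23'
    have k := key u₁ u₂ u₃ u₄ h1 h12 h23 h34 h14 h23'
    simp only [hK] at k
    have k2 : 0 ≤ r * ((GC.sm r h u₁ - GC.sm r h u₂) * (u₄ ^ 2 - u₃ ^ 2)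
        - (GC.sm r h u₃ - GC.sm r h u₄) * (u₂ ^ 2 - u₁ ^ 2)) := by linarith
    have := (mul_nonneg_iff_of_pos_left hpos).mp k2
    linarith

end Helper58.GC
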