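import Pool.Agent.Helper58.GC.Mix
import Pool.Agent.Helper58.GC.Phi

/-!
# Cosine transforms of regularised products belong to `Cls c`
-/

namespace Helper58.GC

open Set MeasureTheory Helper64.CubeGauss

/-- cosine transform -/
noncomputable def ct (K : ℝ → ℝ) (u : ℝ) : ℝ := ∫ t, K t * Real.cos (u * t)

lemma integral_sin_g (s : ℝ) : ∫ x in (-1 : ℝ)..1, Real.sin (s * x) * g x = 0 := by
  have h1 := intervalIntegral.integral_comp_neg (a := -1) (b := 1)
    (fun x => Real.sin (s * x) * g x)
  rw [neg_neg] at h1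
  have h2 : ∫ x in (-1 : ℝ)..1, Real.sin (s * -x) * g (-x)
      = -∫ x in (-1 : ℝ)..1, Real.sin (s * x) * g x := by
    rw [← intervalIntegral.integral_neg]
    apply intervalIntegral.integral_congr
    intro x _
    simp only
    rw [g_even, mul_neg, Real.sin_neg, neg_mul]
  rw [h2] at h1
  linarith

lemma integral_cos_g (s : ℝ) : ∫ x in (-1 : ℝ)..1, Real.cos (s * x) * g x = P * φ s := by
  unfold φ
  rw [mul_div_cancel₀ _ P_pos.ne']

lemma inner_integral (u θ t : ℝ) :
    ∫ x in (-1 : ℝ)..1, Real.cos ((u + θ * x) * t) * g x = Real.cos (u * t) * (P * φ (θ * t)) := by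
  have h1 : ∀ x, Real.cos ((u + θ * x) * t) * g x
      = Real.cos (u * t) * (Real.cos (θ * t * x) * g x)
        - Real.sin (u * t) * (Real.sin (θ * t * x) * g x) := by
    intro x
    have e : (u + θ * x) * t = u * t + θ * t * x := by ring
    rw [e, Real.cos_add]
    ring
  simp_rw [h1]
  have := g_cont
  rw [intervalIntegral.integral_sub, intervalIntegral.integral_const_mul,
    intervalIntegral.integral_const_mul, integral_sin_g, integral_cos_g]
  · ring
  · exact (by fun_prop : Continuous fun x =>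
      Real.cos (u * t) * (Real.cos (θ * t * x) * g x)).intervalIntegrable _ _
  · exact (by fun_prop : Continuous fun x =>
      Real.sin (u * t) * (Real.sin (θ * t * x) * g x)).intervalIntegrable _ _

lemma ct_mul_φ {K : ℝ → ℝ} (hK : Integrable K) (θ u : ℝ) :
    P * ct (fun t => K t * φ (θ * t)) u = cv θ (ct K) u := by
  unfold cv ct
  have h1 : ∀ x, (∫ t, K t * Real.cos ((u + θ * x) * t)) * g x
      = ∫ t, K t * Real.cos ((u + θ * x) * t) * g x := by
    intro x
    rw [integral_mul_const]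
  simp_rw [h1]
  rw [intervalIntegral_integral_swap]
  · rw [← integral_const_mul]
    congr 1
    ext t
    have h2 : ∀ x, K t * Real.cos ((u + θ * x) * t) * g x
        = K t * (Real.cos ((u + θ * x) * t) * g x) := fun x => by ring
    simp_rw [h2]
    rw [intervalIntegral.integral_const_mul, inner_integral]
    ring
  · have hg1 : Integrable g (volume.restrict (Set.uIoc (-1) 1)) := by
      rw [uIoc_of_le (by norm_num)]
      exact (g_cont.continuousOn.integrableOn_Icc).mono_set Ioc_subset_Icc_self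
    have hprod : Integrable (fun p : ℝ × ℝ => g p.1 * K p.2)
        ((volume.restrict (Set.uIoc (-1) 1)).prod volume) := hg1.mul_prod hK
    have h2 := hprod.mul_bdd (c := 1)
      (g := fun p : ℝ × ℝ => Real.cos ((u + θ * p.1) * p.2))
      (by
        exact (by fun_prop : Continuous fun p : ℝ × ℝ =>
          Real.cos ((u + θ * p.1) * p.2)).aestronglyMeasurable)
      (by
        filter_upwards with p
        rw [Real.norm_eq_abs]; exact Real.abs_cos_le_one _)
    refine h2.congr ?_
    filter_upwards with p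
    simp only [Function.uncurry]
    ring

lemma ct_gauss {ε : ℝ} (hε : 0 < ε) : ∃ C : ℝ, 0 ≤ C ∧ ∀ u,
    ct (fun t => Real.exp (-ε * t ^ 2 / 2)) u = C * Real.exp (-u ^ 2 / (2 * ε)) := by
  refine ⟨√(2 * Real.pi / ε), Real.sqrt_nonneg _, ?_⟩
  intro u
  have hb : 0 < ((ε / 2 : ℝ) : ℂ).re := by
    rw [Complex.ofReal_re]; positivity
  have h1 := fourierIntegral_gaussian hb (u : ℂ)
  have h2 : ∀ x : ℝ, Complex.exp (Complex.I * u * x) * Complex.exp (-((ε / 2 : ℝ) : ℂ) * x ^ 2)
      = ((Real.exp (-ε * x ^ 2 / 2) * Real.cos (u * x) : ℝ) : ℂ)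
        + ((Real.exp (-ε * x ^ 2 / 2) * Real.sin (u * x) : ℝ) : ℂ) * Complex.I := by
    intro x
    have e1 : Complex.I * u * x = ((u * x : ℝ) : ℂ) * Complex.I := by push_cast; ring
    have e2 : -((ε / 2 : ℝ) : ℂ) * x ^ 2 = ((-ε * x ^ 2 / 2 : ℝ) : ℂ) := by push_cast; ring
    rw [e1, e2, Complex.exp_mul_I, ← Complex.ofReal_cos, ← Complex.ofReal_sin, ← Complex.ofReal_exp]
    push_cast
    ring
  simp_rw [h2] at h1
  have hint : Integrable (fun x : ℝ => Real.exp (-ε * x ^ 2 / 2)) := by
    have := integrable_exp_neg_mul_sq (b := ε / 2) (by positivity)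
    refine this.congr ?_
    filter_upwards with x
    congr 1
    ring
  have hc : Integrable (fun x => Real.exp (-ε * x ^ 2 / 2) * Real.cos (u * x)) := by
    apply hint.mul_bdd (c := 1)
    · exact (by fun_prop : Continuous fun x => Real.cos (u * x)).aestronglyMeasurable
    · filter_upwards with x
      rw [Real.norm_eq_abs]; exact Real.abs_cos_le_one _
  have hs : Integrable (fun x => Real.exp (-ε * x ^ 2 / 2) * Real.sin (u * x)) := by
    apply hint.mul_bdd (c := 1)
    · exact (by fun_prop : Continuous fun x => Real.sin (u * x)).aestronglyMeasurable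
    · filter_upwards with x
      rw [Real.norm_eq_abs]; exact Real.abs_sin_le_one _
  rw [integral_add hc.ofReal (hs.ofReal.mul_const _), integral_mul_const, integral_complex_ofReal,
    integral_complex_ofReal] at h1
  have h3 := congrArg Complex.re h1
  have e3 : (((Real.pi : ℂ) / ((ε / 2 : ℝ) : ℂ)) ^ (1 / 2 : ℂ)) = ((√(2 * Real.pi / ε) : ℝ) : ℂ) := by
    rw [Real.sqrt_eq_rpow, Complex.ofReal_cpow (by positivity)]
    congr 1
    · push_cast
      field_simp
    · push_cast
      rfl
  have e4 : Complex.exp (-(u : ℂ) ^ 2 / (4 * ((ε / 2 : ℝ) : ℂ)))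
      = ((Real.exp (-u ^ 2 / (2 * ε)) : ℝ) : ℂ) := by
    rw [Complex.ofReal_exp]
    congr 1
    push_cast
    have : (ε : ℂ) ≠ 0 := by exact_mod_cast hε.ne'
    field_simp
    norm_num
  rw [e3, e4] at h3
  simp only [Complex.add_re, Complex.ofReal_re, Complex.mul_re, Complex.I_re, mul_zero,
    Complex.ofReal_im, Complex.I_im, mul_one, sub_zero, zero_mul, sub_self, add_zero] at h3
  exact h3

lemma Cls.const_mul {c C : ℝ} {h : ℝ → ℝ} (H : Cls c h) (hC : 0 ≤ C) : Cls c (fun u => C * h u) := by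
  refine ⟨continuous_const.mul H.cont, fun x => by rw [H.even], ?_⟩
  intro u₁ u₂ u₃ u₄ h1 h12 h23 h34 h14 h23'
  have := mul_le_mul_of_nonneg_left (H.slope₀ u₁ u₂ u₃ u₄ h1 h12 h23 h34 h14 h23') hC
  linarith

/-- the regularised product -/
noncomputable def Kr {ι : Type*} (ε : ℝ) (s : Finset ι) (θ : ι → ℝ) (t : ℝ) : ℝ :=
  (∏ k ∈ s, φ (θ k * t)) * Real.exp (-ε * t ^ 2 / 2)

lemma integrable_gauss {ε : ℝ} (hε : 0 < ε) : Integrable (fun x : ℝ => Real.exp (-ε * x ^ 2 / 2)) := by
  have := integrable_exp_neg_mul_sq (b := ε / 2) (by positivity)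
  refine this.congr ?_
  filter_upwards with x
  congr 1
  ring

lemma continuous_Kr {ι : Type*} (ε : ℝ) (s : Finset ι) (θ : ι → ℝ) : Continuous (Kr ε s θ) := by
  unfold Kr
  have := φ_cont
  fun_prop

lemma abs_Kr_le {ι : Type*} (ε : ℝ) (s : Finset ι) (θ : ι → ℝ) (t : ℝ) :
    |Kr ε s θ t| ≤ Real.exp (-ε * t ^ 2 / 2) := by
  unfold Kr
  rw [abs_mul, abs_of_pos (Real.exp_pos _)]
  exact mul_le_of_le_one_left (Real.exp_pos _).le (abs_prod_φ_le_one s θ t)

lemma integrable_Kr {ι : Type*} {ε : ℝ} (hε : 0 < ε) (s : Finset ι) (θ : ι → ℝ) :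
    Integrable (Kr ε s θ) := by
  apply Integrable.mono' (integrable_gauss hε) (continuous_Kr ε s θ).aestronglyMeasurable
  filter_upwards with t
  exact abs_Kr_le ε s θ t

/-- The regularised density of the rest belongs to the class. -/
lemma cls_ct_Kr {ι : Type*} [DecidableEq ι] {c ε : ℝ} (hε : 0 < ε) (s : Finset ι) (θ : ι → ℝ)
    (hθ0 : ∀ k ∈ s, 0 ≤ θ k) (hθc : ∀ k ∈ s, θ k ≤ c) : Cls c (ct (Kr ε s θ)) := by
  induction s using Finset.induction_on with
  | empty =>
    obtain ⟨C, hC, h⟩ := ct_gauss hε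
    have e : ct (Kr ε (∅ : Finset ι) θ) = fun u => C * Real.exp (-u ^ 2 / (2 * ε)) := by
      ext u
      rw [← h u]
      unfold Kr
      simp
    rw [e]
    exact (Cls.gauss hε).const_mul hC
  | insert i s hi ih =>
    have ih' := ih (fun k hk => hθ0 k (Finset.mem_insert_of_mem hk))
      (fun k hk => hθc k (Finset.mem_insert_of_mem hk))
    have e : ct (Kr ε (insert i s) θ) = fun u => P⁻¹ * GC.cv (θ i) (ct (Kr ε s θ)) u := by
      ext u
      rw [← ct_mul_φ (integrable_Kr hε s θ), inv_mul_cancel_left₀ P_pos.ne']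
      congr 1
      ext t
      unfold Kr
      rw [Finset.prod_insert hi]
      ring
    rw [e]
    exact (ih'.cv (hθ0 i (Finset.mem_insert_self _ _)) (hθc i (Finset.mem_insert_self _ _))).const_mul
      (inv_nonneg.mpr P_pos.le)

end Helper58.GC
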