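import Pool.Agent.Helper58.GC.Val
import Pool.Agent.Helper64.CubeGauss.Upper

/-!
# An upper bound for the diagonal integral, `n ≥ 6`
-/

namespace Helper58.GC

open MeasureTheory ProbabilityTheory Module Set Helper64.CubeGauss

lemma diag_even (n : ℕ) : ∫ t, φ (t / √n) ^ n = 2 * ∫ t in Ioi (0 : ℝ), φ (t / √n) ^ n := by
  rw [← integral_comp_abs (f := fun t => φ (t / √n) ^ n)]
  congr 1
  ext t
  rcases abs_cases t with ⟨e, _⟩ | ⟨e, _⟩
  · rw [e]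
  · rw [e, neg_div, φ_neg]

lemma diag_scale {n : ℕ} (hn : 0 < n) :
    ∫ t in Ioi (0 : ℝ), φ (t / √n) ^ n = √n * ∫ u in Ioi (0 : ℝ), φ u ^ n := by
  have hpos : (0 : ℝ) < √n := Real.sqrt_pos.mpr (by exact_mod_cast hn)
  have h := integral_comp_mul_left_Ioi (fun u => φ u ^ n) 0 (inv_pos.mpr hpos)
  rw [mul_zero, inv_inv, smul_eq_mul] at h
  rw [← h]
  congr 1
  ext t
  rw [div_eq_inv_mul]

lemma abs_φ_le_div {u : ℝ} (hu : 0 < u) : |φ u| ≤ (c + 1) / u := by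
  rw [le_div_iff₀ hu]
  have := abs_mul_φ_le u
  rw [abs_mul, abs_of_pos hu] at this
  linarith

lemma pow_n_bound (n : ℕ) (hn : 6 ≤ n) : √n * ((1709 / 1000 : ℝ) / Real.pi) ^ (n - 6) ≤ √6 := by
  have hpi := Real.pi_gt_d2
  set ρ : ℝ := (1709 / 1000 : ℝ) / Real.pi with hρ
  have hρ0 : 0 ≤ ρ := by positivity
  have hρ1 : ρ ^ 2 ≤ 6 / 7 := by
    have : ρ ≤ 0.545 := by
      rw [hρ, div_le_iff₀ Real.pi_pos]
      linarith
    nlinarith
  have key : ∀ m : ℕ, ((m : ℝ) + 6) * (ρ ^ m) ^ 2 ≤ 6 := by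
    intro m
    induction m with
    | zero => simp
    | succ m ih =>
      have e : ((m + 1 : ℕ) : ℝ) + 6 = (m : ℝ) + 6 + 1 := by push_cast; ring
      rw [e, pow_succ ρ m, mul_pow]
      have h1 : 0 ≤ (ρ ^ m) ^ 2 := by positivity
      have h2 : ((m : ℝ) + 6 + 1) * ρ ^ 2 ≤ (m : ℝ) + 6 := by
        have : (0 : ℝ) ≤ m := by positivity
        nlinarith
      calc ((m : ℝ) + 6 + 1) * ((ρ ^ m) ^ 2 * ρ ^ 2) = (((m : ℝ) + 6 + 1) * ρ ^ 2) * (ρ ^ m) ^ 2 := by ring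
        _ ≤ ((m : ℝ) + 6) * (ρ ^ m) ^ 2 := mul_le_mul_of_nonneg_right h2 h1
        _ ≤ 6 := ih
  have h := key (n - 6)
  have e : ((n - 6 : ℕ) : ℝ) + 6 = n := by
    rw [Nat.cast_sub hn]; push_cast; ring
  rw [e] at h
  apply Real.le_sqrt_of_sq_le
  rw [mul_pow, Real.sq_sqrt (by positivity)]
  exact h

/-- `∫ φ(t/√n)^n dt ≤ 4.74` for `n ≥ 6`. -/
theorem diag_le {n : ℕ} (hn : 6 ≤ n) : ∫ t, φ (t / √n) ^ n ≤ 4.74 := by
  rw [diag_even, diag_scale (by omega)]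
  have hn0 : (0 : ℝ) < n := by exact_mod_cast (by omega : 0 < n)
  have hs2 := s2_bounds
  have hs2pos : 0 < s2 := by have := hs2.1; norm_num at this; linarith
  have hc := c_bounds
  have hcp := c_pos
  have hpi := Real.pi_pos
  have hc1 : c + 1 ≤ 1709 / 1000 := by have := hc.2; norm_num at this ⊢; linarith
  set ρ : ℝ := (1709 / 1000 : ℝ) / Real.pi with hρ
  have hρ0 : 0 ≤ ρ := by positivity
  -- the two parts
  have hpart1 : ∀ u ∈ Ioc (0 : ℝ) Real.pi, φ u ^ n ≤ Real.exp (-(n * s2 / 2) * u ^ 2) := by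
    intro u hu
    have h0 := φ_pos_of_le_pi hu.1.le hu.2
    have h1 := φ_le_exp hu.1.le (by linarith [Real.pi_lt_d2, hu.2] : u ≤ 7 / 2)
    have h2 : φ u ≤ Real.exp (-(s2 / 2) * u ^ 2) := by
      refine h1.trans (Real.exp_le_exp.mpr ?_)
      unfold Λ
      have hc4 := c4_bounds.1
      have : 0 ≤ c4 * u ^ 4 := mul_nonneg (by norm_num at hc4; linarith) (by positivity)
      have : 0 ≤ c6 * u ^ 6 := mul_nonneg (by unfold c6; norm_num) (by positivity)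
      nlinarith
    calc φ u ^ n ≤ (Real.exp (-(s2 / 2) * u ^ 2)) ^ n := pow_le_pow_left₀ h0.le h2 n
      _ = Real.exp (-(n * s2 / 2) * u ^ 2) := by
        rw [← Real.exp_nat_mul]; congr 1; ring
  have hpart2 : ∀ u ∈ Ioi Real.pi, φ u ^ n ≤ ρ ^ (n - 6) * (1709 / 1000) ^ 6 * u ^ (-6 : ℝ) := by
    intro u hu
    have hu' : Real.pi < u := hu
    have hu0 : 0 < u := by linarith
    have h1 : |φ u| ≤ (1709 / 1000) / u := (abs_φ_le_div hu0).trans (by gcongr)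
    have h2 : (1709 / 1000) / u ≤ ρ := by rw [hρ]; gcongr
    have e : n = (n - 6) + 6 := by omega
    calc φ u ^ n ≤ |φ u ^ n| := le_abs_self _
      _ = |φ u| ^ n := abs_pow _ _
      _ ≤ ((1709 / 1000) / u) ^ n := pow_le_pow_left₀ (abs_nonneg _) h1 n
      _ = ((1709 / 1000) / u) ^ (n - 6) * ((1709 / 1000) / u) ^ 6 := by rw [← pow_add, ← e]
      _ ≤ ρ ^ (n - 6) * ((1709 / 1000) / u) ^ 6 := by gcongr
      _ = ρ ^ (n - 6) * (1709 / 1000) ^ 6 * u ^ (-6 : ℝ) := by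
        rw [Real.rpow_neg hu0.le, div_pow]
        have : u ^ (6 : ℝ) = u ^ 6 := by
          rw [show (6 : ℝ) = ((6 : ℕ) : ℝ) by norm_num, Real.rpow_natCast]
        rw [this]
        ring
  have hgi : Integrable (fun u : ℝ => Real.exp (-(n * s2 / 2) * u ^ 2)) :=
    integrable_exp_neg_mul_sq (by positivity)
  have htail : IntegrableOn (fun u : ℝ => ρ ^ (n - 6) * (1709 / 1000) ^ 6 * u ^ (-6 : ℝ)) (Ioi Real.pi) :=
    (integrableOn_Ioi_rpow_of_lt (by norm_num) Real.pi_pos).const_mul _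
  have hφc : Continuous fun u => φ u ^ n := φ_cont.pow n
  have hφi : IntegrableOn (fun u => φ u ^ n) (Ioi Real.pi) := by
    apply Integrable.mono' htail hφc.aestronglyMeasurable
    rw [ae_restrict_iff' measurableSet_Ioi]
    filter_upwards with u hu
    have hu' : Real.pi < u := hu
    have hu0 : 0 < u := by linarith
    have h1 : |φ u| ≤ (1709 / 1000) / u := (abs_φ_le_div hu0).trans (by gcongr)
    have h2 : (1709 / 1000) / u ≤ ρ := by rw [hρ]; gcongr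
    have e : n = (n - 6) + 6 := by omega
    calc ‖φ u ^ n‖ = |φ u| ^ n := by rw [Real.norm_eq_abs, abs_pow]
      _ ≤ ((1709 / 1000) / u) ^ n := pow_le_pow_left₀ (abs_nonneg _) h1 n
      _ = ((1709 / 1000) / u) ^ (n - 6) * ((1709 / 1000) / u) ^ 6 := by rw [← pow_add, ← e]
      _ ≤ ρ ^ (n - 6) * ((1709 / 1000) / u) ^ 6 := by gcongr
      _ = ρ ^ (n - 6) * (1709 / 1000) ^ 6 * u ^ (-6 : ℝ) := by
        rw [Real.rpow_neg hu0.le, div_pow]
        have : u ^ (6 : ℝ) = u ^ 6 := by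
          rw [show (6 : ℝ) = ((6 : ℕ) : ℝ) by norm_num, Real.rpow_natCast]
        rw [this]
        ring
  have hsplit : ∫ u in Ioi (0 : ℝ), φ u ^ n
      = (∫ u in Ioc (0 : ℝ) Real.pi, φ u ^ n) + ∫ u in Ioi Real.pi, φ u ^ n := by
    rw [← setIntegral_union (Ioc_disjoint_Ioi le_rfl) measurableSet_Ioi
      (hφc.integrableOn_Ioc) hφi, Ioc_union_Ioi_eq_Ioi hpi.le]
  have hb1 : ∫ u in Ioc (0 : ℝ) Real.pi, φ u ^ n ≤ √(Real.pi / (n * s2 / 2)) / 2 := by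
    calc ∫ u in Ioc (0 : ℝ) Real.pi, φ u ^ n
        ≤ ∫ u in Ioc (0 : ℝ) Real.pi, Real.exp (-(n * s2 / 2) * u ^ 2) :=
          setIntegral_mono_on hφc.integrableOn_Ioc hgi.integrableOn measurableSet_Ioc hpart1
      _ ≤ ∫ u in Ioi (0 : ℝ), Real.exp (-(n * s2 / 2) * u ^ 2) := by
          apply setIntegral_mono_set hgi.integrableOn
          · filter_upwards with u; exact (Real.exp_pos _).le
          · exact (Ioc_subset_Ioi_self).eventuallyLE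
      _ = √(Real.pi / (n * s2 / 2)) / 2 := integral_gaussian_Ioi _
  have hb2 : ∫ u in Ioi Real.pi, φ u ^ n ≤ ρ ^ (n - 6) * (1709 / 1000) ^ 6 * (Real.pi ^ (-5 : ℝ) / 5) := by
    calc ∫ u in Ioi Real.pi, φ u ^ n
        ≤ ∫ u in Ioi Real.pi, ρ ^ (n - 6) * (1709 / 1000) ^ 6 * u ^ (-6 : ℝ) :=
          setIntegral_mono_on hφi htail measurableSet_Ioi hpart2
      _ = ρ ^ (n - 6) * (1709 / 1000) ^ 6 * (Real.pi ^ (-5 : ℝ) / 5) := by
          rw [integral_const_mul, integral_Ioi_rpow_of_lt (by norm_num) Real.pi_pos]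
          norm_num
  have hsn : 0 < √(n : ℝ) := Real.sqrt_pos.mpr hn0
  have h1 : √n * (√(Real.pi / (n * s2 / 2)) / 2) = √(2 * Real.pi / s2) / 2 := by
    have : Real.pi / (n * s2 / 2) = (2 * Real.pi / s2) / n := by field_simp
    rw [this, Real.sqrt_div (by positivity)]
    field_simp
  have hpn := pow_n_bound n hn
  have h2 : √n * (ρ ^ (n - 6) * (1709 / 1000) ^ 6 * (Real.pi ^ (-5 : ℝ) / 5))
      ≤ √6 * ((1709 / 1000) ^ 6 * (Real.pi ^ (-5 : ℝ) / 5)) := by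
    have e : √n * (ρ ^ (n - 6) * (1709 / 1000) ^ 6 * (Real.pi ^ (-5 : ℝ) / 5))
        = (√n * ρ ^ (n - 6)) * ((1709 / 1000) ^ 6 * (Real.pi ^ (-5 : ℝ) / 5)) := by ring
    rw [e]
    apply mul_le_mul_of_nonneg_right hpn
    have : 0 < Real.pi ^ (-5 : ℝ) := Real.rpow_pos_of_pos hpi _
    positivity
  have h3 : √(2 * Real.pi / s2) ≤ 4.6459 := by
    rw [show (4.6459 : ℝ) = √(4.6459 ^ 2) by rw [Real.sqrt_sq (by norm_num)]]
    apply Real.sqrt_le_sqrt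
    rw [div_le_iff₀ hs2pos]
    have := Real.pi_lt_d4
    have := hs2.1
    norm_num at *
    linarith
  have h4 : √6 ≤ 2.45 := by
    rw [show (2.45 : ℝ) = √(2.45 ^ 2) by rw [Real.sqrt_sq (by norm_num)]]
    apply Real.sqrt_le_sqrt
    norm_num
  have h5 : Real.pi ^ (-5 : ℝ) ≤ 1 / 305.9 := by
    rw [Real.rpow_neg hpi.le]
    have e : Real.pi ^ (5 : ℝ) = Real.pi ^ 5 := by
      rw [show (5 : ℝ) = ((5 : ℕ) : ℝ) by norm_num, Real.rpow_natCast]
    rw [e, ← one_div]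
    apply one_div_le_one_div_of_le (by norm_num)
    have h6 : (3.1415 : ℝ) ≤ Real.pi := Real.pi_gt_d4.le
    calc (305.9 : ℝ) ≤ 3.1415 ^ 5 := by norm_num
      _ ≤ Real.pi ^ 5 := pow_le_pow_left₀ (by norm_num) h6 5
  have h7 : √6 * ((1709 / 1000) ^ 6 * (Real.pi ^ (-5 : ℝ) / 5)) ≤ 2.45 * ((1709 / 1000) ^ 6 * (1 / 305.9 / 5)) := by
    have : 0 < Real.pi ^ (-5 : ℝ) := Real.rpow_pos_of_pos hpi _
    gcongr
  rw [hsplit]
  have h8 : (2 : ℝ) * (√n * ((∫ u in Ioc (0 : ℝ) Real.pi, φ u ^ n) + ∫ u in Ioi Real.pi, φ u ^ n))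
      ≤ 2 * (√n * (√(Real.pi / (n * s2 / 2)) / 2 + ρ ^ (n - 6) * (1709 / 1000) ^ 6 * (Real.pi ^ (-5 : ℝ) / 5))) := by
    gcongr
  refine h8.trans ?_
  rw [mul_add, h1]
  have h9 : 2.45 * ((1709 / 1000) ^ 6 * (1 / 305.9 / 5)) ≤ (0.04 : ℝ) := by norm_num
  linarith

end Helper58.GC
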