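import Pool.Agent.Helper58.GC.Diag

/-!
# Final assembly (from the two analytic inequalities)
-/

namespace Helper58.GC

open MeasureTheory ProbabilityTheory Module Set Helper64.CubeGauss

open scoped RealInnerProductSpace

/-- `γ₁([-1,1])` -/
noncomputable def pp : ℝ := (√(2 * Real.pi))⁻¹ * P

lemma pp_pos : 0 < pp := by
  unfold pp
  have := P_pos
  have : 0 < √(2 * Real.pi) := Real.sqrt_pos.mpr (by positivity)
  positivity

lemma gauss_one : (gaussianReal 0 1).real (Icc (-1) 1) = pp := gauss_Icc_one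

lemma pp_le_cusp : pp ≤ (gaussianReal 0 1).real (Icc (-√2) √2) := by
  rw [← gauss_one]
  apply measureReal_mono
  · apply Icc_subset_Icc
    · have := Real.one_le_sqrt.mpr (by norm_num : (1 : ℝ) ≤ 2)
      linarith
    · exact Real.one_le_sqrt.mpr (by norm_num)
  · exact measure_ne_top _ _

/-- either at least two nonzero coordinates, or a coordinate direction -/
lemma dichotomy {n : ℕ} {θ : EuclideanSpace ℝ (Fin n)} (hθ : ‖θ‖ = 1) :
    (∃ i j : Fin n, i ≠ j ∧ θ i ≠ 0 ∧ θ j ≠ 0) ∨ (∃ k : Fin n, ∀ i, i ≠ k → θ i = 0) := by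
  have hne : ∃ k, θ k ≠ 0 := by
    by_contra h
    push Not at h
    have : θ = 0 := by ext i; simpa using h i
    rw [this, norm_zero] at hθ
    exact zero_ne_one hθ
  obtain ⟨k, hk⟩ := hne
  by_cases h : ∃ i, i ≠ k ∧ θ i ≠ 0
  · obtain ⟨i, hik, hi⟩ := h
    exact Or.inl ⟨i, k, hik, hi, hk⟩
  · right
    refine ⟨k, ?_⟩
    push Not at h
    exact h

lemma sum_sq_eq {n : ℕ} {θ : EuclideanSpace ℝ (Fin n)} (hθ : ‖θ‖ = 1) : ∑ i, θ i ^ 2 = 1 := by
  rw [← EuclideanSpace.real_norm_sq_eq, hθ]; norm_num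

/-- General upper bound. -/
theorem upper_bound {n : ℕ} {B : ℝ}
    (hT : ∀ (th : Fin n → ℝ), ∑ i, th i ^ 2 = 1 → ∀ i0 i1, i0 ≠ i1 → th i1 = th i0 →
      (∀ i, 0 ≤ th i ∧ th i ≤ th i0) → ∫ t, ∏ i, φ (th i * t) ≤ B)
    {V : ℝ} (hV : pp ^ n * (√(2 * Real.pi))⁻¹ * B ≤ V) (hV2 : pp ^ (n - 1) ≤ V)
    {θ : EuclideanSpace ℝ (Fin n)} (hθ : ‖θ‖ = 1) : secMeas 1 θ ≤ V := by
  rcases dichotomy hθ with ⟨i, j, hij, hi, hj⟩ | ⟨k, hk⟩
  · rw [secMeas_eq hθ hij hi hj]
    refine le_trans ?_ hV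
    apply mul_le_mul_of_nonneg_left (bound_of_top_eq hT θ (sum_sq_eq hθ) hij hi hj)
    have := pp_pos
    have : 0 < √(2 * Real.pi) := Real.sqrt_pos.mpr (by positivity)
    positivity
  · rw [secMeas_axis hθ hk]
    exact hV2

/-- the cusp direction -/
noncomputable def cusp (n : ℕ) (i j : Fin n) : EuclideanSpace ℝ (Fin n) :=
  WithLp.toLp 2 (fun k => if k = i ∨ k = j then 1 / √2 else 0)

/-- the main diagonal -/
noncomputable def diagDir (n : ℕ) : EuclideanSpace ℝ (Fin n) :=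
  WithLp.toLp 2 (fun _ => 1 / √n)

lemma secMeas_cuspDir {n : ℕ} {i j : Fin n} (hij : i ≠ j) :
    secMeas 1 (cusp n i j) = (gaussianReal 0 1).real (Icc (-√2) √2) * pp ^ (n - 2) := by
  apply secMeas_cusp hij
  · simp [cusp]
  · simp [cusp]
  · intro k h1 h2
    simp [cusp, h1, h2]

lemma norm_cusp {n : ℕ} {i j : Fin n} (hij : i ≠ j) : ‖cusp n i j‖ = 1 := by
  rw [← sq_eq_sq₀ (norm_nonneg _) zero_le_one, EuclideanSpace.real_norm_sq_eq]
  have hsub : ({i, j} : Finset (Fin n)) ⊆ Finset.univ := Finset.subset_univ _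
  rw [← Finset.sum_subset hsub, Finset.sum_pair hij]
  · simp only [cusp, true_or, or_true, if_true]
    rw [div_pow, Real.sq_sqrt (by norm_num)]
    norm_num
  · intro k _ hk
    rw [Finset.mem_insert, Finset.mem_singleton, not_or] at hk
    simp [cusp, hk.1, hk.2]

lemma norm_diag {n : ℕ} (hn : 0 < n) : ‖diagDir n‖ = 1 := by
  rw [← sq_eq_sq₀ (norm_nonneg _) zero_le_one, EuclideanSpace.real_norm_sq_eq]
  have hn' : (0 : ℝ) < n := by exact_mod_cast hn
  simp only [diagDir, Finset.sum_const, Finset.card_univ, Fintype.card_fin]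
  rw [div_pow, Real.sq_sqrt hn'.le]
  simp
  field_simp

lemma secMeas_diag {n : ℕ} (hn : 2 ≤ n) :
    secMeas 1 (diagDir n) = pp ^ n * (√(2 * Real.pi))⁻¹ * ∫ t, φ (t / √n) ^ n := by
  have hn' : (0 : ℝ) < n := by exact_mod_cast (by omega : 0 < n)
  have hne : (1 : ℝ) / √n ≠ 0 := by
    have := Real.sqrt_pos.mpr hn'
    positivity
  rw [secMeas_eq (norm_diag (by omega)) (i := ⟨0, by omega⟩) (j := ⟨1, by omega⟩) (by simp)
    (by simpa [diagDir] using hne) (by simpa [diagDir] using hne)]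
  congr 2
  ext t
  simp only [diagDir, Finset.prod_const, Finset.card_univ, Fintype.card_fin]
  congr 2
  ring

/-- The value for `3 ≤ n ≤ 5`. -/
theorem greatest_small {n : ℕ} (hn2 : 2 ≤ n)
    (hT : ∀ (th : Fin n → ℝ), ∑ i, th i ^ 2 = 1 → ∀ i0 i1, i0 ≠ i1 → th i1 = th i0 →
      (∀ i, 0 ≤ th i ∧ th i ≤ th i0) → ∫ t, ∏ i, φ (th i * t) ≤ ∫ t, φ (t / √2) ^ 2) :
    IsGreatest {v | ∃ θ : EuclideanSpace ℝ (Fin n), ‖θ‖ = 1 ∧ v = secMeas 1 θ}
      ((gaussianReal 0 1).real (Icc (-√2) √2) * pp ^ (n - 2)) := by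
  constructor
  · refine ⟨cusp n ⟨0, by omega⟩ ⟨1, by omega⟩, norm_cusp (by simp), ?_⟩
    rw [secMeas_cuspDir (by simp)]
  · rintro v ⟨θ, hθ, rfl⟩
    apply upper_bound hT _ _ hθ
    · rw [← integral_cusp]
      have e4 : pp ^ n = pp ^ (n - 2) * pp ^ 2 := by
        rw [← pow_add]
        congr 1
        omega
      rw [e4]
      unfold pp
      apply le_of_eq
      ring
    · have e4 : pp ^ (n - 1) = pp * pp ^ (n - 2) := by
        rw [← pow_succ']
        congr 1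
        omega
      rw [e4]
      exact mul_le_mul_of_nonneg_right pp_le_cusp (pow_nonneg pp_pos.le _)

/-- The value for `n ≥ 6`. -/
theorem greatest_large {n : ℕ} (hn : 6 ≤ n)
    (hT : ∀ (th : Fin n → ℝ), ∑ i, th i ^ 2 = 1 → ∀ i0 i1, i0 ≠ i1 → th i1 = th i0 →
      (∀ i, 0 ≤ th i ∧ th i ≤ th i0) → ∫ t, ∏ i, φ (th i * t) ≤ ∫ t, φ (t / √n) ^ n) :
    IsGreatest {v | ∃ θ : EuclideanSpace ℝ (Fin n), ‖θ‖ = 1 ∧ v = secMeas 1 θ}
      (secMeas 1 (diagDir n)) := by
  have hpp := pp_pos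
  have hs : 0 < √(2 * Real.pi) := Real.sqrt_pos.mpr (by positivity)
  constructor
  · exact ⟨diagDir n, norm_diag (by omega), rfl⟩
  · rintro v ⟨θ, hθ, rfl⟩
    apply upper_bound hT _ _ hθ
    · rw [secMeas_diag (by omega)]
    · -- compare with the cusp
      have h1 : secMeas 1 (cusp n ⟨0, by omega⟩ ⟨1, by omega⟩) ≤ secMeas 1 (diagDir n) := by
        rw [secMeas_eq (norm_cusp (by simp)) (i := ⟨0, by omega⟩) (j := ⟨1, by omega⟩) (by simp)
          (by simp [cusp]) (by simp [cusp]), secMeas_diag (by omega)]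
        apply mul_le_mul_of_nonneg_left _ (by have := P_pos; positivity)
        apply hT _ (sum_sq_eq (norm_cusp (by simp))) ⟨0, by omega⟩ ⟨1, by omega⟩ (by simp)
        · simp [cusp]
        · intro i
          simp only [cusp, true_or, if_true]
          have : (0 : ℝ) < 1 / √2 := by positivity
          split_ifs <;> constructor <;> linarith
      refine le_trans ?_ h1
      rw [secMeas_cuspDir (by simp)]
      have e4 : pp ^ (n - 1) = pp * pp ^ (n - 2) := by
        rw [← pow_succ']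
        congr 1
        omega
      rw [e4]
      exact mul_le_mul_of_nonneg_right pp_le_cusp (pow_nonneg pp_pos.le _)

lemma bl_eq {n : ℕ} (hn : 2 ≤ n) :
    (stdGaussian (EuclideanSpace ℝ (Fin (n - 1)))).real {x | ∀ i, |x i| ≤ √((n : ℝ) / (n - 1))}
      = ((√(2 * Real.pi))⁻¹ * Gam (1 + 1 / ((n : ℝ) - 1))) ^ (n - 1) := by
  rw [stdGaussian_cube, gauss_Icc _ (Real.sqrt_nonneg _)]
  have hn' : (2 : ℝ) ≤ n := by exact_mod_cast hn
  have e : (n : ℝ) / (n - 1) = 1 + 1 / ((n : ℝ) - 1) := by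
    have : (n : ℝ) - 1 ≠ 0 := by
      intro h; linarith
    field_simp
    ring
  rw [e]
  rfl

/-- Strict inequality with the Brascamp-Lieb bound, `3 ≤ n ≤ 5`. -/
lemma small_lt_bl {n : ℕ} (hn : 3 ≤ n) (hn5 : n ≤ 5) :
    (gaussianReal 0 1).real (Icc (-√2) √2) * pp ^ (n - 2)
      < ((√(2 * Real.pi))⁻¹ * Gam (1 + 1 / ((n : ℝ) - 1))) ^ (n - 1) := by
  have hs : 0 < √(2 * Real.pi) := Real.sqrt_pos.mpr (by positivity)
  have hP := P_pos
  have h2 : (gaussianReal 0 1).real (Icc (-√2) √2) = (√(2 * Real.pi))⁻¹ * Gam 2 :=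
    gauss_Icc _ (Real.sqrt_nonneg _)
  rw [h2]
  have hlt := Gam_lt
  rw [Gam_one] at hlt
  set x : ℝ := (Gam 2 - P) / P with hx
  have hxpos : 0 < x := div_pos (by linarith) hP
  have e2 : Gam 2 = P * (1 + x) := by rw [hx]; field_simp; ring
  set m : ℕ := n - 1 with hm
  have hm2 : 2 ≤ m := by omega
  have hm4 : m ≤ 4 := by omega
  have hnm : (n : ℝ) - 1 = m := by rw [hm, Nat.cast_sub (by omega)]; norm_num
  have hmpos : (0 : ℝ) < m := by exact_mod_cast (by omega : 0 < m)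
  have hchord := Gam_chord (h := 1 / (m : ℝ)) (by positivity) (by
    rw [div_le_one hmpos]; exact_mod_cast (by omega : 1 ≤ m))
  rw [Gam_one] at hchord
  have hG : P * (1 + x / m) ≤ Gam (1 + 1 / (m : ℝ)) := by
    refine le_trans (le_of_eq ?_) hchord
    rw [e2]; field_simp; ring
  have hbern : 1 + x < (1 + x / m) ^ m := by
    have h0 : 0 < x / m := by positivity
    have e : x = m * (x / m) := by field_simp
    set y := x / m
    rw [e]
    interval_cases m
    · push_cast; nlinarith [sq_nonneg y]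
    · push_cast; nlinarith [sq_nonneg y, pow_pos h0 3, pow_pos h0 2]
    · push_cast; nlinarith [sq_nonneg y, pow_pos h0 3, pow_pos h0 2, pow_pos h0 4]
  have hn2 : n - 2 + 1 = m := by omega
  rw [hnm]
  calc (√(2 * Real.pi))⁻¹ * Gam 2 * pp ^ (n - 2) = pp ^ (n - 2 + 1) * (1 + x) := by
        rw [e2, pow_succ]; unfold pp; ring
    _ = pp ^ m * (1 + x) := by rw [hn2]
    _ < pp ^ m * (1 + x / m) ^ m := mul_lt_mul_of_pos_left hbern (pow_pos pp_pos m)
    _ = ((√(2 * Real.pi))⁻¹ * (P * (1 + x / m))) ^ m := by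
        rw [← mul_pow]; unfold pp; congr 1; ring
    _ ≤ ((√(2 * Real.pi))⁻¹ * Gam (1 + 1 / (m : ℝ))) ^ m := by
        gcongr

/-- Strict inequality with the Brascamp-Lieb bound, `n ≥ 6`. -/
lemma large_lt_bl {n : ℕ} (hn : 6 ≤ n) :
    secMeas 1 (diagDir n) < ((√(2 * Real.pi))⁻¹ * Gam (1 + 1 / ((n : ℝ) - 1))) ^ (n - 1) := by
  have hs : 0 < √(2 * Real.pi) := Real.sqrt_pos.mpr (by positivity)
  have hP := P_pos
  rw [secMeas_diag (by omega)]
  have hd := diag_le hn
  set m : ℕ := n - 1 with hm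
  have hm5 : 5 ≤ m := by omega
  have hnm : (n : ℝ) - 1 = m := by rw [hm, Nat.cast_sub (by omega)]; norm_num
  have hm5' : (5 : ℝ) ≤ m := by exact_mod_cast hm5
  have hmpos : (0 : ℝ) < m := by linarith
  have hsl := Gam_slope (h := 1 / (m : ℝ)) (by positivity) (by
    rw [div_le_div_iff₀ hmpos (by norm_num)]; linarith)
  rw [Gam_one] at hsl
  have hG : P * (1 + (1 / (2 * P)) / m) ≤ Gam (1 + 1 / (m : ℝ)) := by
    refine le_trans (le_of_eq ?_) hsl
    field_simp
  have hbern : 1 + 1 / (2 * P) ≤ (1 + (1 / (2 * P)) / m) ^ m := by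
    have h0 : 0 < (1 / (2 * P)) / m := by positivity
    have := one_add_mul_le_pow (a := (1 / (2 * P)) / m) (by linarith) m
    refine le_trans (le_of_eq ?_) this
    field_simp
  have hnum : pp * (√(2 * Real.pi))⁻¹ * 4.74 < 1 + 1 / (2 * P) := by
    have e : pp * (√(2 * Real.pi))⁻¹ = P / (2 * Real.pi) := by
      unfold pp
      have h2π : √(2 * Real.pi) * √(2 * Real.pi) = 2 * Real.pi := Real.mul_self_sqrt (by positivity)
      rw [← h2π]
      have hss : √(√(2 * Real.pi) * √(2 * Real.pi)) = √(2 * Real.pi) := by rw [h2π]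
      rw [hss]
      field_simp
    rw [e]
    have hpb := P_bounds
    have hpi := Real.pi_gt_d4
    have h1 : P / (2 * Real.pi) * 4.74 ≤ 1.7113 / (2 * 3.1415) * 4.74 := by
      have : P ≤ 1.7113 := by have := hpb.2; norm_num at this ⊢; linarith
      gcongr
    have h2 : 1 + 1 / (2 * 1.7113) ≤ 1 + 1 / (2 * P) := by
      have : P ≤ 1.7113 := by have := hpb.2; norm_num at this ⊢; linarith
      gcongr
    have h3 : (1.7113 / (2 * 3.1415) * 4.74 : ℝ) < 1 + 1 / (2 * 1.7113) := by norm_num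
    linarith
  have hnn : m + 1 = n := by omega
  rw [hnm]
  have hppm : 0 < pp ^ m := pow_pos pp_pos m
  calc pp ^ n * (√(2 * Real.pi))⁻¹ * ∫ t, φ (t / √n) ^ n
      ≤ pp ^ n * (√(2 * Real.pi))⁻¹ * 4.74 := by
        apply mul_le_mul_of_nonneg_left hd
        have := pp_pos
        positivity
    _ = pp ^ m * (pp * (√(2 * Real.pi))⁻¹ * 4.74) := by rw [← hnn, pow_succ]; ring
    _ < pp ^ m * (1 + 1 / (2 * P)) := mul_lt_mul_of_pos_left hnum hppm
    _ ≤ pp ^ m * (1 + (1 / (2 * P)) / m) ^ m := mul_le_mul_of_nonneg_left hbern hppm.le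
    _ = ((√(2 * Real.pi))⁻¹ * (P * (1 + (1 / (2 * P)) / m))) ^ m := by
        rw [← mul_pow]; unfold pp; congr 1; ring
    _ ≤ ((√(2 * Real.pi))⁻¹ * Gam (1 + 1 / (m : ℝ))) ^ m := by
        gcongr

/-- integral formula for the diagonal value -/
lemma diag_formula {n : ℕ} (hn : 2 ≤ n) : secMeas 1 (diagDir n)
    = (√(2 * Real.pi))⁻¹ * ∫ t, (∫ x in Icc (-1 : ℝ) 1, Real.cos (t * x / √n) ∂(gaussianReal 0 1)) ^ n := by
  rw [secMeas_diag hn]
  have h1 : ∀ t, ∫ x in Icc (-1 : ℝ) 1, Real.cos (t * x / √n) ∂(gaussianReal 0 1)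
      = pp * φ (t / √n) := by
    intro t
    rw [← integral_indicator measurableSet_Icc, integral_gaussianReal_eq_integral_smul one_ne_zero]
    have e : ∀ x, gaussianPDFReal 0 1 x • (Icc (-1 : ℝ) 1).indicator (fun x => Real.cos (t * x / √n)) x
        = (√(2 * Real.pi))⁻¹ * (q x * Real.cos (t / √n * x)) := by
      intro x
      rw [pdf_eq, smul_eq_mul]
      unfold q
      by_cases hx : x ∈ Icc (-1 : ℝ) 1
      · rw [indicator_of_mem hx, indicator_of_mem hx, mul_div_right_comm]; ring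
      · rw [indicator_of_notMem hx, indicator_of_notMem hx]; ring
    simp_rw [e]
    rw [integral_const_mul, integral_q_cos]
    unfold pp
    ring
  simp_rw [h1, mul_pow]
  rw [integral_const_mul]
  ring

end Helper58.GC
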