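import Pool.Agent.Helper58.GC.Sec

/-!
# The Fourier formula (continuity of the profile, inversion)
-/

namespace Helper58.GC

open MeasureTheory ProbabilityTheory Module Set Helper64.CubeGauss

open scoped RealInnerProductSpace

variable {n : ℕ}

lemma glue_neg (θ : EuclideanSpace ℝ (Fin n)) (s : ℝ) (y : (Submodule.span ℝ {θ})ᗮ) :
    glue θ (-s, -y) = -glue θ (s, y) := by
  unfold glue
  simp
  abel

lemma G_even (θ : EuclideanSpace ℝ (Fin n)) (s : ℝ) : G θ (-s) = G θ s := by
  have hmap : (stdGaussian (Submodule.span ℝ {θ})ᗮ).map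
      (LinearIsometryEquiv.neg ℝ (E := (Submodule.span ℝ {θ})ᗮ))
      = stdGaussian (Submodule.span ℝ {θ})ᗮ := stdGaussian_map _
  have hm : MeasurableSet {y : (Submodule.span ℝ {θ})ᗮ | ∀ i, |(glue θ (-s, y)) i| ≤ 1} := by
    have : Continuous fun y : (Submodule.span ℝ {θ})ᗮ => glue θ (-s, y) :=
      (continuous_glue θ).comp (by fun_prop)
    exact measurableSet_cube.preimage this.measurable
  unfold G
  conv_lhs => rw [← hmap]
  rw [map_measureReal_apply (by fun_prop) hm]
  congr 1
  ext y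
  rw [mem_preimage, mem_ofPred_eq, mem_ofPred_eq]
  rw [LinearIsometryEquiv.coe_neg]
  rw [glue_neg]
  simp

/-- projection of the `i`-th basis vector -/
lemma proj_ne_zero {θ : EuclideanSpace ℝ (Fin n)} (hθ : ‖θ‖ = 1) {i : Fin n} (hi : θ i ^ 2 < 1) :
    (Submodule.span ℝ {θ})ᗮ.orthogonalProjectionOnto (EuclideanSpace.single i (1 : ℝ)) ≠ 0 := by
  intro h
  have h3 := Submodule.norm_sq_eq_add_norm_sq_starProjection (EuclideanSpace.single i (1 : ℝ))
    (Submodule.span ℝ {θ})
  rw [Submodule.starProjection_unit_singleton ℝ hθ, norm_smul, hθ, mul_one] at h3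
  have h4 : (Submodule.span ℝ {θ})ᗮ.starProjection (EuclideanSpace.single i (1 : ℝ)) = 0 := by
    rw [Submodule.starProjection_apply, h]
    rfl
  rw [h4] at h3
  have h5 : ⟪θ, EuclideanSpace.single i (1 : ℝ)⟫ = θ i := by
    rw [EuclideanSpace.inner_single_right]
    simp
  simp at h3
  rw [h5] at h3
  linarith

lemma ae_coord_ne {θ : EuclideanSpace ℝ (Fin n)} (hθ : ‖θ‖ = 1) {i : Fin n} (hi : θ i ^ 2 < 1)
    (a : ℝ) : ∀ᵐ y : (Submodule.span ℝ {θ})ᗮ ∂(stdGaussian (Submodule.span ℝ {θ})ᗮ),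
      (y : EuclideanSpace ℝ (Fin n)) i ≠ a := by
  rw [ae_iff]
  have h := stdGaussian_hyperplane _ (proj_ne_zero hθ hi) a
  have e : {y : (Submodule.span ℝ {θ})ᗮ | ¬ (y : EuclideanSpace ℝ (Fin n)) i ≠ a}
      = {y | ⟪(Submodule.span ℝ {θ})ᗮ.orthogonalProjectionOnto (EuclideanSpace.single i (1 : ℝ)), y⟫
        = a} := by
    ext y
    rw [mem_ofPred_eq, mem_ofPred_eq, not_not,
      Submodule.inner_orthogonalProjectionOnto_eq_of_mem_right, EuclideanSpace.inner_single_left]
    simp
  rw [e]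
  exact h

lemma G_continuousAt {θ : EuclideanSpace ℝ (Fin n)} (hθ : ‖θ‖ = 1) (hi : ∀ i, θ i ^ 2 < 1) :
    ContinuousAt (G θ) 0 := by
  have e : G θ = fun s : ℝ => ∫ y, (cube n).indicator (fun _ => (1 : ℝ)) (glue θ (s, y))
      ∂(stdGaussian (Submodule.span ℝ {θ})ᗮ) := by
    ext s
    exact G_eq_integral θ s
  rw [e]
  apply continuousAt_of_dominated (bound := fun _ => (1 : ℝ))
  · filter_upwards with s
    have : Continuous fun y : (Submodule.span ℝ {θ})ᗮ => glue θ (s, y) :=
      (continuous_glue θ).comp (by fun_prop)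
    exact ((measurable_const.indicator measurableSet_cube).comp this.measurable).aestronglyMeasurable
  · filter_upwards with s
    filter_upwards with y
    rw [Real.norm_eq_abs]
    by_cases h : glue θ (s, y) ∈ cube n
    · rw [indicator_of_mem h]; simp
    · rw [indicator_of_notMem h]; simp
  · exact integrable_const _
  · have h1 : ∀ᵐ y : (Submodule.span ℝ {θ})ᗮ ∂(stdGaussian (Submodule.span ℝ {θ})ᗮ),
        ∀ i, (y : EuclideanSpace ℝ (Fin n)) i ≠ 1 ∧ (y : EuclideanSpace ℝ (Fin n)) i ≠ -1 := by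
      rw [ae_all_iff]
      intro i
      filter_upwards [ae_coord_ne hθ (hi i) 1, ae_coord_ne hθ (hi i) (-1)] with y h1 h2
      exact ⟨h1, h2⟩
    filter_upwards [h1] with y hy
    have hcont : Continuous fun s : ℝ => glue θ (s, y) := (continuous_glue θ).comp (by fun_prop)
    have h0 : glue θ (0, y) = (y : EuclideanSpace ℝ (Fin n)) := by
      unfold glue; simp
    by_cases hin : ∀ i, |(y : EuclideanSpace ℝ (Fin n)) i| < 1
    · have hU : IsOpen {x : EuclideanSpace ℝ (Fin n) | ∀ i, |x i| < 1} := by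
        rw [ofPred_forall]
        apply isOpen_iInter_of_finite
        intro i
        exact isOpen_lt (by fun_prop) continuous_const
      have hmem : ∀ᶠ s in nhds (0 : ℝ), glue θ (s, y) ∈ {x : EuclideanSpace ℝ (Fin n) | ∀ i, |x i| < 1} := by
        apply hcont.continuousAt.eventually_mem
        rw [h0]
        exact hU.mem_nhds hin
      have : ∀ᶠ s in nhds (0 : ℝ), (1 : ℝ) = (cube n).indicator (fun _ => (1 : ℝ)) (glue θ (s, y)) := by
        filter_upwards [hmem] with s hs
        rw [indicator_of_mem]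
        exact fun i => (hs i).le
      exact (continuousAt_const (y := (1 : ℝ))).congr this
    · rw [not_forall] at hin
      obtain ⟨i, hi'⟩ := hin
      have hgt : 1 < |(y : EuclideanSpace ℝ (Fin n)) i| := by
        rcases lt_or_eq_of_le (not_lt.mp hi') with h | h
        · exact h
        · exfalso
          rcases eq_or_eq_neg_of_abs_eq h.symm with h' | h'
          · exact (hy i).1 h'
          · exact (hy i).2 h'
      have hU : IsOpen {x : EuclideanSpace ℝ (Fin n) | 1 < |x i|} :=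
        isOpen_lt continuous_const (by fun_prop)
      have hmem : ∀ᶠ s in nhds (0 : ℝ), glue θ (s, y) ∈ {x : EuclideanSpace ℝ (Fin n) | 1 < |x i|} := by
        apply hcont.continuousAt.eventually_mem
        rw [h0]
        exact hU.mem_nhds hgt
      have : ∀ᶠ s in nhds (0 : ℝ), (0 : ℝ) = (cube n).indicator (fun _ => (1 : ℝ)) (glue θ (s, y)) := by
        filter_upwards [hmem] with s hs
        rw [indicator_of_notMem]
        exact fun h => absurd (h i) (not_le.mpr hs)
      exact (continuousAt_const (y := (0 : ℝ))).congr this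

lemma sq_lt_one_of_pair {θ : EuclideanSpace ℝ (Fin n)} (hθ : ‖θ‖ = 1) {i j : Fin n} (hij : i ≠ j)
    (hi : θ i ≠ 0) (hj : θ j ≠ 0) (k : Fin n) : θ k ^ 2 < 1 := by
  have h1 : ∑ l, θ l ^ 2 = 1 := by
    rw [← EuclideanSpace.real_norm_sq_eq, hθ]; norm_num
  obtain ⟨m, hm, hmk⟩ : ∃ m, θ m ≠ 0 ∧ m ≠ k := by
    by_cases h : i = k
    · exact ⟨j, hj, fun h' => hij (h.trans h'.symm)⟩
    · exact ⟨i, hi, h⟩
  have h2 : θ k ^ 2 + θ m ^ 2 ≤ ∑ l, θ l ^ 2 := by
    rw [← Finset.sum_pair (f := fun l => θ l ^ 2) (Ne.symm hmk)]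
    exact Finset.sum_le_sum_of_subset_of_nonneg (Finset.subset_univ _) (fun _ _ _ => sq_nonneg _)
  have h3 : 0 < θ m ^ 2 := by positivity
  linarith

/-- **Fourier formula** for the Gaussian measure of a central section. -/
theorem secMeas_eq {θ : EuclideanSpace ℝ (Fin n)} (hθ : ‖θ‖ = 1) {i j : Fin n} (hij : i ≠ j)
    (hi : θ i ≠ 0) (hj : θ j ≠ 0) :
    secMeas 1 θ = ((√(2 * Real.pi))⁻¹ * P) ^ n * (√(2 * Real.pi))⁻¹ * ∫ t, ∏ k, φ (θ k * t) := by
  have hψi : Integrable (fun t => ∏ k, (√(2 * Real.pi))⁻¹ * (P * φ (θ k * t))) := by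
    have := (integrable_prod_φ (s := Finset.univ) (fun k => θ k) (Finset.mem_univ i)
      (Finset.mem_univ j) hij hi hj).const_mul (((√(2 * Real.pi))⁻¹ * P) ^ n)
    refine this.congr ?_
    filter_upwards with t
    simp_rw [← mul_assoc]
    rw [Finset.prod_mul_distrib, Finset.prod_const, Finset.card_univ, Fintype.card_fin]
  have hGi : Integrable (fun s => (√(2 * Real.pi))⁻¹ * g s * G θ s) := by
    have hg : Integrable (fun s => (√(2 * Real.pi))⁻¹ * g s) := by
      apply Integrable.const_mul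
      have := integrable_exp_neg_mul_sq (b := 1 / 2) (by norm_num)
      refine this.congr ?_
      filter_upwards with x
      unfold g
      congr 1
      ring
    apply hg.mul_bdd (c := 1)
    · exact (measurable_G θ).aestronglyMeasurable
    · filter_upwards with s
      rw [Real.norm_eq_abs, abs_of_nonneg (G_nonneg θ s)]
      exact G_le_one θ s
  have hcont : ContinuousAt (fun s => (√(2 * Real.pi))⁻¹ * g s * G θ s) 0 := by
    apply ContinuousAt.mul
    · exact (continuous_const.mul g_cont).continuousAt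
    · exact G_continuousAt hθ (sq_lt_one_of_pair hθ hij hi hj)
  have key := inv_even (p := fun s => (√(2 * Real.pi))⁻¹ * g s * G θ s)
    (ψ := fun t => ∏ k, (√(2 * Real.pi))⁻¹ * (P * φ (θ k * t))) hGi
    (by
      intro x
      rw [G_even]
      unfold g
      rw [neg_sq])
    (fun t => (profile_charFun hθ t).symm) hψi (u := 0) hcont
  simp only [zero_mul, Real.cos_zero, mul_one] at key
  rw [G_zero] at key
  have hg0 : g 0 = 1 := by unfold g; simp
  rw [hg0, mul_one] at key
  have e : ∫ t, ∏ k, (√(2 * Real.pi))⁻¹ * (P * φ (θ k * t))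
      = ((√(2 * Real.pi))⁻¹ * P) ^ n * ∫ t, ∏ k, φ (θ k * t) := by
    rw [← integral_const_mul]
    congr 1
    ext t
    simp_rw [← mul_assoc]
    rw [Finset.prod_mul_distrib, Finset.prod_const, Finset.card_univ, Fintype.card_fin]
  rw [e] at key
  have h2π : √(2 * Real.pi) * √(2 * Real.pi) = 2 * Real.pi := Real.mul_self_sqrt (by positivity)
  have hpos : 0 < √(2 * Real.pi) := Real.sqrt_pos.mpr (by positivity)
  have key2 : secMeas 1 θ = √(2 * Real.pi) * ((2 * Real.pi)⁻¹
      * (((√(2 * Real.pi))⁻¹ * P) ^ n * ∫ t, ∏ k, φ (θ k * t))) := by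
    rw [← key]
    field_simp
  have e2 : √(2 * Real.pi) * (2 * Real.pi)⁻¹ = (√(2 * Real.pi))⁻¹ := by
    rw [← div_eq_mul_inv, div_eq_iff (by positivity)]
    field_simp
    linarith
  rw [key2, ← mul_assoc, e2]
  ring

end Helper58.GC
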