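import Pool.Agent.Helper58.GC.Osc
import Pool.Agent.Helper64.CubeGauss.Quartic

/-!
# The gain on the main part
-/

namespace Helper58.GC

open Set MeasureTheory Helper64.CubeGauss

lemma z1_pos : 0 < z1 := by have := z1_gt; linarith

lemma Gq_zero : Gq 0 = 0 := by
  unfold Gq
  rw [Real.sqrt_zero, φ_zero, Real.log_one]
  ring

lemma Gq_sq {u : ℝ} (hu : 0 ≤ u) : Gq (u ^ 2) = Real.log (φ u) + c4 * u ^ 4 := by
  unfold Gq
  rw [Real.sqrt_sq hu]
  ring

lemma sq_mem {u : ℝ} (hu : 0 ≤ u) (hz : u < z1) : u ^ 2 ∈ Ico 0 (z1 ^ 2) :=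
  ⟨sq_nonneg u, pow_lt_pow_left₀ hz hu (by norm_num)⟩

/-- star-shapedness -/
lemma star {ρ u : ℝ} (hρ0 : 0 ≤ ρ) (hρ1 : ρ ≤ 1) (hu : 0 ≤ u) (hz : u < z1) :
    φ u ^ ρ ≤ φ (√ρ * u) := by
  have hsu : √ρ * u ≤ u := by
    have : √ρ ≤ 1 := Real.sqrt_le_one.mpr hρ1
    exact mul_le_of_le_one_left hu this
  have hsu0 : 0 ≤ √ρ * u := mul_nonneg (Real.sqrt_nonneg _) hu
  have hp1 := φ_pos hu hz
  have hp2 := φ_pos hsu0 (lt_of_le_of_lt hsu hz)
  have h := Gq_concave.2 (show (0 : ℝ) ∈ Ico 0 (z1 ^ 2) from ⟨le_rfl, by have := z1_pos; positivity⟩)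
    (sq_mem hu hz) (sub_nonneg.mpr hρ1) hρ0 (by ring)
  simp only [smul_eq_mul, mul_zero, zero_add, Gq_zero] at h
  have e : ρ * u ^ 2 = (√ρ * u) ^ 2 := by
    rw [mul_pow, Real.sq_sqrt hρ0]
  rw [e, Gq_sq hsu0, Gq_sq hu] at h
  have e2 : (√ρ * u) ^ 4 = ρ ^ 2 * u ^ 4 := by
    rw [mul_pow]
    congr 1
    calc √ρ ^ 4 = (√ρ ^ 2) ^ 2 := by ring
      _ = ρ ^ 2 := by rw [Real.sq_sqrt hρ0]
  rw [e2] at h
  have hc4 : 0 ≤ c4 := by have := c4_bounds.1; linarith
  have h3 : 0 ≤ c4 * (ρ * (1 - ρ) * u ^ 4) :=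
    mul_nonneg hc4 (mul_nonneg (mul_nonneg hρ0 (by linarith)) (by positivity))
  have h4 : ρ * Real.log (φ u) ≤ Real.log (φ (√ρ * u)) := by nlinarith
  rw [Real.rpow_def_of_pos hp1, mul_comm]
  rw [Real.le_log_iff_exp_le hp2] at h4
  exact h4

/-- midpoint gain -/
lemma midpoint_gain {x y t : ℝ} (hx : 0 ≤ x) (hy : 0 ≤ y) (ht : 0 ≤ t) (hxz : √x * t < z1)
    (hyz : √y * t < z1) :
    φ (√x * t) * φ (√y * t)
      ≤ φ (√((x + y) / 2) * t) ^ 2 * Real.exp (-(c4 / 2 * (x - y) ^ 2 * t ^ 4)) := by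
  have hm0 : 0 ≤ (x + y) / 2 := by linarith
  have hx0 : 0 ≤ √x * t := mul_nonneg (Real.sqrt_nonneg _) ht
  have hy0 : 0 ≤ √y * t := mul_nonneg (Real.sqrt_nonneg _) ht
  have hmt0 : 0 ≤ √((x + y) / 2) * t := mul_nonneg (Real.sqrt_nonneg _) ht
  have hmz : √((x + y) / 2) * t < z1 := by
    rcases le_total x y with h | h
    · refine lt_of_le_of_lt ?_ hyz
      exact mul_le_mul_of_nonneg_right (Real.sqrt_le_sqrt (by linarith)) ht
    · refine lt_of_le_of_lt ?_ hxz
      exact mul_le_mul_of_nonneg_right (Real.sqrt_le_sqrt (by linarith)) ht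
  have h := Gq_concave.2 (sq_mem hx0 hxz) (sq_mem hy0 hyz) (show (0 : ℝ) ≤ 1 / 2 by norm_num)
    (show (0 : ℝ) ≤ 1 / 2 by norm_num) (by norm_num)
  simp only [smul_eq_mul] at h
  have e : 1 / 2 * (√x * t) ^ 2 + 1 / 2 * (√y * t) ^ 2 = (√((x + y) / 2) * t) ^ 2 := by
    rw [mul_pow, mul_pow, mul_pow, Real.sq_sqrt hx, Real.sq_sqrt hy, Real.sq_sqrt hm0]
    ring
  rw [e, Gq_sq hx0, Gq_sq hy0, Gq_sq hmt0] at h
  have p4 : ∀ z : ℝ, 0 ≤ z → (√z * t) ^ 4 = z ^ 2 * t ^ 4 := by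
    intro z hz
    rw [mul_pow]
    congr 1
    calc √z ^ 4 = (√z ^ 2) ^ 2 := by ring
      _ = z ^ 2 := by rw [Real.sq_sqrt hz]
  rw [p4 x hx, p4 y hy, p4 _ hm0] at h
  have hpx := φ_pos hx0 hxz
  have hpy := φ_pos hy0 hyz
  have hpm := φ_pos hmt0 hmz
  have h2 : Real.log (φ (√x * t) * φ (√y * t))
      ≤ Real.log (φ (√((x + y) / 2) * t) ^ 2 * Real.exp (-(c4 / 2 * (x - y) ^ 2 * t ^ 4))) := by
    rw [Real.log_mul hpx.ne' hpy.ne', Real.log_mul (by positivity) (Real.exp_pos _).ne', Real.log_exp,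
      Real.log_pow]
    push_cast
    nlinarith
  exact (Real.log_le_log_iff (by positivity) (by positivity)).mp h2

/-- The difference of the pair products, everywhere. -/
lemma pair_diff {μ δ t : ℝ} (hδ : 0 ≤ δ) (hδμ : δ < μ) (ht : 0 ≤ t) :
    |φ (√(μ + δ) * t) * φ (√(μ - δ) * t) - φ (√μ * t) ^ 2| ≤ c ^ 2 * δ ^ 2 / (μ * (μ - δ)) := by
  have hc := c_pos
  have hμ : 0 < μ := by linarith
  have hμδ : 0 < μ - δ := by linarith
  rcases ht.eq_or_lt with h0 | htpos
  · rw [← h0]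
    simp only [mul_zero, φ_zero]
    norm_num
    positivity
  set C : ℝ := 2 * c ^ 2 / (μ * (μ - δ)) with hC
  have hCpos : 0 < C := by positivity
  set D : ℝ → ℝ := fun η => φ (√(μ + η) * t) * φ (√(μ - η) * t) - φ (√μ * t) ^ 2 with hD
  set D' : ℝ → ℝ := fun η => φ' (√(μ + η) * t) * (1 / (2 * √(μ + η)) * t) * φ (√(μ - η) * t)
    + φ (√(μ + η) * t) * (φ' (√(μ - η) * t) * (-1 / (2 * √(μ - η)) * t)) with hD'
  have hder : ∀ η, 0 ≤ η → η ≤ δ → HasDerivAt D (D' η) η := by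
    intro η hη0 hηδ
    have hA : 0 < μ + η := by linarith
    have hB : 0 < μ - η := by linarith
    have d1 : HasDerivAt (fun η => √(μ + η) * t) (1 / (2 * √(μ + η)) * t) η := by
      have : HasDerivAt (fun η => μ + η) 1 η := (hasDerivAt_id η).const_add μ
      exact (this.sqrt hA.ne').mul_const t
    have d2 : HasDerivAt (fun η => √(μ - η) * t) (-1 / (2 * √(μ - η)) * t) η := by
      have : HasDerivAt (fun η => μ - η) (-1) η := (hasDerivAt_id η).const_sub μ
      exact (this.sqrt hB.ne').mul_const t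
    have e1 := (hasDerivAt_φ_aux (√(μ + η) * t)).comp η d1
    have e2 := (hasDerivAt_φ_aux (√(μ - η) * t)).comp η d2
    exact (e1.mul e2).sub_const _
  have hbound : ∀ η, 0 ≤ η → η ≤ δ → |D' η| ≤ C * η := by
    intro η hη0 hηδ
    have hA : 0 < μ + η := by linarith
    have hB : 0 < μ - η := by linarith
    set A := √(μ + η) with hAd
    set B := √(μ - η) with hBd
    have hApos : 0 < A := Real.sqrt_pos.mpr hA
    have hBpos : 0 < B := Real.sqrt_pos.mpr hB
    have hA2 : A ^ 2 = μ + η := Real.sq_sqrt hA.le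
    have hB2 : B ^ 2 = μ - η := Real.sq_sqrt hB.le
    have hBA : B ≤ A := Real.sqrt_le_sqrt (by linarith)
    have e : D' η = -(c / (2 * (A * B))) * (Real.sin (A * t) * φ' (B * t) - Real.sin (B * t) * φ' (A * t)) := by
      simp only [hD', ← hAd, ← hBd]
      have f1 : φ (A * t) = (c * Real.sin (A * t) - φ' (A * t)) / (A * t) := by
        rw [φ'_eq]; field_simp; ring
      have f2 : φ (B * t) = (c * Real.sin (B * t) - φ' (B * t)) / (B * t) := by
        rw [φ'_eq]; field_simp; ring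
      rw [f1, f2]
      field_simp
      ring
    rw [e, abs_mul, abs_neg, abs_of_pos (by positivity)]
    have ho := osc_bound (u := A * t) (v := B * t) (by positivity)
      (mul_le_mul_of_nonneg_right hBA ht)
    calc c / (2 * (A * B)) * |Real.sin (A * t) * φ' (B * t) - Real.sin (B * t) * φ' (A * t)|
        ≤ c / (2 * (A * B)) * (4 * c / (B * t) * (A * t - B * t)) :=
          mul_le_mul_of_nonneg_left ho (by positivity)
      _ = 2 * c ^ 2 * (A - B) / (A * B ^ 2) := by field_simp; ring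
      _ ≤ C * η := by
          have hAB : A * B ≥ μ - η := by nlinarith
          have h1 : (A - B) * (A + B) = 2 * η := by
            have : (A - B) * (A + B) = A ^ 2 - B ^ 2 := by ring
            rw [this, hA2, hB2]; ring
          have h2 : 2 * μ ≤ A * (A + B) := by nlinarith
          have h3 : (A - B) = 2 * η / (A + B) := by
            rw [eq_div_iff (by positivity)]; exact h1
          rw [h3, hC]
          rw [div_le_iff₀ (by positivity)]
          have h4 : 2 * c ^ 2 * (2 * η / (A + B)) = (2 * c ^ 2 * (2 * η)) / (A + B) := by ring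
          rw [h4, div_le_iff₀ (by positivity)]
          have h5 : 2 * c ^ 2 / (μ * (μ - δ)) * η * (A * B ^ 2) * (A + B)
              = 2 * c ^ 2 * η / (μ * (μ - δ)) * ((A * (A + B)) * B ^ 2) := by ring
          rw [h5, hB2]
          have h6 : 2 * μ * (μ - δ) ≤ A * (A + B) * (μ - η) := by
            apply mul_le_mul h2 (by linarith) hμδ.le (by positivity)
          calc 2 * c ^ 2 * (2 * η) = 2 * c ^ 2 * η / (μ * (μ - δ)) * (2 * μ * (μ - δ)) := by
                field_simp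
            _ ≤ 2 * c ^ 2 * η / (μ * (μ - δ)) * (A * (A + B) * (μ - η)) :=
                mul_le_mul_of_nonneg_left h6 (by positivity)
  have hD0 : D 0 = 0 := by
    simp only [hD, add_zero, sub_zero]
    ring
  have key := image_norm_le_of_norm_deriv_right_le_deriv_boundary (f := D) (f' := D') (a := 0) (b := δ)
    (B := fun η => C * (η ^ 2 / 2)) (B' := fun η => C * η)
    (fun η hη => (hder η hη.1 hη.2).continuousAt.continuousWithinAt)
    (fun η hη => (hder η hη.1 hη.2.le).hasDerivWithinAt)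
    (by rw [hD0]; simp)
    (fun η => by
      have h := ((hasDerivAt_pow 2 η).div_const 2).const_mul C
      refine h.congr_deriv ?_
      norm_num)
    (fun η hη => by
      rw [Real.norm_eq_abs]
      exact hbound η hη.1 hη.2.le)
    (right_mem_Icc.mpr hδ)
  rw [Real.norm_eq_abs] at key
  simp only [hD] at key
  refine key.trans (le_of_eq ?_)
  rw [hC]
  field_simp

/-- `1 - e^{-κ y} ≥ κ (1 - e^{-y})` for `κ ∈ [0,1]`. -/
lemma one_sub_exp_mul {κ y : ℝ} (h0 : 0 ≤ κ) (h1 : κ ≤ 1) :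
    κ * (1 - Real.exp (-y)) ≤ 1 - Real.exp (-(κ * y)) := by
  have h := convexOn_exp.2 (mem_univ (-y)) (mem_univ (0 : ℝ)) h0 (sub_nonneg.mpr h1) (by ring)
  simp only [smul_eq_mul, mul_zero, add_zero, Real.exp_zero, mul_one] at h
  have e : κ * -y = -(κ * y) := by ring
  rw [e] at h
  linarith

end Helper58.GC
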