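import Mathlib

/-!
# Disintegration of the standard Gaussian measure along a unit vector
-/

namespace Helper58.GC

open MeasureTheory ProbabilityTheory Module

open scoped RealInnerProductSpace

variable {E : Type*} [NormedAddCommGroup E] [InnerProductSpace ℝ E] [FiniteDimensional ℝ E]
  [MeasurableSpace E] [BorelSpace E]

/-- `(s, y) ↦ s θ + y` -/
def glue (θ : E) (p : ℝ × (Submodule.span ℝ {θ})ᗮ) : E := p.1 • θ + (p.2 : E)

omit [FiniteDimensional ℝ E] [MeasurableSpace E] [BorelSpace E] in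
lemma continuous_glue (θ : E) : Continuous (glue θ) := by
  unfold glue; fun_prop

/-- The standard Gaussian measure is the image of the product of the standard Gaussian measures on
the line `ℝ θ` and on its orthogonal complement. -/
theorem map_glue {θ : E} (hθ : ‖θ‖ = 1) :
    ((gaussianReal 0 1).prod (stdGaussian (Submodule.span ℝ {θ})ᗮ)).map (glue θ)
      = stdGaussian E := by
  have : IsProbabilityMeasure (((gaussianReal 0 1).prod
      (stdGaussian (Submodule.span ℝ {θ})ᗮ)).map (glue θ)) :=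
    Measure.isProbabilityMeasure_map (continuous_glue θ).aemeasurable
  apply Measure.ext_of_charFun (E := E)
  ext t
  rw [charFun_stdGaussian, charFun_apply, integral_map (continuous_glue θ).aemeasurable
    (by fun_prop)]
  have h1 : ∀ p : ℝ × (Submodule.span ℝ {θ})ᗮ, Complex.exp (⟪glue θ p, t⟫ * Complex.I)
      = Complex.exp (p.1 * ⟪θ, t⟫ * Complex.I)
        * Complex.exp (⟪p.2, (Submodule.span ℝ {θ})ᗮ.orthogonalProjectionOnto t⟫ * Complex.I) := by
    intro p
    rw [← Complex.exp_add, Submodule.inner_orthogonalProjectionOnto_eq_of_mem_left]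
    congr 1
    unfold glue
    rw [inner_add_left, real_inner_smul_left]
    push_cast
    ring
  simp_rw [h1]
  rw [integral_prod_mul (μ := gaussianReal 0 1) (ν := stdGaussian (Submodule.span ℝ {θ})ᗮ)
    (fun s : ℝ => Complex.exp (s * ⟪θ, t⟫ * Complex.I))
    (fun y => Complex.exp (⟪y, (Submodule.span ℝ {θ})ᗮ.orthogonalProjectionOnto t⟫ * Complex.I)),
    ← charFun_apply, charFun_stdGaussian]
  have h2 : ∫ s : ℝ, Complex.exp (s * ⟪θ, t⟫ * Complex.I) ∂(gaussianReal 0 1)
      = Complex.exp (-(⟪θ, t⟫ : ℂ) ^ 2 / 2) := by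
    have := charFun_apply_real (μ := gaussianReal 0 1) ⟪θ, t⟫
    rw [charFun_gaussianReal] at this
    have e : ∀ s : ℝ, Complex.exp (s * ⟪θ, t⟫ * Complex.I) = Complex.exp (⟪θ, t⟫ * s * Complex.I) := by
      intro s; congr 1; ring
    simp_rw [e]
    rw [← this]
    simp [neg_div]
  rw [h2, ← Complex.exp_add]
  congr 1
  have h3 := Submodule.norm_sq_eq_add_norm_sq_starProjection t (Submodule.span ℝ {θ})
  rw [Submodule.starProjection_unit_singleton ℝ hθ, norm_smul, hθ, mul_one] at h3
  have h4 : ‖t‖ ^ 2 = ⟪θ, t⟫ ^ 2 + ‖(Submodule.span ℝ {θ})ᗮ.orthogonalProjectionOnto t‖ ^ 2 := by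
    rw [h3, Real.norm_eq_abs, sq_abs]
    rfl
  have h5 : ((‖t‖ ^ 2 : ℝ) : ℂ) = ((⟪θ, t⟫ ^ 2
    + ‖(Submodule.span ℝ {θ})ᗮ.orthogonalProjectionOnto t‖ ^ 2 : ℝ) : ℂ) := by rw [h4]
  push_cast at h5
  rw [h5]
  ring

/-- A nonzero linear functional has no atoms under the standard Gaussian measure. -/
lemma stdGaussian_hyperplane (v : E) (hv : v ≠ 0) (a : ℝ) :
    stdGaussian E {y | ⟪v, y⟫ = a} = 0 := by
  have h1 : (stdGaussian E).map (innerSL ℝ v) = gaussianReal ((stdGaussian E)[innerSL ℝ v])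
      (Var[innerSL ℝ v; stdGaussian E]).toNNReal := IsGaussian.map_eq_gaussianReal _
  rw [variance_dual_stdGaussian, innerSL_apply_norm] at h1
  have h2 : (‖v‖ ^ 2).toNNReal ≠ 0 := by
    rw [ne_eq, Real.toNNReal_eq_zero, not_le]
    have := norm_pos_iff.mpr hv
    positivity
  have h3 : (stdGaussian E).map (innerSL ℝ v) {a} = 0 := by
    rw [h1]
    have := nullSingletonClass_gaussianReal (μ := (stdGaussian E)[innerSL ℝ v]) h2
    exact measure_singleton a
  rw [Measure.map_apply (by fun_prop) (measurableSet_singleton a)] at h3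
  exact h3

end Helper58.GC
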