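import Pool.Agent.Helper64.CubeGauss.Conc
import Pool.Agent.Helper64.CubeGauss.NumTools

/-!
# Numerical lower bound for `∫_0^{2.6} φ^{21/4} (1 - e^{-c₄u⁴/2})`
-/

namespace Helper58.GC

open Set MeasureTheory Helper64.CubeGauss

def Ft : List ℕ := [10000, 9985, 9941, 9869, 9768, 9640, 9484, 9303, 9096, 8865, 8611, 8336, 8041,
  7728, 7398, 7054, 6697, 6329, 5951, 5567, 5178, 4786, 4392, 4000, 3610, 3225, 2846]

def Rt : List ℕ := [10000, 9996, 9985, 9967, 9941, 9908, 9868, 9821, 9765, 9703, 9633, 9555, 9469,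
  9375, 9274, 9164, 9046, 8919, 8783, 8637, 8482, 8317, 8140, 7952, 7751, 7535, 7303]

def Ff (k : ℕ) : ℕ := Ft.getD k 0
def Rf (k : ℕ) : ℕ := Rt.getD k 0

lemma R_check : ∀ k < 27, (Rf k) ^ 4 ≤ Ff k * 10 ^ 12 := by decide +kernel

lemma F_pos : ∀ k < 27, 0 < Ff k := by decide +kernel

lemma F_lower (k : ℕ) (h1 : 1 ≤ k) (h2 : k ≤ 26) : (Ff k : ℝ) / 10 ^ 4 ≤ φ ((k : ℝ) / 10) := by
  obtain ⟨hc1, hc2⟩ := c_bounds
  refine le_trans ?_ (φ_lower8 _)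
  interval_cases k <;> norm_num [Ff, Ft] at * <;> linarith

lemma rpow_lower {x f r : ℝ} (hf : 0 < f) (hx : f ≤ x) (hr : 0 ≤ r) (hrf : r ^ 4 ≤ f) :
    f ^ 5 * r ≤ x ^ (21 / 4 : ℝ) := by
  have h1 : f ^ (21 / 4 : ℝ) ≤ x ^ (21 / 4 : ℝ) := Real.rpow_le_rpow hf.le hx (by norm_num)
  refine le_trans ?_ h1
  have e : f ^ (21 / 4 : ℝ) = f ^ 5 * f ^ (1 / 4 : ℝ) := by
    rw [show (21 / 4 : ℝ) = ((5 : ℕ) : ℝ) + 1 / 4 by norm_num, Real.rpow_add hf, Real.rpow_natCast]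
  rw [e]
  apply mul_le_mul_of_nonneg_left _ (by positivity)
  calc r = (r ^ 4) ^ (1 / 4 : ℝ) := by
        rw [← Real.rpow_natCast, ← Real.rpow_mul hr]
        norm_num
    _ ≤ f ^ (1 / 4 : ℝ) := Real.rpow_le_rpow (by positivity) hrf (by norm_num)

lemma exp_lower {y y0 : ℝ} (h0 : 0 ≤ y0) (h : y0 ≤ y) : y0 - y0 ^ 2 / 2 ≤ 1 - Real.exp (-y) := by
  have h1 : Real.exp (-y) ≤ Real.exp (-y0) := Real.exp_le_exp.mpr (by linarith)
  have h2 := exp_neg_le_quad h0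
  linarith

def gterm (k : ℕ) : ℕ := Ff (k + 1) ^ 5 * Rf (k + 1) * (187 * k ^ 4) * (2 * 10 ^ 9 - 187 * k ^ 4)

lemma gsum : 26000000000000000000000000000000000000000 ≤ nsum gterm 0 26 := by decide +kernel

lemma continuous_G : Continuous fun u => φ u ^ (21 / 4 : ℝ) * (1 - Real.exp (-(c4 / 2 * u ^ 4))) := by
  apply Continuous.mul
  · exact φ_cont.rpow_const (fun x => Or.inr (by norm_num))
  · fun_prop

/-- The numerical lower bound. -/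
theorem G_lower : 0.0013 ≤ ∫ u in (0 : ℝ)..2.6, φ u ^ (21 / 4 : ℝ) * (1 - Real.exp (-(c4 / 2 * u ^ 4))) := by
  have key := sum_le_integral continuous_G (fun k : ℕ => (k : ℝ) / 10)
    (fun k => by push_cast; linarith)
    (fun k => ((Ff (k + 1) : ℝ) / 10 ^ 4) ^ 5 * ((Rf (k + 1) : ℝ) / 10 ^ 4)
      * ((187 * (k : ℝ) ^ 4 / 10 ^ 9) - (187 * (k : ℝ) ^ 4 / 10 ^ 9) ^ 2 / 2))
    (fun _ => 1 / 10) 0 26 (by norm_num)
    (fun k _ hk => by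
      have hk' : (k : ℝ) ≤ 26 := by exact_mod_cast hk.le
      have hk0 : (0 : ℝ) ≤ k := by positivity
      have h4 : (k : ℝ) ^ 4 ≤ 26 ^ 4 := pow_le_pow_left₀ hk0 hk' 4
      have h5 : 0 ≤ 187 * (k : ℝ) ^ 4 / 10 ^ 9 := by positivity
      have h6 : 187 * (k : ℝ) ^ 4 / 10 ^ 9 ≤ 1 := by
        rw [div_le_one (by positivity)]
        linarith
      have h7 : 0 ≤ (187 * (k : ℝ) ^ 4 / 10 ^ 9) - (187 * (k : ℝ) ^ 4 / 10 ^ 9) ^ 2 / 2 := by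
        nlinarith
      positivity)
    (fun k _ _ => by push_cast; linarith) (by
      intro k _ hk u hu1 hu2
      have hu1' : (k : ℝ) / 10 < u := hu1
      have hu2' : u < ((k + 1 : ℕ) : ℝ) / 10 := hu2
      have hk0 : (0 : ℝ) ≤ k := by positivity
      have hu0 : 0 ≤ u := by
        have : 0 ≤ (k : ℝ) / 10 := by positivity
        linarith
      have hz := z1_gt
      have hk26 : ((k + 1 : ℕ) : ℝ) ≤ 26 := by exact_mod_cast hk
      have hend : ((k + 1 : ℕ) : ℝ) / 10 ≤ 2.6 := by linarith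
      have hφ : (Ff (k + 1) : ℝ) / 10 ^ 4 ≤ φ u := by
        refine (F_lower (k + 1) (by omega) hk).trans ?_
        exact φ_antitone ⟨hu0, by linarith⟩ ⟨by positivity, by linarith⟩ hu2'.le
      have hF := F_pos (k + 1) (by omega)
      have hR := R_check (k + 1) (by omega)
      have hF' : (0 : ℝ) < (Ff (k + 1) : ℝ) / 10 ^ 4 := by
        have : (0 : ℝ) < (Ff (k + 1) : ℝ) := by exact_mod_cast hF
        positivity
      have hR' : ((Rf (k + 1) : ℝ) / 10 ^ 4) ^ 4 ≤ (Ff (k + 1) : ℝ) / 10 ^ 4 := by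
        have h : ((Rf (k + 1) : ℝ)) ^ 4 ≤ (Ff (k + 1) : ℝ) * 10 ^ 12 := by exact_mod_cast hR
        rw [div_pow, div_le_div_iff₀ (by positivity) (by positivity)]
        nlinarith
      have h1 := rpow_lower hF' hφ (by positivity : (0 : ℝ) ≤ (Rf (k + 1) : ℝ) / 10 ^ 4) hR'
      have h2 : 187 * (k : ℝ) ^ 4 / 10 ^ 9 ≤ c4 / 2 * u ^ 4 := by
        have hc4 := c4_bounds.1
        have hku : ((k : ℝ) / 10) ^ 4 ≤ u ^ 4 := pow_le_pow_left₀ (by positivity) hu1'.le 4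
        calc 187 * (k : ℝ) ^ 4 / 10 ^ 9 = (37400 / 10 ^ 7) / 2 * ((k : ℝ) / 10) ^ 4 := by ring
          _ ≤ c4 / 2 * u ^ 4 := by gcongr
      have h3 := exp_lower (by positivity : (0 : ℝ) ≤ 187 * (k : ℝ) ^ 4 / 10 ^ 9) h2
      have h5 : 0 ≤ 187 * (k : ℝ) ^ 4 / 10 ^ 9 := by positivity
      have h4 : (k : ℝ) ^ 4 ≤ 26 ^ 4 := pow_le_pow_left₀ hk0 (by
        have : ((k : ℝ)) ≤ ((k + 1 : ℕ) : ℝ) := by push_cast; linarith
        linarith) 4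
      have h6 : 187 * (k : ℝ) ^ 4 / 10 ^ 9 ≤ 1 := by
        rw [div_le_one (by positivity)]
        linarith
      have h7 : 0 ≤ (187 * (k : ℝ) ^ 4 / 10 ^ 9) - (187 * (k : ℝ) ^ 4 / 10 ^ 9) ^ 2 / 2 := by
        nlinarith
      exact mul_le_mul h1 h3 h7 ((by positivity : (0 : ℝ) ≤ ((Ff (k + 1) : ℝ) / 10 ^ 4) ^ 5
        * ((Rf (k + 1) : ℝ) / 10 ^ 4)).trans h1))
  have e0 : ((0 : ℕ) : ℝ) / 10 = 0 := by norm_num
  have e1 : ((26 : ℕ) : ℝ) / 10 = 2.6 := by norm_num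
  rw [e0, e1] at key
  refine le_trans ?_ key
  have hs : (26000000000000000000000000000000000000000 : ℝ) ≤ (nsum gterm 0 26 : ℝ) := by
    exact_mod_cast gsum
  rw [nsum_eq, zero_add, Nat.cast_sum] at hs
  have e2 : ∑ k ∈ Finset.Ico 0 26, 1 / 10 * (((Ff (k + 1) : ℝ) / 10 ^ 4) ^ 5 * ((Rf (k + 1) : ℝ) / 10 ^ 4)
      * ((187 * (k : ℝ) ^ 4 / 10 ^ 9) - (187 * (k : ℝ) ^ 4 / 10 ^ 9) ^ 2 / 2))
      = (∑ k ∈ Finset.Ico 0 26, ((gterm k : ℕ) : ℝ)) / (2 * 10 ^ 43) := by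
    rw [Finset.sum_div]
    apply Finset.sum_congr rfl
    intro k hk
    have hk26 : k < 26 := (Finset.mem_Ico.mp hk).2
    have hle : 187 * k ^ 4 ≤ 2 * 10 ^ 9 := by
      have : k ^ 4 ≤ 26 ^ 4 := Nat.pow_le_pow_left hk26.le 4
      omega
    have hcast : ((2 * 10 ^ 9 - 187 * k ^ 4 : ℕ) : ℝ) = 2 * 10 ^ 9 - 187 * (k : ℝ) ^ 4 := by
      rw [Nat.cast_sub hle]
      push_cast
      ring
    have hg : ((gterm k : ℕ) : ℝ) = (Ff (k + 1) : ℝ) ^ 5 * (Rf (k + 1) : ℝ) * (187 * (k : ℝ) ^ 4)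
        * (2 * 10 ^ 9 - 187 * (k : ℝ) ^ 4) := by
      unfold gterm
      rw [Nat.cast_mul, hcast]
      push_cast
      ring
    rw [hg]
    ring
  rw [e2]
  rw [le_div_iff₀ (by positivity)]
  linarith

end Helper58.GC
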