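import Pool.Agent.Helper64.CubeGauss.Tail

/-!
# Tail integrals of products with total weight `Q`
-/

namespace Helper58.GC

open Set MeasureTheory Helper64.CubeGauss

attribute [local irreducible] Dd expU nsum sr Vf

lemma Sf_check : ∀ j < 128, 24 ≤ j → 3493400 ≤ Sf j * j := by decide +kernel

lemma sr_mul_ge {u : ℝ} (hu : √12 ≤ u) : 1.7467 ≤ sr (u ^ 2) * u ^ 2 := by
  have hu0 : 0 < u := lt_of_lt_of_le (Real.sqrt_pos.mpr (by norm_num)) hu
  have hu2 : 12 ≤ u ^ 2 := by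
    have := Real.sq_sqrt (by norm_num : (0 : ℝ) ≤ 12)
    rw [← this]
    exact pow_le_pow_left₀ (Real.sqrt_nonneg _) hu 2
  by_cases h : u ^ 2 < 64
  · have e : sr (u ^ 2) = (Sf ⌊2 * u ^ 2⌋₊ : ℝ) / 10 ^ 6 := by
      unfold sr; rw [if_pos h]
    rw [e]
    set j := ⌊2 * u ^ 2⌋₊ with hj
    have hj1 : (j : ℝ) ≤ 2 * u ^ 2 := Nat.floor_le (by positivity)
    have hj128 : j < 128 := by
      rw [hj, Nat.floor_lt (by positivity)]
      push_cast; linarith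
    have hj24 : 24 ≤ j := by
      rw [hj]
      apply Nat.le_floor
      push_cast; linarith
    have h1 := Sf_check j hj128 hj24
    have h2 : (3493400 : ℝ) ≤ (Sf j : ℝ) * j := by exact_mod_cast h1
    have h3 : (0 : ℝ) ≤ Sf j := by positivity
    have h4 : (Sf j : ℝ) * j ≤ (Sf j : ℝ) * (2 * u ^ 2) := mul_le_mul_of_nonneg_left hj1 h3
    linarith
  · have e : sr (u ^ 2) = Real.log (Real.sqrt (u ^ 2) / 0.7209) / (u ^ 2) := by
      unfold sr; rw [if_neg h]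
    rw [e, Real.sqrt_sq hu0.le, div_mul_cancel₀ _ (by positivity)]
    have h8 : 8 ≤ u := by
      have := not_lt.mp h
      nlinarith
    have h1 : Real.log (8 / 0.7209) ≤ Real.log (u / 0.7209) := by
      apply Real.log_le_log (by norm_num)
      exact div_le_div_of_nonneg_right h8 (by norm_num)
    have := log8_bound.2
    linarith

/-- envelope split -/
lemma rst_split {ι : Type*} (S : Finset ι) (ρ : ι → ℝ) (h0 : ∀ i ∈ S, 0 ≤ ρ i)
    (h1 : ∀ i ∈ S, ρ i ≤ 1) {Q0 : ℝ} (hQ : Q0 ≤ ∑ i ∈ S, ρ i) {u : ℝ} (hu : √12 ≤ u) :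
    |Rst S ρ u| ≤ Real.exp (-(1.7467 * ((∑ i ∈ S, ρ i) - Q0)))
      * Real.exp (-(sr (u ^ 2) * (Q0 * u ^ 2))) := by
  have hu0 : 0 < u := lt_of_lt_of_le (Real.sqrt_pos.mpr (by norm_num)) hu
  have h := prod_env S ρ h0 h1 hu0.le
  rw [one_mul] at h
  refine h.trans ?_
  rw [← Real.exp_add]
  apply Real.exp_le_exp.mpr
  have hs := sr_mul_ge hu
  have : 0 ≤ (sr (u ^ 2) * u ^ 2 - 1.7467) * ((∑ i ∈ S, ρ i) - Q0) :=
    mul_nonneg (by linarith) (by linarith)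
  nlinarith

def jterm (K j : ℕ) : ℕ := Dd j * expU (K * Sf j * j / 2)

def jsum (K : ℕ) : ℕ := nsum (jterm K) 24 104

lemma cell_exp {K : ℕ} {j : ℕ} (hj : j < 128) {u : ℝ} (hu1 : (j : ℝ) / 2 ≤ u ^ 2)
    (hu2 : u ^ 2 < ((j : ℝ) + 1) / 2) :
    Real.exp (-(sr (u ^ 2) * ((K : ℝ) / 1000 * u ^ 2))) ≤ (expU (K * Sf j * j / 2) : ℝ) / 10 ^ 15 := by
  apply expU_le
  have hj' : (j : ℝ) + 1 ≤ 128 := by exact_mod_cast hj
  have h64 : u ^ 2 < 64 := by linarith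
  have hfl : ⌊2 * u ^ 2⌋₊ = j := by
    rw [Nat.floor_eq_iff (by positivity)]
    constructor <;> linarith
  have e : sr (u ^ 2) = (Sf j : ℝ) / 10 ^ 6 := by
    unfold sr; rw [if_pos h64, hfl]
  rw [e]
  have hz : ((K * Sf j * j / 2 : ℕ) : ℝ) ≤ (K : ℝ) * Sf j * j / 2 := by
    have := Nat.cast_div_le (α := ℝ) (m := K * Sf j * j) (n := 2)
    push_cast at this
    exact this
  have h7 : ((K * Sf j * j / 2 : ℕ) : ℝ) / 10 ^ 9 ≤ (Sf j : ℝ) / 10 ^ 6 * ((K : ℝ) / 1000 * ((j : ℝ) / 2)) := by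
    rw [div_le_iff₀ (by norm_num)]
    refine hz.trans (le_of_eq ?_)
    ring
  refine h7.trans ?_
  gcongr

lemma mid_int {ι : Type*} (S : Finset ι) (ρ : ι → ℝ) {K : ℕ} (h0 : ∀ i ∈ S, 0 ≤ ρ i)
    (h1 : ∀ i ∈ S, ρ i ≤ 1) (hQ : (K : ℝ) / 1000 ≤ ∑ i ∈ S, ρ i) :
    ∫ u in (√12)..8, |Rst S ρ u|
      ≤ Real.exp (-(1.7467 * ((∑ i ∈ S, ρ i) - (K : ℝ) / 1000))) * ((jsum K : ℝ) / 10 ^ 21) := by
  have hcont : Continuous (fun u => |Rst S ρ u|) := (Rst_cont S ρ).abs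
  set E : ℝ := Real.exp (-(1.7467 * ((∑ i ∈ S, ρ i) - (K : ℝ) / 1000))) with hE
  have hEpos : 0 < E := Real.exp_pos _
  have key := integral_le_sum hcont (fun j => Real.sqrt ((j:ℝ)/2))
    (fun k => Real.sqrt_le_sqrt (by push_cast; linarith))
    (fun j => E * ((expU (K * Sf j * j / 2) : ℝ)/10^15))
    (fun j => (Dd j : ℝ)/10^6) 24 128 (by norm_num) (fun k _ _ => by positivity)
    (fun k hk1 hk2 => sqrt_step hk1 hk2) ?_
  · have e1 : Real.sqrt (((24:ℕ):ℝ)/2) = Real.sqrt 12 := by norm_num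
    have e2 : Real.sqrt (((128:ℕ):ℝ)/2) = 8 := by
      rw [show (((128:ℕ):ℝ)/2) = 8^2 by norm_num]
      exact Real.sqrt_sq (by norm_num)
    rw [e1, e2] at key
    refine key.trans (le_of_eq ?_)
    unfold jsum
    rw [nsum_eq, Nat.cast_sum, Finset.sum_div, Finset.mul_sum]
    apply Finset.sum_congr rfl
    intro j _
    unfold jterm
    push_cast
    ring
  · intro j hj1 hj2 u hu1 hu2
    have hu0 : 0 ≤ u := (Real.sqrt_nonneg _).trans hu1.le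
    have hx1 : (j:ℝ)/2 ≤ u^2 := by
      have := Real.sq_sqrt (by positivity : (0:ℝ) ≤ (j:ℝ)/2)
      rw [← this]
      exact pow_le_pow_left₀ (Real.sqrt_nonneg _) hu1.le 2
    have hx2 : u^2 < ((j:ℝ)+1)/2 := by
      have h3 := Real.sq_sqrt (by positivity : (0:ℝ) ≤ ((j+1:ℕ):ℝ)/2)
      have h4 : u^2 < (Real.sqrt (((j+1:ℕ):ℝ)/2))^2 := pow_lt_pow_left₀ hu2 hu0 (by norm_num)
      rw [h3] at h4
      push_cast at h4
      linarith
    have h12 : √12 ≤ u := by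
      refine le_trans ?_ hu1.le
      apply Real.sqrt_le_sqrt
      have : (24 : ℝ) ≤ j := by exact_mod_cast hj1
      linarith
    refine (rst_split S ρ h0 h1 hQ h12).trans ?_
    exact mul_le_mul_of_nonneg_left (cell_exp hj2 hx1 hx2) hEpos.le

lemma far_pt {ι : Type*} (S : Finset ι) (ρ : ι → ℝ) {Q0 : ℝ} (h0 : ∀ i ∈ S, 0 ≤ ρ i)
    (h1 : ∀ i ∈ S, ρ i ≤ 1) (hQ : Q0 ≤ ∑ i ∈ S, ρ i) {u : ℝ} (hu : 8 < u) :
    |Rst S ρ u| ≤ Real.exp (-(1.7467 * ((∑ i ∈ S, ρ i) - Q0))) * (0.7209 ^ Q0 * u ^ (-Q0)) := by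
  have hu0 : 0 < u := by linarith
  have h12 : √12 ≤ u := by
    refine le_trans ?_ hu.le
    rw [show (8 : ℝ) = √(8 ^ 2) by rw [Real.sqrt_sq (by norm_num)]]
    apply Real.sqrt_le_sqrt
    norm_num
  refine (rst_split S ρ h0 h1 hQ h12).trans ?_
  apply mul_le_mul_of_nonneg_left _ (Real.exp_pos _).le
  have h : ¬ (u ^ 2 < 64) := by
    rw [not_lt]; nlinarith
  have e : sr (u ^ 2) = Real.log (Real.sqrt (u ^ 2) / 0.7209) / (u ^ 2) := by
    unfold sr; rw [if_neg h]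
  rw [e, Real.sqrt_sq hu0.le]
  have e2 : Real.log (u / 0.7209) / u ^ 2 * (Q0 * u ^ 2) = Real.log (u / 0.7209) * Q0 := by
    field_simp
  rw [e2]
  apply le_of_eq
  rw [← mul_neg, ← Real.rpow_def_of_pos (by positivity), Real.div_rpow hu0.le (by norm_num),
    Real.rpow_neg (by norm_num : (0 : ℝ) ≤ 0.7209)]
  field_simp

lemma far_int {ι : Type*} (S : Finset ι) (ρ : ι → ℝ) {Q0 : ℝ} (hQ0 : 1 < Q0) (h0 : ∀ i ∈ S, 0 ≤ ρ i)
    (h1 : ∀ i ∈ S, ρ i ≤ 1) (hQ : Q0 ≤ ∑ i ∈ S, ρ i) :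
    IntegrableOn (fun u => |Rst S ρ u|) (Ioi 8) ∧ ∫ u in Ioi (8 : ℝ), |Rst S ρ u|
      ≤ Real.exp (-(1.7467 * ((∑ i ∈ S, ρ i) - Q0))) * (8 / (Q0 - 1) * Real.exp (-(2.4066 * Q0))) := by
  set E : ℝ := Real.exp (-(1.7467 * ((∑ i ∈ S, ρ i) - Q0))) with hE
  have hEpos : 0 < E := Real.exp_pos _
  have hint : IntegrableOn (fun u : ℝ => E * (0.7209 ^ Q0 * u ^ (-Q0))) (Ioi 8) :=
    ((integrableOn_Ioi_rpow_of_lt (by linarith) (by norm_num)).const_mul _).const_mul _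
  have hI : IntegrableOn (fun u => |Rst S ρ u|) (Ioi 8) := by
    apply Integrable.mono' hint (Rst_cont S ρ).abs.aestronglyMeasurable
    rw [ae_restrict_iff' measurableSet_Ioi]
    filter_upwards with u hu
    rw [Real.norm_eq_abs, abs_abs]
    exact far_pt S ρ h0 h1 hQ hu
  refine ⟨hI, ?_⟩
  refine (setIntegral_mono_on hI hint measurableSet_Ioi
    (fun u hu => far_pt S ρ h0 h1 hQ hu)).trans ?_
  rw [integral_const_mul, integral_const_mul, integral_Ioi_rpow_of_lt (by linarith) (by norm_num)]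
  apply mul_le_mul_of_nonneg_left _ hEpos.le
  have e1 : (0.7209 : ℝ) ^ Q0 * (-(8 : ℝ) ^ (-Q0 + 1) / (-Q0 + 1))
      = 8 / (Q0 - 1) * (0.7209 / 8) ^ Q0 := by
    rw [Real.rpow_add (by norm_num), Real.rpow_one, Real.rpow_neg (by norm_num),
      Real.div_rpow (by norm_num) (by norm_num)]
    have : Q0 - 1 ≠ 0 := by intro h; linarith
    have h2 : -Q0 + 1 ≠ 0 := by intro h; linarith
    field_simp
    ring
  rw [e1]
  apply mul_le_mul_of_nonneg_left _ (by apply div_nonneg (by norm_num); linarith)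
  rw [Real.rpow_def_of_pos (by norm_num)]
  apply Real.exp_le_exp.mpr
  have h3 : Real.log (0.7209 / 8) = -Real.log (8 / 0.7209) := by
    rw [← Real.log_inv]; congr 1; norm_num
  rw [h3]
  have := log8_bound.2
  nlinarith

/-- Total tail. -/
lemma tail_int {ι : Type*} (S : Finset ι) (ρ : ι → ℝ) {K : ℕ} (hK : 1000 < K) (h0 : ∀ i ∈ S, 0 ≤ ρ i)
    (h1 : ∀ i ∈ S, ρ i ≤ 1) (hQ : (K : ℝ) / 1000 ≤ ∑ i ∈ S, ρ i) :
    IntegrableOn (fun u => |Rst S ρ u|) (Ioi (√12)) ∧ ∫ u in Ioi (√12), |Rst S ρ u|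
      ≤ Real.exp (-(1.7467 * ((∑ i ∈ S, ρ i) - (K : ℝ) / 1000))) *
        ((jsum K : ℝ) / 10 ^ 21 + 8 / ((K : ℝ) / 1000 - 1) * Real.exp (-(2.4066 * ((K : ℝ) / 1000)))) := by
  have hK' : (1 : ℝ) < (K : ℝ) / 1000 := by
    rw [lt_div_iff₀ (by norm_num)]
    have : (1000 : ℝ) < K := by exact_mod_cast hK
    linarith
  obtain ⟨hI, hf⟩ := far_int S ρ hK' h0 h1 hQ
  have hm := mid_int S ρ h0 h1 hQ
  have h128 : √12 ≤ 8 := by
    rw [show (8 : ℝ) = √(8 ^ 2) by rw [Real.sqrt_sq (by norm_num)]]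
    apply Real.sqrt_le_sqrt
    norm_num
  have hcont : Continuous (fun u => |Rst S ρ u|) := (Rst_cont S ρ).abs
  have hu : Ioc (√12) 8 ∪ Ioi 8 = Ioi (√12) := Ioc_union_Ioi_eq_Ioi h128
  constructor
  · rw [← hu]
    exact (hcont.integrableOn_Ioc).union hI
  · rw [← hu, setIntegral_union (Ioc_disjoint_Ioi le_rfl) measurableSet_Ioi hcont.integrableOn_Ioc hI,
      ← intervalIntegral.integral_of_le h128, mul_add]
    exact add_le_add hm hf

end Helper58.GC
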