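import Pool.Agent.Helper58.GC.Pair2
import Pool.Agent.Helper58.GC.Asm
import Pool.Agent.Helper64.CubeGauss.RegE2

/-!
# Existence of a maximiser, and the case `n ≥ 6`
-/

namespace Helper58.GC

open Set MeasureTheory Helper64.CubeGauss

variable {n : ℕ}

/-- Nonnegative unit vectors whose two largest coordinates (at `i0`, `i1`) are equal. -/
def KK (i0 i1 : Fin n) : Set (Fin n → ℝ) :=
  {th | ∑ i, th i ^ 2 = 1 ∧ th i1 = th i0 ∧ ∀ i, 0 ≤ th i ∧ th i ≤ th i0}

lemma KK_sq_ge {i0 i1 : Fin n} {th : Fin n → ℝ} (h : th ∈ KK i0 i1) : 1 ≤ (n : ℝ) * th i0 ^ 2 := by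
  obtain ⟨h1, _, h3⟩ := h
  rw [← h1]
  calc ∑ i, th i ^ 2 ≤ ∑ _i : Fin n, th i0 ^ 2 :=
        Finset.sum_le_sum fun i _ => pow_le_pow_left₀ (h3 i).1 (h3 i).2 2
    _ = (n : ℝ) * th i0 ^ 2 := by simp

lemma KK_pos {i0 i1 : Fin n} {th : Fin n → ℝ} (h : th ∈ KK i0 i1) : 0 < th i0 := by
  have h1 := KK_sq_ge h
  rcases (h.2.2 i0).1.eq_or_lt with h0 | h0
  · rw [← h0] at h1
    norm_num at h1
  · exact h0

lemma KK_compact (i0 i1 : Fin n) : IsCompact (KK i0 i1) := by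
  have hsub : KK i0 i1 ⊆ Set.pi Set.univ (fun _ => Icc (0 : ℝ) 1) := by
    intro th h i _
    refine ⟨(h.2.2 i).1, ?_⟩
    have h1 : th i ^ 2 ≤ 1 := by
      rw [← h.1]
      exact Finset.single_le_sum (f := fun i => th i ^ 2) (fun i _ => sq_nonneg _) (Finset.mem_univ i)
    nlinarith [(h.2.2 i).1]
  refine (isCompact_univ_pi (fun _ => isCompact_Icc)).of_isClosed_subset ?_ hsub
  have e : KK i0 i1 = {th | ∑ i, th i ^ 2 = 1} ∩ ({th | th i1 = th i0} ∩
      ⋂ i, ({th | 0 ≤ th i} ∩ {th | th i ≤ th i0})) := by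
    ext th
    simp only [KK, mem_ofPred_eq, mem_inter_iff, mem_iInter]
  rw [e]
  refine IsClosed.inter (isClosed_eq (by fun_prop) continuous_const) (IsClosed.inter
    (isClosed_eq (by fun_prop) (by fun_prop)) (isClosed_iInter fun i => IsClosed.inter
    (isClosed_le continuous_const (by fun_prop)) (isClosed_le (by fun_prop) (by fun_prop))))

/-- The union over all pairs. -/
def KU (n : ℕ) : Set (Fin n → ℝ) := ⋃ p : {p : Fin n × Fin n // p.1 ≠ p.2}, KK p.1.1 p.1.2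

lemma KU_compact (n : ℕ) : IsCompact (KU n) := isCompact_iUnion fun _ => KK_compact _ _

lemma mem_KU {th : Fin n → ℝ} {i0 i1 : Fin n} (hne : i0 ≠ i1) (h : th ∈ KK i0 i1) : th ∈ KU n :=
  mem_iUnion.mpr ⟨⟨(i0, i1), hne⟩, h⟩

lemma KU_bound {th : Fin n → ℝ} (h : th ∈ KU n) (t : ℝ) :
    |∏ k, φ (th k * t)| ≤ (1 + (c + 1) ^ 2 * n) * (1 + t ^ 2)⁻¹ := by
  classical
  obtain ⟨⟨⟨i0, i1⟩, hne⟩, h⟩ := mem_iUnion.mp h
  simp only at hne h
  have hpos := KK_pos h
  have hsq := KK_sq_ge h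
  have h1 : th i1 = th i0 := h.2.1
  refine (abs_prod_φ_le_pair th (Finset.mem_univ i0) (Finset.mem_univ i1) hne t).trans ?_
  refine (abs_φ_mul_φ_le hpos.ne' (by rw [h1]; exact hpos.ne') t).trans ?_
  apply mul_le_mul_of_nonneg_right _ (by positivity)
  rw [h1, abs_of_pos hpos]
  have hc := c_pos
  have : (c + 1) ^ 2 / (th i0 * th i0) ≤ (c + 1) ^ 2 * n := by
    rw [div_le_iff₀ (by positivity)]
    have : (c + 1) ^ 2 * 1 ≤ (c + 1) ^ 2 * ((n : ℝ) * th i0 ^ 2) := by gcongr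
    nlinarith
  linarith

lemma KU_cont : ContinuousOn (fun th : Fin n → ℝ => ∫ t, ∏ k, φ (th k * t)) (KU n) := by
  have hφ := φ_cont
  apply continuousOn_of_dominated (bound := fun t => (1 + (c + 1) ^ 2 * n) * (1 + t ^ 2)⁻¹)
  · intro th _
    exact (continuous_prod_φ Finset.univ th).aestronglyMeasurable
  · intro th h
    filter_upwards with t
    rw [Real.norm_eq_abs]
    exact KU_bound h t
  · exact integrable_inv_one_add_sq.const_mul _
  · filter_upwards with t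
    exact (by fun_prop : Continuous fun th : Fin n → ℝ => ∏ k, φ (th k * t)).continuousOn

lemma KU_nonempty (hn : 2 ≤ n) : (KU n).Nonempty := by
  have hn' : (0 : ℝ) < n := by exact_mod_cast (by omega : 0 < n)
  refine ⟨fun _ => 1 / √n, mem_KU (i0 := ⟨0, by omega⟩) (i1 := ⟨1, by omega⟩) (by simp) ⟨?_, rfl, ?_⟩⟩
  · rw [Finset.sum_const, Finset.card_univ, Fintype.card_fin, div_pow, Real.sq_sqrt hn'.le]
    simp
    field_simp
  · intro i
    exact ⟨by positivity, le_rfl⟩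

/-- A maximiser exists. -/
lemma exists_max (hn : 2 ≤ n) : ∃ th ∈ KU n, ∀ th' ∈ KU n,
    ∫ t, ∏ k, φ (th' k * t) ≤ ∫ t, ∏ k, φ (th k * t) := by
  obtain ⟨th, h1, h2⟩ := (KU_compact n).exists_isMaxOn (KU_nonempty hn) KU_cont
  exact ⟨th, h1, fun th' h' => h2 h'⟩

/-- If the largest weight is small and not all coordinates are equal, the value can be improved. -/
lemma improve (hn : 6 ≤ n) {th : Fin n → ℝ} {i0 i1 : Fin n} (h : th ∈ KK i0 i1)
    (hs : th i0 ^ 2 < 19 / 100) (hne : ∃ k, th k ≠ th i0) :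
    ∃ th' : Fin n → ℝ, ∑ i, th' i ^ 2 = 1 ∧ (∃ i j : Fin n, i ≠ j ∧ th' i ≠ 0 ∧ th' j ≠ 0) ∧
      ∫ t, ∏ k, φ (th k * t) < ∫ t, ∏ k, φ (th' k * t) := by
  classical
  have ha := KK_pos h
  obtain ⟨j, _, hj⟩ := Finset.exists_min_image Finset.univ th ⟨i0, Finset.mem_univ i0⟩
  have hja : th j < th i0 := by
    obtain ⟨k, hk⟩ := hne
    exact lt_of_le_of_lt (hj k (Finset.mem_univ k)) (lt_of_le_of_ne (h.2.2 k).2 hk)
  have hji0 : j ≠ i0 := fun e => by rw [e] at hja; exact lt_irrefl _ hja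
  set a := th i0 with haa
  set S : Finset (Fin n) := (Finset.univ.erase i0).erase j with hS
  have hcard : S.card = n - 2 := by
    rw [hS, Finset.card_erase_of_mem (Finset.mem_erase.2 ⟨hji0, Finset.mem_univ j⟩),
      Finset.card_erase_of_mem (Finset.mem_univ i0), Finset.card_univ, Fintype.card_fin]
    omega
  have hprod : ∀ f : Fin n → ℝ, ∏ i, f i = f i0 * (f j * ∏ i ∈ S, f i) := by
    intro f
    rw [hS, ← Finset.mul_prod_erase _ f (Finset.mem_univ i0),
      ← Finset.mul_prod_erase _ f (Finset.mem_erase.2 ⟨hji0, Finset.mem_univ j⟩)]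
  have hsum : ∀ f : Fin n → ℝ, ∑ i, f i = f i0 + (f j + ∑ i ∈ S, f i) := by
    intro f
    rw [hS, ← Finset.add_sum_erase _ f (Finset.mem_univ i0),
      ← Finset.add_sum_erase _ f (Finset.mem_erase.2 ⟨hji0, Finset.mem_univ j⟩)]
  set ρ : Fin n → ℝ := fun k => (th k / a) ^ 2 with hρ
  have hρ0 : ∀ k, 0 ≤ ρ k := fun k => sq_nonneg _
  have hq0 : ∀ k, 0 ≤ th k / a := fun k => div_nonneg (h.2.2 k).1 ha.le
  have hρ1 : ∀ k, ρ k ≤ 1 := by
    intro k
    have h1 : th k / a ≤ 1 := by rw [div_le_one ha]; exact (h.2.2 k).2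
    rw [hρ]
    simp only
    nlinarith [hq0 k]
  have hsq : ∀ k, √(ρ k) = th k / a := fun k => Real.sqrt_sq (hq0 k)
  set b := ρ j with hb
  have hb0 : 0 ≤ b := hρ0 j
  have hb1 : b < 1 := by
    have h1 : th j / a < 1 := by rw [div_lt_one ha]; exact hja
    rw [hb, hρ]
    simp only
    nlinarith [hq0 j]
  have hSsum : 1 + b + ∑ i ∈ S, ρ i = 1 / a ^ 2 := by
    have h1 := hsum (fun i => th i ^ 2)
    rw [h.1, ← haa] at h1
    rw [hb, hρ]
    simp only [div_pow]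
    rw [← Finset.sum_div]
    field_simp
    linarith
  have hs1 : 5.25 ≤ 1 + b + ∑ i ∈ S, ρ i := by
    rw [hSsum, le_div_iff₀ (by positivity)]
    linarith
  have h4b : 4 * b ≤ ∑ i ∈ S, ρ i := by
    have h1 : ∀ i ∈ S, b ≤ ρ i := by
      intro i _
      rw [hb, hρ]
      simp only
      apply pow_le_pow_left₀ (hq0 j)
      exact div_le_div_of_nonneg_right (hj i (Finset.mem_univ i)) ha.le
    have h2 : S.card • b ≤ ∑ i ∈ S, ρ i := Finset.card_nsmul_le_sum S ρ b h1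
    rw [nsmul_eq_mul, hcard] at h2
    have h3 : (4 : ℝ) ≤ ((n - 2 : ℕ) : ℝ) := by exact_mod_cast (by omega : 4 ≤ n - 2)
    have : 4 * b ≤ ((n - 2 : ℕ) : ℝ) * b := mul_le_mul_of_nonneg_right h3 hb0
    linarith
  have key := pair_gain S ρ (fun i _ => hρ0 i) (fun i _ => hρ1 i) hb0 hb1 hs1 h4b
  have hRst : ∀ t, Rst S ρ (a * t) = ∏ i ∈ S, φ (th i * t) := by
    intro t
    unfold Rst
    apply Finset.prod_congr rfl
    intro i _
    rw [hsq i]
    congr 1
    field_simp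
  set m := a * √((1 + b) / 2) with hm
  have hmpos : 0 < m := mul_pos ha (Real.sqrt_pos.mpr (by linarith))
  set th' : Fin n → ℝ := fun i => if i = i0 ∨ i = j then m else th i with hth'
  have hi0' : th' i0 = m := by simp [hth']
  have hj' : th' j = m := by simp [hth']
  have hS' : ∀ i ∈ S, th' i = th i := by
    intro i hi
    have h1 := Finset.mem_erase.mp hi
    have h2 := Finset.mem_erase.mp h1.2
    simp [hth', h1.1, h2.1]
  have hm2 : m ^ 2 + m ^ 2 = a ^ 2 + th j ^ 2 := by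
    rw [hm, mul_pow, Real.sq_sqrt (by linarith), hb, hρ]
    simp only
    field_simp
    ring
  have hA : ∀ t, ∏ k, φ (th k * t) = φ (a * t) * φ (√b * (a * t)) * Rst S ρ (a * t) := by
    intro t
    rw [hprod, hRst, hb, hsq j]
    have e : th j / a * (a * t) = th j * t := by field_simp
    rw [e]
    ring
  have hB : ∀ t, ∏ k, φ (th' k * t) = φ (√((1 + b) / 2) * (a * t)) ^ 2 * Rst S ρ (a * t) := by
    intro t
    rw [hprod, hRst, hi0', hj']
    have e : √((1 + b) / 2) * (a * t) = m * t := by rw [hm]; ring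
    rw [e]
    have e2 : ∏ i ∈ S, φ (th' i * t) = ∏ i ∈ S, φ (th i * t) :=
      Finset.prod_congr rfl fun i hi => by rw [hS' i hi]
    rw [e2]
    ring
  refine ⟨th', ?_, ⟨i0, j, hji0.symm, by rw [hi0']; exact hmpos.ne', by rw [hj']; exact hmpos.ne'⟩, ?_⟩
  · rw [hsum, hi0', hj']
    have e2 : ∑ i ∈ S, th' i ^ 2 = ∑ i ∈ S, th i ^ 2 :=
      Finset.sum_congr rfl fun i hi => by rw [hS' i hi]
    rw [e2]
    have h1 := hsum (fun i => th i ^ 2)
    rw [h.1, ← haa] at h1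
    linarith
  · simp_rw [hA, hB]
    rw [Measure.integral_comp_mul_left (fun u => φ u * φ (√b * u) * Rst S ρ u) a,
      Measure.integral_comp_mul_left (fun u => φ (√((1 + b) / 2) * u) ^ 2 * Rst S ρ u) a]
    rw [smul_eq_mul, smul_eq_mul]
    exact mul_lt_mul_of_pos_left key (abs_pos.mpr (inv_ne_zero ha.ne'))

/-- **T2** -/
theorem max_large (hn : 6 ≤ n) (th : Fin n → ℝ) (hsum : ∑ i, th i ^ 2 = 1) (i0 i1 : Fin n)
    (hne : i0 ≠ i1) (heq : th i1 = th i0) (hle : ∀ i, 0 ≤ th i ∧ th i ≤ th i0) :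
    ∫ t, ∏ i, φ (th i * t) ≤ ∫ t, φ (t / √n) ^ n := by
  obtain ⟨ts, hts, hmax⟩ := exists_max (n := n) (by omega)
  refine (hmax th (mem_KU hne ⟨hsum, heq, hle⟩)).trans ?_
  obtain ⟨⟨⟨j0, j1⟩, hj⟩, hK⟩ := mem_iUnion.mp hts
  simp only at hj hK
  by_cases hs : 19 / 100 ≤ ts j0 ^ 2
  · exact (max_large_of_ge hn ts hK.1 j0 j1 hj hK.2.1 hK.2.2 hs).le
  · rw [not_le] at hs
    by_cases hall : ∃ k, ts k ≠ ts j0
    · exfalso
      obtain ⟨th', h1, ⟨i, j, hij, hi, hjj⟩, h2⟩ := improve hn hK hs hall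
      have h3 := bound_of_top_eq (B := ∫ t, ∏ k, φ (ts k * t))
        (fun th hsum i0 i1 hne heq hle => hmax th (mem_KU hne ⟨hsum, heq, hle⟩)) th' h1 hij hi hjj
      exact absurd h2 (not_lt.mpr h3)
    · push Not at hall
      apply le_of_eq
      have hn' : (0 : ℝ) < n := by exact_mod_cast (by omega : 0 < n)
      have h1 : (n : ℝ) * ts j0 ^ 2 = 1 := by
        have := hK.1
        simp_rw [hall] at this
        simpa using this
      have h2 : ts j0 = 1 / √n := by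
        have h3 : ts j0 ^ 2 = (1 / √n) ^ 2 := by
          rw [div_pow, Real.sq_sqrt hn'.le]
          field_simp
          linarith
        exact (pow_left_inj₀ (hK.2.2 j0).1 (by positivity) (by norm_num)).mp h3
      congr 1
      ext t
      simp_rw [hall, h2]
      rw [Finset.prod_const, Finset.card_univ, Fintype.card_fin]
      congr 2
      ring

end Helper58.GC
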