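import Pool.Agent.Helper64.CubeGauss.Defs
import Pool.Agent.Helper58.GC.Cls

/-!
# Convolution with the truncated Gaussian preserves the class `Cls c`
-/

namespace Helper58.GC

open Set MeasureTheory Helper64.CubeGauss

/-- `cv θ h u = ∫_{-1}^1 h (u + θ x) e^{-x²/2} dx`. -/
noncomputable def cv (θ : ℝ) (h : ℝ → ℝ) (u : ℝ) : ℝ := ∫ x in (-1 : ℝ)..1, h (u + θ * x) * g x

lemma continuous_cv {h : ℝ → ℝ} (hc : Continuous h) (θ : ℝ) : Continuous (cv θ h) := by
  unfold cv
  apply intervalIntegral.continuous_parametric_intervalIntegral_of_continuous'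
  have := g_cont
  fun_prop

lemma g_even (x : ℝ) : g (-x) = g x := by
  unfold g
  rw [neg_sq]

lemma cv_even {h : ℝ → ℝ} (he : ∀ x, h (-x) = h x) (θ : ℝ) (x : ℝ) : cv θ h (-x) = cv θ h x := by
  unfold cv
  have h1 : ∫ y in (-1 : ℝ)..1, h (-x + θ * y) * g y = ∫ y in (-1 : ℝ)..1, h (-x + θ * -y) * g (-y) := by
    have := intervalIntegral.integral_comp_neg (a := -1) (b := 1) (fun y => h (-x + θ * y) * g y)
    rw [neg_neg] at this
    exact this.symm
  rw [h1]
  apply intervalIntegral.integral_congr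
  intro y _
  simp only
  rw [← he, g_even]
  congr 2
  ring

/-- The truncated Gaussian as a mixture of uniform laws. -/
lemma gauss_mixture {F : ℝ → ℝ} (hF : Continuous F) :
    ∫ x in (-1 : ℝ)..1, F x * g x
      = g 1 * (∫ x in (-1 : ℝ)..1, F x)
        + ∫ ρ in (0 : ℝ)..1, ρ * g ρ * (ρ * ∫ x in (-1 : ℝ)..1, F (ρ * x)) := by
  have hA : ∀ x, HasDerivAt (fun x => ∫ y in (0 : ℝ)..x, F y) (F x) x := fun x =>
    intervalIntegral.integral_hasDerivAt_right (hF.intervalIntegrable _ _)
      (hF.stronglyMeasurableAtFilter _ _) hF.continuousAt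
  set A : ℝ → ℝ := fun x => ∫ y in (0 : ℝ)..x, F y with hAdef
  have hAc : Continuous A := continuous_iff_continuousAt.mpr fun x => (hA x).continuousAt
  set G : ℝ → ℝ := fun ρ => A ρ - A (-ρ) with hG
  have hGc : Continuous G := by rw [hG]; fun_prop
  have hGd : ∀ ρ, HasDerivAt G (F ρ + F (-ρ)) ρ := by
    intro ρ
    refine HasDerivAt.congr_deriv (f' := F ρ - F (-ρ) * (-1)) ?_ (by ring)
    exact (hA ρ).sub ((hA (-ρ)).comp ρ (hasDerivAt_neg ρ))
  have hGeq : ∀ ρ, G ρ = ρ * ∫ x in (-1 : ℝ)..1, F (ρ * x) := by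
    intro ρ
    rw [intervalIntegral.mul_integral_comp_mul_left (f := F), mul_one, mul_neg_one]
    rw [hG, hAdef]
    simp only
    rw [intervalIntegral.integral_interval_sub_left (hF.intervalIntegrable _ _)
      (hF.intervalIntegrable _ _)]
  have hG1 : G 1 = ∫ x in (-1 : ℝ)..1, F x := by
    rw [hGeq]; simp
  have hG0 : G 0 = 0 := by rw [hGeq]; simp
  have hparts : ∫ ρ in (0 : ℝ)..1, ((F ρ + F (-ρ)) * g ρ + G ρ * (-ρ * g ρ))
      = G 1 * g 1 - G 0 * g 0 := by
    apply intervalIntegral.integral_eq_sub_of_hasDerivAt (f := fun ρ => G ρ * g ρ)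
    · intro ρ _
      exact (hGd ρ).mul (g_hasDeriv ρ)
    · apply Continuous.intervalIntegrable
      have := g_cont
      fun_prop
  have hsplit : ∫ x in (-1 : ℝ)..1, F x * g x = ∫ ρ in (0 : ℝ)..1, (F ρ + F (-ρ)) * g ρ := by
    have hc : Continuous fun x => F x * g x := hF.mul g_cont
    rw [← intervalIntegral.integral_add_adjacent_intervals (b := 0)
      (hc.intervalIntegrable _ _) (hc.intervalIntegrable _ _)]
    have h2 : ∫ x in (-1 : ℝ)..0, F x * g x = ∫ x in (0 : ℝ)..1, F (-x) * g x := by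
      have := intervalIntegral.integral_comp_neg (a := 0) (b := 1) (fun x => F x * g x)
      rw [neg_zero] at this
      rw [← this]
      apply intervalIntegral.integral_congr
      intro x _
      simp only
      rw [g_even]
    rw [h2, ← intervalIntegral.integral_add]
    · apply intervalIntegral.integral_congr
      intro x _
      simp only
      ring
    · apply Continuous.intervalIntegrable
      have := g_cont
      fun_prop
    · exact hc.intervalIntegrable _ _
  have hi1 : IntervalIntegrable (fun ρ => (F ρ + F (-ρ)) * g ρ) volume 0 1 := by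
    apply Continuous.intervalIntegrable
    have := g_cont
    fun_prop
  have hi2 : IntervalIntegrable (fun ρ => G ρ * (-ρ * g ρ)) volume 0 1 := by
    apply Continuous.intervalIntegrable
    have := g_cont
    fun_prop
  rw [intervalIntegral.integral_add hi1 hi2, hG0, hG1] at hparts
  have h3 : ∫ ρ in (0 : ℝ)..1, ρ * g ρ * (ρ * ∫ x in (-1 : ℝ)..1, F (ρ * x))
      = -∫ ρ in (0 : ℝ)..1, G ρ * (-ρ * g ρ) := by
    rw [← intervalIntegral.integral_neg]
    apply intervalIntegral.integral_congr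
    intro ρ _
    simp only
    rw [← hGeq]
    ring
  rw [hsplit, h3]
  linarith

lemma cv_eq {h : ℝ → ℝ} (hc : Continuous h) (θ u : ℝ) :
    cv θ h u = g 1 * sm θ h u + ∫ ρ in (0 : ℝ)..1, ρ * g ρ * (ρ * sm (θ * ρ) h u) := by
  unfold cv
  rw [gauss_mixture (F := fun x => h (u + θ * x)) (by fun_prop)]
  unfold sm
  congr 1
  apply intervalIntegral.integral_congr
  intro ρ _
  simp only
  congr 3
  ext x
  congr 2
  ring

/-- **Closure**: convolution with the truncated Gaussian preserves `Cls c`. -/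
lemma Cls.cv {c θ : ℝ} {h : ℝ → ℝ} (H : Cls c h) (h0 : 0 ≤ θ) (hθ : θ ≤ c) : Cls c (cv θ h) := by
  refine ⟨continuous_cv H.cont θ, cv_even H.even θ, ?_⟩
  intro u₁ u₂ u₃ u₄ h1 h12 h23 h34 h14 h23'
  have hcont : ∀ u, Continuous fun ρ : ℝ => ρ * g ρ * (ρ * GC.sm (θ * ρ) h u) := by
    intro u
    have h1 : Continuous fun ρ : ℝ => GC.sm (θ * ρ) h u :=
      (continuous_sm₂ H.cont).comp (f := fun ρ : ℝ => (θ * ρ, u)) (by fun_prop)
    have := g_cont
    fun_prop
  have key : ∀ ρ ∈ Icc (0 : ℝ) 1, (ρ * g ρ * (ρ * GC.sm (θ * ρ) h u₃)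
        - ρ * g ρ * (ρ * GC.sm (θ * ρ) h u₄)) * (u₂ ^ 2 - u₁ ^ 2)
      ≤ (ρ * g ρ * (ρ * GC.sm (θ * ρ) h u₁)
        - ρ * g ρ * (ρ * GC.sm (θ * ρ) h u₂)) * (u₄ ^ 2 - u₃ ^ 2) := by
    intro ρ hρ
    have hle : θ * ρ ≤ c := (mul_le_of_le_one_right h0 hρ.2).trans hθ
    have hk := (H.sm (mul_nonneg h0 hρ.1) hle).slope₀ u₁ u₂ u₃ u₄ h1 h12 h23 h34 h14 h23'
    have hw : 0 ≤ ρ * g ρ * ρ := mul_nonneg (mul_nonneg hρ.1 (g_pos ρ).le) hρ.1
    have := mul_le_mul_of_nonneg_left hk hw
    nlinarith [this]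
  have key2 := intervalIntegral.integral_mono_on (μ := volume) zero_le_one
    (((((hcont u₃).sub (hcont u₄)).mul_const (u₂ ^ 2 - u₁ ^ 2))).intervalIntegrable _ _)
    (((((hcont u₁).sub (hcont u₂)).mul_const (u₄ ^ 2 - u₃ ^ 2))).intervalIntegrable _ _) key
  simp only [Pi.sub_apply] at key2
  rw [intervalIntegral.integral_mul_const, intervalIntegral.integral_mul_const,
    intervalIntegral.integral_sub ((hcont u₃).intervalIntegrable _ _)
      ((hcont u₄).intervalIntegrable _ _),
    intervalIntegral.integral_sub ((hcont u₁).intervalIntegrable _ _)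
      ((hcont u₂).intervalIntegrable _ _)] at key2
  have key1 := (H.sm h0 hθ).slope₀ u₁ u₂ u₃ u₄ h1 h12 h23 h34 h14 h23'
  have key3 := mul_le_mul_of_nonneg_left key1 (g_pos 1).le
  rw [cv_eq H.cont, cv_eq H.cont, cv_eq H.cont, cv_eq H.cont]
  linarith

/-- The Gaussian belongs to every class. -/
lemma Cls.gauss {c ε : ℝ} (hε : 0 < ε) : Cls c (fun u => Real.exp (-u ^ 2 / (2 * ε))) := by
  have hcont : Continuous (fun u : ℝ => Real.exp (-u ^ 2 / (2 * ε))) := by fun_prop
  refine ⟨hcont, fun x => by rw [neg_sq], ?_⟩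
  apply slope_of_deriv hcont (K' := fun v => -(v / ε) * Real.exp (-v ^ 2 / (2 * ε)))
  · intro v _
    have h1 : HasDerivAt (fun u : ℝ => -u ^ 2 / (2 * ε)) (-(v / ε)) v := by
      refine (((hasDerivAt_pow 2 v).neg).div_const (2 * ε)).congr_deriv ?_
      field_simp
      norm_num
    refine h1.exp.congr_deriv ?_
    ring
  · intro v v' hv hvv' _
    have h1 : Real.exp (-v' ^ 2 / (2 * ε)) ≤ Real.exp (-v ^ 2 / (2 * ε)) := by
      apply Real.exp_le_exp.mpr
      apply div_le_div_of_nonneg_right _ (by positivity)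
      nlinarith
    have h2 := mul_le_mul_of_nonneg_left h1 (show 0 ≤ v / ε * v' by
      have : 0 < v' := by linarith
      positivity)
    have e : v / ε * v' = v' / ε * v := by ring
    calc -(v / ε) * Real.exp (-v ^ 2 / (2 * ε)) * v' = -(v / ε * v' * Real.exp (-v ^ 2 / (2 * ε))) := by ring
      _ ≤ -(v / ε * v' * Real.exp (-v' ^ 2 / (2 * ε))) := by linarith
      _ = -(v' / ε) * Real.exp (-v' ^ 2 / (2 * ε)) * v := by rw [e]; ring

/-- The four point inequality used for the rotation. -/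
lemma Cls.four {c : ℝ} {h : ℝ → ℝ} (H : Cls c h) {a b x : ℝ} (hc : 0 ≤ c) (hcb : c ≤ b)
    (hba : b ≤ a) (hx0 : 0 ≤ x) (hx1 : x ≤ 1) :
    0 ≤ h (a * x - b) - h (a * x + b) - h (a - b * x) + h (a + b * x) := by
  have hb : 0 ≤ b := by linarith
  have ha : 0 ≤ a := by linarith
  have hax : 0 ≤ a * x := mul_nonneg ha hx0
  have hbx : 0 ≤ b * x := mul_nonneg hb hx0
  have hbx1 : b * x ≤ b := mul_le_of_le_one_right hb hx1
  have hax1 : a * x ≤ a := mul_le_of_le_one_right ha hx1
  have e1 : (a * x + b) ^ 2 - (a * x - b) ^ 2 = 4 * a * b * x := by ring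
  have e2 : (a + b * x) ^ 2 - (a - b * x) ^ 2 = 4 * a * b * x := by ring
  rcases (mul_nonneg (mul_nonneg ha hb) hx0).eq_or_lt with h0 | hpos
  · -- degenerate case
    have h4 : a = 0 ∨ b = 0 ∨ x = 0 := by
      rcases mul_eq_zero.mp h0.symm with h' | h'
      · rcases mul_eq_zero.mp h' with h'' | h''
        · exact Or.inl h''
        · exact Or.inr (Or.inl h'')
      · exact Or.inr (Or.inr h')
    rcases h4 with h4 | h4 | h4
    · have hb0 : b = 0 := by linarith
      subst h4; subst hb0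
      simp
    · subst h4
      simp
    · subst h4
      simp only [mul_zero, zero_sub, zero_add, sub_zero, add_zero]
      rw [H.even]
      linarith
  · have hs := H.slope (u₁ := |a * x - b|) (u₂ := a * x + b) (u₃ := a - b * x) (u₄ := a + b * x)
      (abs_nonneg _) (abs_le.mpr ⟨by linarith, by linarith⟩)
      (abs_le.mpr ⟨by nlinarith, by nlinarith⟩) (by linarith) (by rw [sq_abs]; linarith)
      (by
        rcases le_total (a * x) b with hle | hle
        · rw [abs_of_nonpos (by linarith)]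
          nlinarith
        · rw [abs_of_nonneg (by linarith)]
          -- a x ≥ b
          have hx : 0 < x := by
            rcases hx0.eq_or_lt with e | e
            · rw [← e] at hpos; simp at hpos
            · exact e
          have : 0 ≤ (1 - x) ^ 2 * b := by positivity
          nlinarith [mul_nonneg hx.le (sub_nonneg.mpr hle), mul_nonneg (sub_nonneg.mpr hx1) (sub_nonneg.mpr hba)])
      (by nlinarith)
    rw [H.abs, sq_abs, e1, e2] at hs
    have hs2 : 0 ≤ (4 * a * b * x) * ((h (a * x - b) - h (a * x + b)) - (h (a - b * x) - h (a + b * x))) := by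
      linarith
    have hpos' : 0 < 4 * a * b * x := by nlinarith
    have := (mul_nonneg_iff_of_pos_left hpos').mp hs2
    linarith

end Helper58.GC
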