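import Pool.Agent.Helper58.GC.Mix
import Pool.Agent.Helper58.GC.Phi

/-!
# Oscillation bound `|sin u φ'(v) - sin v φ'(u)| ≤ 4c (u-v)/v`
-/

namespace Helper58.GC

open Set MeasureTheory Helper64.CubeGauss

lemma g_one_eq : 2 * g 1 = c * P := by
  unfold c g
  have := P_pos.ne'
  field_simp

/-- `v φ'(v) = c cos v - P⁻¹ ∫ cos(v x)(1-x²) g`. -/
lemma mul_φ'_eq (v : ℝ) :
    v * φ' v = c * Real.cos v - P⁻¹ * ∫ x in (-1 : ℝ)..1, Real.cos (v * x) * ((1 - x ^ 2) * g x) := by
  have hg := g_cont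
  have hparts : ∫ x in (-1 : ℝ)..1, (Real.cos (v * x) * ((1 - x ^ 2) * g x)
      - v * (x * Real.sin (v * x) * g x))
      = Real.cos (v * 1) * (1 * g 1) - Real.cos (v * (-1)) * (-1 * g (-1)) := by
    apply intervalIntegral.integral_eq_sub_of_hasDerivAt (f := fun x => Real.cos (v * x) * (x * g x))
    · intro x _
      have h1 : HasDerivAt (fun x : ℝ => v * x) v x := by simpa using (hasDerivAt_id x).const_mul v
      have h2 := h1.cos.mul ((hasDerivAt_id x).mul (g_hasDeriv x))
      refine h2.congr_deriv ?_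
      simp only [id, Pi.mul_apply]
      ring
    · exact (by fun_prop : Continuous fun x => (Real.cos (v * x) * ((1 - x ^ 2) * g x)
      - v * (x * Real.sin (v * x) * g x))).intervalIntegrable _ _
  rw [intervalIntegral.integral_sub
    ((by fun_prop : Continuous fun x => Real.cos (v * x) * ((1 - x ^ 2) * g x)).intervalIntegrable _ _)
    ((by fun_prop : Continuous fun x => v * (x * Real.sin (v * x) * g x)).intervalIntegrable _ _),
    intervalIntegral.integral_const_mul, mul_one, mul_neg_one, Real.cos_neg, g_even] at hparts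
  have h3 : v * (∫ x in (-1 : ℝ)..1, x * Real.sin (v * x) * g x)
      = (∫ x in (-1 : ℝ)..1, Real.cos (v * x) * ((1 - x ^ 2) * g x)) - c * P * Real.cos v := by
    rw [← g_one_eq]; linarith
  unfold φ'
  have hP := P_pos.ne'
  have e : v * (-(∫ x in (-1 : ℝ)..1, x * Real.sin (v * x) * g x) / P)
      = -(v * (∫ x in (-1 : ℝ)..1, x * Real.sin (v * x) * g x)) / P := by ring
  rw [e, h3]
  field_simp
  ring

lemma integral_one_sub_sq : ∫ x in (-1 : ℝ)..1, (1 - x ^ 2) * g x = c * P := by
  have hg := g_cont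
  have hparts : ∫ x in (-1 : ℝ)..1, ((1 - x ^ 2) * g x) = 1 * g 1 - -1 * g (-1) := by
    apply intervalIntegral.integral_eq_sub_of_hasDerivAt (f := fun x => x * g x)
    · intro x _
      refine ((hasDerivAt_id x).mul (g_hasDeriv x)).congr_deriv ?_
      simp only [id]
      ring
    · exact (by fun_prop : Continuous fun x => ((1 - x ^ 2) * g x)).intervalIntegrable _ _
  rw [hparts, g_even, ← g_one_eq]
  ring

lemma abs_mul_φ'_le (v : ℝ) : |v * φ' v| ≤ 2 * c := by
  have hg := g_cont
  rw [mul_φ'_eq]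
  have h1 : |∫ x in (-1 : ℝ)..1, Real.cos (v * x) * ((1 - x ^ 2) * g x)| ≤ c * P := by
    rw [← integral_one_sub_sq, ← Real.norm_eq_abs]
    apply intervalIntegral.norm_integral_le_of_norm_le (by norm_num)
    · filter_upwards with x hx
      rw [norm_mul, Real.norm_eq_abs, Real.norm_eq_abs]
      have h2 : 0 ≤ (1 - x ^ 2) * g x := by
        apply mul_nonneg _ (g_pos x).le
        nlinarith [hx.1, hx.2]
      rw [abs_of_nonneg h2]
      exact mul_le_of_le_one_left h2 (Real.abs_cos_le_one _)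
    · exact (by fun_prop : Continuous fun x => ((1 - x ^ 2) * g x)).intervalIntegrable _ _
  have h3 : |P⁻¹ * ∫ x in (-1 : ℝ)..1, Real.cos (v * x) * ((1 - x ^ 2) * g x)| ≤ c := by
    rw [abs_mul, abs_of_pos (inv_pos.mpr P_pos)]
    calc P⁻¹ * |∫ x in (-1 : ℝ)..1, Real.cos (v * x) * ((1 - x ^ 2) * g x)| ≤ P⁻¹ * (c * P) :=
          mul_le_mul_of_nonneg_left h1 (inv_pos.mpr P_pos).le
      _ = c := by have := P_pos.ne'; field_simp
  have h4 : |c * Real.cos v| ≤ c := by
    rw [abs_mul, abs_of_pos c_pos]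
    exact mul_le_of_le_one_right c_pos.le (Real.abs_cos_le_one v)
  calc _ ≤ |c * Real.cos v| + |P⁻¹ * ∫ x in (-1 : ℝ)..1, Real.cos (v * x) * ((1 - x ^ 2) * g x)| :=
        abs_sub _ _
    _ ≤ 2 * c := by linarith

/-- The second derivative of `φ`. -/
noncomputable def φ'' (w : ℝ) : ℝ := c * Real.cos w - φ w - w * φ' w

lemma hasDerivAt_φ' (w : ℝ) : HasDerivAt φ' (φ'' w) w := by
  have e : φ' = fun t => c * Real.sin t - t * φ t := by
    ext t; exact φ'_eq t
  have h1 : HasDerivAt (fun t => c * Real.sin t - t * φ t)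
      (c * Real.cos w - (1 * φ w + w * φ' w)) w :=
    ((Real.hasDerivAt_sin w).const_mul c).sub ((hasDerivAt_id w).mul (hasDerivAt_φ_aux w))
  rw [e]
  refine h1.congr_deriv ?_
  unfold φ''
  rw [φ'_eq]
  ring

lemma mul_φ''_eq (w : ℝ) :
    w * φ'' w = -(c * Real.sin w) + P⁻¹ * ∫ x in (-1 : ℝ)..1, Real.sin (w * x) * ((2 * x - x ^ 3) * g x) := by
  have hg := g_cont
  have hP := P_pos.ne'
  -- φ'' w = -P⁻¹ ∫ x² cos g
  have h1 : φ'' w = -(P⁻¹ * ∫ x in (-1 : ℝ)..1, x ^ 2 * Real.cos (w * x) * g x) := by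
    unfold φ''
    rw [mul_φ'_eq]
    have h2 : ∫ x in (-1 : ℝ)..1, Real.cos (w * x) * ((1 - x ^ 2) * g x)
        = (∫ x in (-1 : ℝ)..1, Real.cos (w * x) * g x) - ∫ x in (-1 : ℝ)..1, x ^ 2 * Real.cos (w * x) * g x := by
      rw [← intervalIntegral.integral_sub]
      · apply intervalIntegral.integral_congr
        intro x _
        simp only
        ring
      · exact (by fun_prop : Continuous fun x => Real.cos (w * x) * g x).intervalIntegrable _ _
      · exact (by fun_prop : Continuous fun x => x ^ 2 * Real.cos (w * x) * g x).intervalIntegrable _ _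
    rw [h2]
    unfold φ
    field_simp
    ring
  have hparts : ∫ x in (-1 : ℝ)..1, (Real.sin (w * x) * ((2 * x - x ^ 3) * g x)
      + w * (x ^ 2 * Real.cos (w * x) * g x))
      = Real.sin (w * 1) * (1 ^ 2 * g 1) - Real.sin (w * (-1)) * ((-1) ^ 2 * g (-1)) := by
    apply intervalIntegral.integral_eq_sub_of_hasDerivAt (f := fun x => Real.sin (w * x) * (x ^ 2 * g x))
    · intro x _
      have h1 : HasDerivAt (fun x : ℝ => w * x) w x := by simpa using (hasDerivAt_id x).const_mul w
      have h2 := h1.sin.mul ((hasDerivAt_pow 2 x).mul (g_hasDeriv x))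
      refine h2.congr_deriv ?_
      norm_num
      ring
    · exact (by fun_prop : Continuous fun x => (Real.sin (w * x) * ((2 * x - x ^ 3) * g x)
      + w * (x ^ 2 * Real.cos (w * x) * g x))).intervalIntegrable _ _
  rw [intervalIntegral.integral_add
    ((by fun_prop : Continuous fun x => Real.sin (w * x) * ((2 * x - x ^ 3) * g x)).intervalIntegrable _ _)
    ((by fun_prop : Continuous fun x => w * (x ^ 2 * Real.cos (w * x) * g x)).intervalIntegrable _ _),
    intervalIntegral.integral_const_mul, mul_one, mul_neg_one, Real.sin_neg, g_even] at hparts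
  have h3 : w * (∫ x in (-1 : ℝ)..1, x ^ 2 * Real.cos (w * x) * g x)
      = c * P * Real.sin w - ∫ x in (-1 : ℝ)..1, Real.sin (w * x) * ((2 * x - x ^ 3) * g x) := by
    rw [← g_one_eq]; linarith
  rw [h1]
  have e : w * -(P⁻¹ * ∫ x in (-1 : ℝ)..1, x ^ 2 * Real.cos (w * x) * g x)
      = -(P⁻¹ * (w * ∫ x in (-1 : ℝ)..1, x ^ 2 * Real.cos (w * x) * g x)) := by ring
  rw [e, h3]
  field_simp
  ring

lemma integral_two_x : ∫ x in (-1 : ℝ)..1, |2 * x - x ^ 3| * g x = c * P := by
  have hg := g_cont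
  have hc : Continuous fun x : ℝ => |2 * x - x ^ 3| * g x := by fun_prop
  rw [← intervalIntegral.integral_add_adjacent_intervals (b := 0)
    (hc.intervalIntegrable _ _) (hc.intervalIntegrable _ _)]
  have h1 : ∫ x in (0 : ℝ)..1, |2 * x - x ^ 3| * g x = g 1 := by
    have h2 : ∫ x in (0 : ℝ)..1, |2 * x - x ^ 3| * g x = ∫ x in (0 : ℝ)..1, (2 * x - x ^ 3) * g x := by
      apply intervalIntegral.integral_congr
      intro x hx
      rw [uIcc_of_le (by norm_num)] at hx
      simp only
      rw [abs_of_nonneg]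
      nlinarith [hx.1, hx.2, mul_nonneg hx.1 (sq_nonneg x), mul_nonneg hx.1 (mul_nonneg hx.1 (sub_nonneg.mpr hx.2))]
    rw [h2]
    have hparts : ∫ x in (0 : ℝ)..1, ((2 * x - x ^ 3) * g x) = 1 ^ 2 * g 1 - 0 ^ 2 * g 0 := by
      apply intervalIntegral.integral_eq_sub_of_hasDerivAt (f := fun x => x ^ 2 * g x)
      · intro x _
        refine ((hasDerivAt_pow 2 x).mul (g_hasDeriv x)).congr_deriv ?_
        norm_num
        ring
      · exact (by fun_prop : Continuous fun x => ((2 * x - x ^ 3) * g x)).intervalIntegrable _ _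
    rw [hparts]
    ring
  have h3 : ∫ x in (-1 : ℝ)..0, |2 * x - x ^ 3| * g x = ∫ x in (0 : ℝ)..1, |2 * x - x ^ 3| * g x := by
    have := intervalIntegral.integral_comp_neg (a := 0) (b := 1) (fun x => |2 * x - x ^ 3| * g x)
    rw [neg_zero] at this
    rw [← this]
    apply intervalIntegral.integral_congr
    intro x _
    simp only
    rw [g_even, ← abs_neg]
    congr 2
    ring
  rw [h3, h1, ← g_one_eq]
  ring

lemma abs_mul_φ''_le (w : ℝ) : |w * φ'' w| ≤ 2 * c := by
  have hg := g_cont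
  rw [mul_φ''_eq]
  have h1 : |∫ x in (-1 : ℝ)..1, Real.sin (w * x) * ((2 * x - x ^ 3) * g x)| ≤ c * P := by
    rw [← integral_two_x, ← Real.norm_eq_abs]
    apply intervalIntegral.norm_integral_le_of_norm_le (by norm_num)
    · filter_upwards with x hx
      rw [norm_mul, norm_mul, Real.norm_eq_abs, Real.norm_eq_abs, Real.norm_eq_abs,
        abs_of_pos (g_pos x)]
      exact mul_le_of_le_one_left (mul_nonneg (abs_nonneg _) (g_pos x).le) (Real.abs_sin_le_one _)
    · exact (by fun_prop : Continuous fun x => (|2 * x - x ^ 3| * g x)).intervalIntegrable _ _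
  have h3 : |P⁻¹ * ∫ x in (-1 : ℝ)..1, Real.sin (w * x) * ((2 * x - x ^ 3) * g x)| ≤ c := by
    rw [abs_mul, abs_of_pos (inv_pos.mpr P_pos)]
    calc P⁻¹ * |∫ x in (-1 : ℝ)..1, Real.sin (w * x) * ((2 * x - x ^ 3) * g x)| ≤ P⁻¹ * (c * P) :=
          mul_le_mul_of_nonneg_left h1 (inv_pos.mpr P_pos).le
      _ = c := by have := P_pos.ne'; field_simp
  have h4 : |-(c * Real.sin w)| ≤ c := by
    rw [abs_neg, abs_mul, abs_of_pos c_pos]
    exact mul_le_of_le_one_right c_pos.le (Real.abs_sin_le_one w)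
  calc _ ≤ |-(c * Real.sin w)| + |P⁻¹ * ∫ x in (-1 : ℝ)..1, Real.sin (w * x) * ((2 * x - x ^ 3) * g x)| :=
        abs_add_le _ _
    _ ≤ 2 * c := by linarith

/-- The oscillation bound. -/
lemma osc_bound {u v : ℝ} (hv : 0 < v) (hvu : v ≤ u) :
    |Real.sin u * φ' v - Real.sin v * φ' u| ≤ 4 * c / v * (u - v) := by
  have hc := c_pos
  set H : ℝ → ℝ := fun w => Real.sin w * φ' v - Real.sin v * φ' w with hH
  have hd : ∀ w ∈ Icc v u, HasDerivWithinAt H (Real.cos w * φ' v - Real.sin v * φ'' w) (Icc v u) w := by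
    intro w _
    exact (((Real.hasDerivAt_sin w).mul_const _).sub ((hasDerivAt_φ' w).const_mul _)).hasDerivWithinAt
  have hb : ∀ w ∈ Icc v u, ‖Real.cos w * φ' v - Real.sin v * φ'' w‖ ≤ 4 * c / v := by
    intro w hw
    have hw0 : 0 < w := lt_of_lt_of_le hv hw.1
    have h1 : |φ' v| ≤ 2 * c / v := by
      rw [le_div_iff₀ hv]
      have := abs_mul_φ'_le v
      rw [abs_mul, abs_of_pos hv] at this
      linarith
    have h2 : |φ'' w| ≤ 2 * c / v := by
      have h3 : |φ'' w| ≤ 2 * c / w := by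
        rw [le_div_iff₀ hw0]
        have := abs_mul_φ''_le w
        rw [abs_mul, abs_of_pos hw0] at this
        linarith
      refine h3.trans ?_
      apply div_le_div_of_nonneg_left (by positivity) hv hw.1
    rw [Real.norm_eq_abs]
    calc |Real.cos w * φ' v - Real.sin v * φ'' w|
        ≤ |Real.cos w * φ' v| + |Real.sin v * φ'' w| := abs_sub _ _
      _ ≤ 1 * (2 * c / v) + 1 * (2 * c / v) := by
          rw [abs_mul, abs_mul]
          gcongr
          · exact Real.abs_cos_le_one _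
          · exact Real.abs_sin_le_one _
      _ = 4 * c / v := by ring
  have key := (convex_Icc v u).norm_image_sub_le_of_norm_hasDerivWithin_le hd hb
    (left_mem_Icc.mpr hvu) (right_mem_Icc.mpr hvu)
  have h0 : H v = 0 := by simp only [hH]; ring
  rw [h0, sub_zero, Real.norm_eq_abs, Real.norm_eq_abs, abs_of_nonneg (sub_nonneg.mpr hvu)] at key
  exact key

end Helper58.GC
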