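import Pool.Agent.Helper58.GC.Gstar
import Pool.Agent.Helper58.GC.Gain
import Pool.Agent.Helper58.GC.JJ
import Pool.Agent.Helper64.CubeGauss.Setup

/-!
# Equalising two coordinates increases the integral (below the weight threshold)
-/

namespace Helper58.GC

open Set MeasureTheory Helper64.CubeGauss

lemma Rst_disj {ι : Type*} (S : Finset ι) (ρ : ι → ℝ) (a b u : ℝ) :
    Rst (Finset.disjSum (Finset.univ : Finset (Fin 2)) S) (Sum.elim ![a, b] ρ) u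
      = φ (√a * u) * φ (√b * u) * Rst S ρ u := by
  unfold Rst
  rw [Finset.prod_disjSum]
  simp [Fin.prod_univ_two]

lemma sum_disj {ι : Type*} (S : Finset ι) (ρ : ι → ℝ) (a b : ℝ) :
    ∑ i ∈ Finset.disjSum (Finset.univ : Finset (Fin 2)) S, Sum.elim ![a, b] ρ i
      = a + b + ∑ i ∈ S, ρ i := by
  rw [Finset.sum_disjSum]
  simp [Fin.sum_univ_two]

lemma jsum_A : jsum 3400 = 3213679730544170800 := by decide +kernel
lemma jsum_B : jsum 5250 = 85368913878036733 := by decide +kernel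

lemma exp_A : Real.exp (-(2.4066 * 3.4)) ≤ 0.0002808 := by
  rw [Real.exp_neg, inv_le_comm₀ (Real.exp_pos _) (by norm_num)]
  have h := Real.exp_one_gt_d9
  have e : Real.exp (2.4066 * 3.4) = Real.exp 1 ^ 8 * Real.exp 0.18244 := by
    rw [← Real.exp_nat_mul, ← Real.exp_add]; norm_num
  have h2 := Real.quadratic_le_exp_of_nonneg (show (0 : ℝ) ≤ 0.18244 by norm_num)
  rw [e]
  calc (0.0002808 : ℝ)⁻¹ ≤ 2.7182818283 ^ 8 * (1 + 0.18244 + 0.18244 ^ 2 / 2) := by norm_num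
    _ ≤ _ := by gcongr

lemma exp_B : Real.exp (-(2.4066 * 5.25)) ≤ 0.0000035 := by
  rw [Real.exp_neg, inv_le_comm₀ (Real.exp_pos _) (by norm_num)]
  have h := Real.exp_one_gt_d9
  have e : Real.exp (2.4066 * 5.25) = Real.exp 1 ^ 12 * Real.exp 0.63465 := by
    rw [← Real.exp_nat_mul, ← Real.exp_add]; norm_num
  have h2 := Real.quadratic_le_exp_of_nonneg (show (0 : ℝ) ≤ 0.63465 by norm_num)
  rw [e]
  calc (0.0000035 : ℝ)⁻¹ ≤ 2.7182818283 ^ 12 * (1 + 0.63465 + 0.63465 ^ 2 / 2) := by norm_num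
    _ ≤ _ := by gcongr

lemma rest_tail {ι : Type*} (S : Finset ι) (ρ : ι → ℝ) (h0 : ∀ i ∈ S, 0 ≤ ρ i)
    (h1 : ∀ i ∈ S, ρ i ≤ 1) (hQ : 3.4 ≤ ∑ i ∈ S, ρ i) :
    IntegrableOn (fun u => |Rst S ρ u|) (Ioi (√12)) ∧ ∫ u in Ioi (√12), |Rst S ρ u|
      ≤ Real.exp (-(1.7467 * ((∑ i ∈ S, ρ i) - 3.4))) * 0.00415 := by
  have h := tail_int S ρ (K := 3400) (by norm_num) h0 h1 (by norm_num; linarith)
  refine ⟨h.1, h.2.trans ?_⟩
  rw [jsum_A]
  have e1 : ((3400 : ℕ) : ℝ) / 1000 = 3.4 := by norm_num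
  rw [e1]
  apply mul_le_mul_of_nonneg_left _ (Real.exp_pos _).le
  have := exp_A
  push_cast
  linarith

lemma full_tail {ι : Type*} (S : Finset ι) (ρ : ι → ℝ) (h0 : ∀ i ∈ S, 0 ≤ ρ i)
    (h1 : ∀ i ∈ S, ρ i ≤ 1) (hQ : 5.25 ≤ ∑ i ∈ S, ρ i) :
    IntegrableOn (fun u => |Rst S ρ u|) (Ioi (√12)) ∧ ∫ u in Ioi (√12), |Rst S ρ u|
      ≤ Real.exp (-(1.7467 * ((∑ i ∈ S, ρ i) - 5.25))) * 0.000092 := by
  have h := tail_int S ρ (K := 5250) (by norm_num) h0 h1 (by norm_num; linarith)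
  refine ⟨h.1, h.2.trans ?_⟩
  rw [jsum_B]
  have e1 : ((5250 : ℕ) : ℝ) / 1000 = 5.25 := by norm_num
  rw [e1]
  apply mul_le_mul_of_nonneg_left _ (Real.exp_pos _).le
  have := exp_B
  push_cast
  linarith

lemma exp_le_rpow {y w : ℝ} (hy : 0 ≤ y) (hw : 1.39736 * y ≤ w) : Real.exp (-w) ≤ 0.28 ^ y := by
  rw [Real.rpow_def_of_pos (by norm_num)]
  apply Real.exp_le_exp.mpr
  have h : -1.39736 ≤ Real.log 0.28 := by
    rw [Real.le_log_iff_exp_le (by norm_num), Real.exp_neg, inv_le_comm₀ (Real.exp_pos _) (by norm_num)]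
    have h := Real.exp_one_gt_d9
    have e : Real.exp 1.39736 = Real.exp 1 * Real.exp 0.39736 := by
      rw [← Real.exp_add]; norm_num
    have h2 := Real.quadratic_le_exp_of_nonneg (show (0 : ℝ) ≤ 0.39736 by norm_num)
    rw [e]
    calc (0.28 : ℝ)⁻¹ ≤ 2.7182818283 * (1 + 0.39736 + 0.39736 ^ 2 / 2) := by norm_num
      _ ≤ _ := by gcongr
  nlinarith

lemma sqrt12_lt_z1 : √12 < z1 := by
  have h := z1_gt
  rw [Real.sqrt_lt' (by linarith)]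
  nlinarith

lemma le_sqrt12 : (2.6 : ℝ) ≤ √12 := by
  rw [Real.le_sqrt (by norm_num) (by norm_num)]
  norm_num

lemma φ_ge_28 {u : ℝ} (h0 : 0 ≤ u) (h1 : u ≤ 2.6) : 0.28 ≤ φ u := by
  have h := F_lower 26 (by norm_num) (by norm_num)
  have e : ((26 : ℕ) : ℝ) / 10 = 2.6 := by norm_num
  rw [e] at h
  have hF : ((Ff 26 : ℕ) : ℝ) = 2846 := by norm_num [Ff, Ft]
  rw [hF] at h
  have hz := z1_gt
  have h2 := φ_antitone ⟨h0, by linarith⟩ ⟨by norm_num, by linarith⟩ h1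
  linarith

/-- The remaining product dominates the power of `φ`. -/
lemma Rst_ge {ι : Type*} (S : Finset ι) (ρ : ι → ℝ) (h0 : ∀ i ∈ S, 0 ≤ ρ i)
    (h1 : ∀ i ∈ S, ρ i ≤ 1) {u : ℝ} (hu : 0 ≤ u) (hz : u < z1) :
    φ u ^ (∑ i ∈ S, ρ i) ≤ Rst S ρ u := by
  have hp := φ_pos hu hz
  rw [Real.rpow_sum_of_pos hp]
  exact Finset.prod_le_prod (fun i _ => (Real.rpow_pos_of_pos hp _).le)
    (fun i hi => star (h0 i hi) (h1 i hi) hu hz)

/-- Pointwise gain. -/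
lemma gain_pt {ι : Type*} (S : Finset ι) (ρ : ι → ℝ) (h0 : ∀ i ∈ S, 0 ≤ ρ i)
    (h1 : ∀ i ∈ S, ρ i ≤ 1) {b : ℝ} (hb0 : 0 ≤ b) (hb1 : b < 1) {u : ℝ} (hu : 0 ≤ u) (hz : u < z1) :
    (1 - b) ^ 2 * (φ u ^ (1 + b + ∑ i ∈ S, ρ i) * (1 - Real.exp (-(c4 / 2 * u ^ 4))))
      ≤ (φ (√((1 + b) / 2) * u) ^ 2 - φ u * φ (√b * u)) * Rst S ρ u := by
  have hp := φ_pos hu hz
  have hc4 : 0 ≤ c4 := by have := c4_bounds.1; linarith
  have hm0 : 0 ≤ (1 + b) / 2 := by linarith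
  have hm1 : (1 + b) / 2 ≤ 1 := by linarith
  have hsb : √b * u < z1 := by
    refine lt_of_le_of_lt ?_ hz
    exact mul_le_of_le_one_left hu (Real.sqrt_le_one.mpr hb1.le)
  have hmg := midpoint_gain (x := 1) (y := b) (t := u) (by norm_num) hb0 hu (by simpa using hz) hsb
  rw [Real.sqrt_one, one_mul] at hmg
  have hstar := star hm0 hm1 hu hz
  have hkey := one_sub_exp_mul (κ := (1 - b) ^ 2) (y := c4 / 2 * u ^ 4) (by positivity) (by nlinarith)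
  have e1 : (1 - b) ^ 2 * (c4 / 2 * u ^ 4) = c4 / 2 * (1 - b) ^ 2 * u ^ 4 := by ring
  rw [e1] at hkey
  have hR := Rst_ge S ρ h0 h1 hu hz
  have hR0 : 0 ≤ φ u ^ (∑ i ∈ S, ρ i) := (Real.rpow_pos_of_pos hp _).le
  have hφm : φ u ^ (1 + b) ≤ φ (√((1 + b) / 2) * u) ^ 2 := by
    have h3 : (φ u ^ ((1 + b) / 2)) ^ 2 ≤ φ (√((1 + b) / 2) * u) ^ 2 :=
      pow_le_pow_left₀ (Real.rpow_pos_of_pos hp _).le hstar 2
    refine le_trans (le_of_eq ?_) h3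
    rw [← Real.rpow_natCast, ← Real.rpow_mul hp.le]
    congr 1
    push_cast
    ring
  have hexp1 : Real.exp (-(c4 / 2 * u ^ 4)) ≤ 1 := Real.exp_le_one_iff.mpr (by
    have : 0 ≤ c4 / 2 * u ^ 4 := by positivity
    linarith)
  have hy0 : 0 ≤ (1 - b) ^ 2 * (1 - Real.exp (-(c4 / 2 * u ^ 4))) :=
    mul_nonneg (sq_nonneg _) (by linarith)
  have hΔ : φ u ^ (1 + b) * ((1 - b) ^ 2 * (1 - Real.exp (-(c4 / 2 * u ^ 4))))
      ≤ φ (√((1 + b) / 2) * u) ^ 2 - φ u * φ (√b * u) := by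
    calc φ u ^ (1 + b) * ((1 - b) ^ 2 * (1 - Real.exp (-(c4 / 2 * u ^ 4))))
        ≤ φ (√((1 + b) / 2) * u) ^ 2 * (1 - Real.exp (-(c4 / 2 * (1 - b) ^ 2 * u ^ 4))) :=
          mul_le_mul hφm hkey hy0 (sq_nonneg _)
      _ ≤ _ := by linarith
  have hΔ0 : 0 ≤ φ u ^ (1 + b) * ((1 - b) ^ 2 * (1 - Real.exp (-(c4 / 2 * u ^ 4)))) :=
    mul_nonneg (Real.rpow_pos_of_pos hp _).le hy0
  have := mul_le_mul hΔ hR hR0 (hΔ0.trans hΔ)
  refine le_trans (le_of_eq ?_) this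
  rw [Real.rpow_add hp (1 + b)]
  ring

lemma cont_gain {ι : Type*} (S : Finset ι) (ρ : ι → ℝ) (b : ℝ) :
    Continuous fun u => (φ (√((1 + b) / 2) * u) ^ 2 - φ u * φ (√b * u)) * Rst S ρ u := by
  have h1 : Continuous fun u => φ (√((1 + b) / 2) * u) := φ_cont.comp (by fun_prop)
  have h2 : Continuous fun u => φ (√b * u) := φ_cont.comp (by fun_prop)
  exact ((h1.pow 2).sub (φ_cont.mul h2)).mul (Rst_cont S ρ)

/-- The head. -/
lemma head_bound {ι : Type*} (S : Finset ι) (ρ : ι → ℝ) (h0 : ∀ i ∈ S, 0 ≤ ρ i)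
    (h1 : ∀ i ∈ S, ρ i ≤ 1) {b : ℝ} (hb0 : 0 ≤ b) (hb1 : b < 1)
    (hs : 5.25 ≤ 1 + b + ∑ i ∈ S, ρ i) :
    (1 - b) ^ 2 * (0.28 ^ (1 + b + (∑ i ∈ S, ρ i) - 5.25)) * 0.0013
      ≤ ∫ u in (0 : ℝ)..(√12), (φ (√((1 + b) / 2) * u) ^ 2 - φ u * φ (√b * u)) * Rst S ρ u := by
  set f : ℝ → ℝ := fun u => (φ (√((1 + b) / 2) * u) ^ 2 - φ u * φ (√b * u)) * Rst S ρ u with hf
  have hcont : Continuous f := cont_gain S ρ b
  have hz := sqrt12_lt_z1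
  have h26 := le_sqrt12
  have hc4 : 0 ≤ c4 := by have := c4_bounds.1; linarith
  have hG0 : ∀ u, 0 ≤ u → u < z1 → 0 ≤ φ u ^ (1 + b + ∑ i ∈ S, ρ i) * (1 - Real.exp (-(c4 / 2 * u ^ 4))) := by
    intro u hu0 hu1
    have hexp1 : Real.exp (-(c4 / 2 * u ^ 4)) ≤ 1 := Real.exp_le_one_iff.mpr (by
      have : 0 ≤ c4 / 2 * u ^ 4 := by positivity
      linarith)
    exact mul_nonneg (Real.rpow_pos_of_pos (φ_pos hu0 hu1) _).le (by linarith)
  have hnn : ∀ u, 0 ≤ u → u < z1 → 0 ≤ f u := by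
    intro u hu0 hu1
    exact le_trans (mul_nonneg (sq_nonneg _) (hG0 u hu0 hu1)) (gain_pt S ρ h0 h1 hb0 hb1 hu0 hu1)
  have hsplit : ∫ u in (0 : ℝ)..(√12), f u = (∫ u in (0 : ℝ)..2.6, f u) + ∫ u in (2.6 : ℝ)..(√12), f u :=
    (intervalIntegral.integral_add_adjacent_intervals (hcont.intervalIntegrable _ _)
      (hcont.intervalIntegrable _ _)).symm
  rw [hsplit]
  have h2 : 0 ≤ ∫ u in (2.6 : ℝ)..(√12), f u :=
    intervalIntegral.integral_nonneg h26 (fun u hu => hnn u (by linarith [hu.1]) (by linarith [hu.2]))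
  have h3 : ∫ u in (0 : ℝ)..2.6, (1 - b) ^ 2 * (0.28 ^ (1 + b + (∑ i ∈ S, ρ i) - 5.25))
      * (φ u ^ (21 / 4 : ℝ) * (1 - Real.exp (-(c4 / 2 * u ^ 4)))) ≤ ∫ u in (0 : ℝ)..2.6, f u := by
    apply intervalIntegral.integral_mono_on (by norm_num)
    · exact (continuous_const.mul continuous_G).intervalIntegrable _ _
    · exact hcont.intervalIntegrable _ _
    · intro u hu
      have hu0 := hu.1
      have huz : u < z1 := by linarith [hu.2]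
      refine le_trans ?_ (gain_pt S ρ h0 h1 hb0 hb1 hu0 huz)
      rw [mul_assoc]
      apply mul_le_mul_of_nonneg_left _ (sq_nonneg _)
      rw [← mul_assoc]
      have hexp1 : Real.exp (-(c4 / 2 * u ^ 4)) ≤ 1 := Real.exp_le_one_iff.mpr (by
        have : 0 ≤ c4 / 2 * u ^ 4 := by positivity
        linarith)
      apply mul_le_mul_of_nonneg_right _ (by linarith)
      have e : 1 + b + ∑ i ∈ S, ρ i = (1 + b + (∑ i ∈ S, ρ i) - 5.25) + 21 / 4 := by norm_num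
      have hp := φ_pos hu0 huz
      rw [show φ u ^ (1 + b + ∑ i ∈ S, ρ i) = φ u ^ ((1 + b + (∑ i ∈ S, ρ i) - 5.25) + 21 / 4) by
        rw [← e], Real.rpow_add hp]
      apply mul_le_mul_of_nonneg_right _ (Real.rpow_pos_of_pos hp _).le
      exact Real.rpow_le_rpow (by norm_num) (φ_ge_28 hu0 hu.2) (by linarith)
  rw [intervalIntegral.integral_const_mul] at h3
  have hG := G_lower
  have hpos : 0 ≤ (1 - b) ^ 2 * ((0.28 : ℝ) ^ (1 + b + (∑ i ∈ S, ρ i) - 5.25)) := by positivity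
  have h4 := mul_le_mul_of_nonneg_left hG hpos
  linarith

end Helper58.GC
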