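import Pool.Agent.Helper58.GC.Pair

/-!
# Lemma P: equalising a pair strictly increases the integral
-/

namespace Helper58.GC

open Set MeasureTheory Helper64.CubeGauss

lemma Rst_even {ι : Type*} (S : Finset ι) (ρ : ι → ℝ) (u : ℝ) : Rst S ρ |u| = Rst S ρ u := by
  unfold Rst
  exact Finset.prod_congr rfl fun i _ => φ_mul_abs _ _

lemma φ_abs' (u : ℝ) : φ |u| = φ u := by
  have := φ_mul_abs 1 u
  simpa using this

/-- integrability of the products on the half line -/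
lemma integrableOn_pair {ι : Type*} (S : Finset ι) (ρ : ι → ℝ) (h0 : ∀ i ∈ S, 0 ≤ ρ i)
    (h1 : ∀ i ∈ S, ρ i ≤ 1) {a b : ℝ} (ha0 : 0 ≤ a) (ha1 : a ≤ 1) (hb0 : 0 ≤ b) (hb1 : b ≤ 1)
    (hs : 5.25 ≤ a + b + ∑ i ∈ S, ρ i) :
    IntegrableOn (fun u => φ (√a * u) * φ (√b * u) * Rst S ρ u) (Ioi 0) ∧
    IntegrableOn (fun u => |φ (√a * u) * φ (√b * u) * Rst S ρ u|) (Ioi (√12)) ∧
    ∫ u in Ioi (√12), |φ (√a * u) * φ (√b * u) * Rst S ρ u|
      ≤ Real.exp (-(1.7467 * (a + b + (∑ i ∈ S, ρ i) - 5.25))) * 0.000092 := by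
  have h0' : ∀ i ∈ Finset.disjSum (Finset.univ : Finset (Fin 2)) S, 0 ≤ Sum.elim ![a, b] ρ i := by
    intro i hi
    rcases i with i | i
    · fin_cases i <;> simp [ha0, hb0]
    · simp only [Sum.elim_inr]
      exact h0 i (by simpa using hi)
  have h1' : ∀ i ∈ Finset.disjSum (Finset.univ : Finset (Fin 2)) S, Sum.elim ![a, b] ρ i ≤ 1 := by
    intro i hi
    rcases i with i | i
    · fin_cases i <;> simp [ha1, hb1]
    · simp only [Sum.elim_inr]
      exact h1 i (by simpa using hi)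
  have h := full_tail _ _ h0' h1' (by rw [sum_disj]; exact hs)
  rw [sum_disj] at h
  simp_rw [Rst_disj] at h
  have hcont : Continuous (fun u => φ (√a * u) * φ (√b * u) * Rst S ρ u) := by
    have h1 : Continuous fun u => φ (√a * u) := φ_cont.comp (by fun_prop)
    have h2 : Continuous fun u => φ (√b * u) := φ_cont.comp (by fun_prop)
    exact (h1.mul h2).mul (Rst_cont S ρ)
  refine ⟨?_, h.1, h.2⟩
  have hu : Ioc 0 (√12) ∪ Ioi (√12) = Ioi 0 := Ioc_union_Ioi_eq_Ioi (Real.sqrt_nonneg _)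
  rw [← hu]
  refine hcont.integrableOn_Ioc.union ?_
  exact (integrable_norm_iff hcont.aestronglyMeasurable).mp h.1

/-- Lemma P -/
theorem pair_gain {ι : Type*} (S : Finset ι) (ρ : ι → ℝ) (h0 : ∀ i ∈ S, 0 ≤ ρ i)
    (h1 : ∀ i ∈ S, ρ i ≤ 1) {b : ℝ} (hb0 : 0 ≤ b) (hb1 : b < 1)
    (hs : 5.25 ≤ 1 + b + ∑ i ∈ S, ρ i) (h5 : 4 * b ≤ ∑ i ∈ S, ρ i) :
    ∫ u, φ u * φ (√b * u) * Rst S ρ u < ∫ u, φ (√((1 + b) / 2) * u) ^ 2 * Rst S ρ u := by
  set q := ∑ i ∈ S, ρ i with hq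
  have hm0 : 0 ≤ (1 + b) / 2 := by linarith
  have hm1 : (1 + b) / 2 ≤ 1 := by linarith
  obtain ⟨iA, iA', tA⟩ := integrableOn_pair S ρ h0 h1 (a := 1) (b := b) (by norm_num) le_rfl hb0 hb1.le
    (by rw [← hq]; exact hs)
  obtain ⟨iB, iB', tB⟩ := integrableOn_pair S ρ h0 h1 (a := (1 + b) / 2) (b := (1 + b) / 2) hm0 hm1 hm0 hm1
    (by rw [← hq]; linarith)
  simp only [Real.sqrt_one, one_mul] at iA iA' tA
  have e1 : ∀ u, φ (√((1 + b) / 2) * u) * φ (√((1 + b) / 2) * u) * Rst S ρ u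
      = φ (√((1 + b) / 2) * u) ^ 2 * Rst S ρ u := fun u => by ring
  simp_rw [e1] at iB iB' tB
  rw [← hq] at tA tB
  have eA : ∫ u, φ u * φ (√b * u) * Rst S ρ u = 2 * ∫ u in Ioi (0 : ℝ), φ u * φ (√b * u) * Rst S ρ u := by
    rw [← integral_comp_abs (f := fun u => φ u * φ (√b * u) * Rst S ρ u)]
    congr 1
    ext u
    rw [Rst_even, φ_abs', φ_mul_abs]
  have eB : ∫ u, φ (√((1 + b) / 2) * u) ^ 2 * Rst S ρ u
      = 2 * ∫ u in Ioi (0 : ℝ), φ (√((1 + b) / 2) * u) ^ 2 * Rst S ρ u := by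
    rw [← integral_comp_abs (f := fun u => φ (√((1 + b) / 2) * u) ^ 2 * Rst S ρ u)]
    congr 1
    ext u
    rw [Rst_even, φ_mul_abs]
  rw [eA, eB]
  have hlt : ∫ u in Ioi (0 : ℝ), φ u * φ (√b * u) * Rst S ρ u
      < ∫ u in Ioi (0 : ℝ), φ (√((1 + b) / 2) * u) ^ 2 * Rst S ρ u := by
    rw [← sub_pos, ← integral_sub iB iA]
    set f : ℝ → ℝ := fun u => (φ (√((1 + b) / 2) * u) ^ 2 - φ u * φ (√b * u)) * Rst S ρ u with hf
    have ef : ∀ u, φ (√((1 + b) / 2) * u) ^ 2 * Rst S ρ u - φ u * φ (√b * u) * Rst S ρ u = f u :=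
      fun u => by rw [hf]; ring
    simp_rw [ef]
    have hfI : IntegrableOn f (Ioi 0) := by
      refine (iB.sub iA).congr ?_
      filter_upwards with u
      exact ef u
    have hfI2 : IntegrableOn f (Ioi (√12)) := hfI.mono_set (Ioi_subset_Ioi (Real.sqrt_nonneg _))
    have hu : Ioc 0 (√12) ∪ Ioi (√12) = Ioi 0 := Ioc_union_Ioi_eq_Ioi (Real.sqrt_nonneg _)
    rw [← hu, setIntegral_union (Ioc_disjoint_Ioi le_rfl) measurableSet_Ioi
      (hfI.mono_set Ioc_subset_Ioi_self) hfI2, ← intervalIntegral.integral_of_le (Real.sqrt_nonneg _)]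
    have hhead := head_bound S ρ h0 h1 hb0 hb1 (by rw [← hq]; exact hs)
    rw [← hq] at hhead
    have htail : |∫ u in Ioi (√12), f u| ≤ ∫ u in Ioi (√12), |f u| := abs_integral_le_integral_abs
    have hy : 0 ≤ 1 + b + q - 5.25 := by linarith
    have hrp : 0 < (0.28 : ℝ) ^ (1 + b + q - 5.25) := by positivity
    have h1b : 0 < 1 - b := by linarith
    suffices hT : ∫ u in Ioi (√12), |f u| < (1 - b) ^ 2 * (0.28 ^ (1 + b + q - 5.25)) * 0.0013 by
      have := (abs_le.mp htail).1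
      linarith
    by_cases hb6 : 0.6 ≤ b
    · -- case A
      have hq34 : 3.4 ≤ q := by linarith
      obtain ⟨jI, jt⟩ := rest_tail S ρ h0 h1 (by rw [← hq]; exact hq34)
      rw [← hq] at jt
      have hC : ∀ u ∈ Ioi (√12), |f u| ≤ 0.2619 * (1 - b) ^ 2 * |Rst S ρ u| := by
        intro u hu
        have hu0 : 0 ≤ u := (Real.sqrt_nonneg _).trans (le_of_lt hu)
        have hd := pair_diff (μ := (1 + b) / 2) (δ := (1 - b) / 2) (t := u) (by linarith) (by linarith) hu0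
        have a1 : (1 + b) / 2 + (1 - b) / 2 = 1 := by ring
        have a2 : (1 + b) / 2 - (1 - b) / 2 = b := by ring
        rw [a1, a2, Real.sqrt_one, one_mul] at hd
        rw [hf]
        simp only
        rw [abs_mul, abs_sub_comm]
        apply mul_le_mul_of_nonneg_right _ (abs_nonneg _)
        refine hd.trans ?_
        have hc := c_bounds.2
        have hc0 := c_pos
        have hc2 : c ^ 2 ≤ 0.5027 := by
          have : c ≤ 0.709 := by linarith
          nlinarith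
        have hden : 0 < (1 + b) / 2 * b := by nlinarith
        rw [div_le_iff₀ hden]
        have hd2 : 0.48 ≤ (1 + b) / 2 * b := by nlinarith
        have hsq : 0 ≤ (1 - b) ^ 2 := sq_nonneg _
        calc c ^ 2 * ((1 - b) / 2) ^ 2 = c ^ 2 * ((1 - b) ^ 2 / 4) := by ring
          _ ≤ 0.5027 * ((1 - b) ^ 2 / 4) := by gcongr
          _ ≤ 0.2619 * (1 - b) ^ 2 * 0.48 := by nlinarith
          _ ≤ 0.2619 * (1 - b) ^ 2 * ((1 + b) / 2 * b) := by gcongr
      have hm : ∫ u in Ioi (√12), |f u| ≤ ∫ u in Ioi (√12), 0.2619 * (1 - b) ^ 2 * |Rst S ρ u| :=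
        setIntegral_mono_on hfI2.abs (jI.const_mul _) measurableSet_Ioi hC
      rw [integral_const_mul] at hm
      have hexp : Real.exp (-(1.7467 * (q - 3.4))) ≤ 0.28 ^ (1 + b + q - 5.25) :=
        exp_le_rpow hy (by linarith)
      have hk : 0 < (1 - b) ^ 2 := by positivity
      calc ∫ u in Ioi (√12), |f u| ≤ 0.2619 * (1 - b) ^ 2 * ∫ u in Ioi (√12), |Rst S ρ u| := hm
        _ ≤ 0.2619 * (1 - b) ^ 2 * (Real.exp (-(1.7467 * (q - 3.4))) * 0.00415) := by gcongr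
        _ ≤ 0.2619 * (1 - b) ^ 2 * (0.28 ^ (1 + b + q - 5.25) * 0.00415) := by gcongr
        _ < (1 - b) ^ 2 * (0.28 ^ (1 + b + q - 5.25)) * 0.0013 := by
          have : 0 < (1 - b) ^ 2 * (0.28 : ℝ) ^ (1 + b + q - 5.25) := by positivity
          nlinarith
    · -- case B
      rw [not_le] at hb6
      have hk : 0.16 < (1 - b) ^ 2 := by nlinarith
      have hm : ∫ u in Ioi (√12), |f u| ≤ ∫ u in Ioi (√12), (|φ (√((1 + b) / 2) * u) ^ 2 * Rst S ρ u|
          + |φ u * φ (√b * u) * Rst S ρ u|) := by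
        apply setIntegral_mono_on hfI2.abs (iB'.add iA') measurableSet_Ioi
        intro u _
        rw [← ef u]
        exact abs_sub _ _
      rw [integral_add iB' iA'] at hm
      have hexp : Real.exp (-(1.7467 * (1 + b + q - 5.25))) ≤ 0.28 ^ (1 + b + q - 5.25) :=
        exp_le_rpow hy (by linarith)
      have e2 : (1 + b) / 2 + (1 + b) / 2 + q - 5.25 = 1 + b + q - 5.25 := by ring
      rw [e2] at tB
      have h3 : 0.16 * (0.28 : ℝ) ^ (1 + b + q - 5.25) < (1 - b) ^ 2 * (0.28 : ℝ) ^ (1 + b + q - 5.25) :=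
        mul_lt_mul_of_pos_right hk hrp
      nlinarith
  linarith

end Helper58.GC
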