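import Pool.Agent.Helper58.GC.Glue
import Pool.Agent.Helper58.GC.A2

/-!
# The Fourier formula for the Gaussian measure of a central section of the cube
-/

namespace Helper58.GC

open MeasureTheory ProbabilityTheory Module Set Helper64.CubeGauss

open scoped RealInnerProductSpace

variable {n : ℕ}

/-- The Gaussian measure of the section `[-r,r]^n ∩ θ^⊥`, computed in the hyperplane `θ^⊥`. -/
noncomputable def secMeas (r : ℝ) (θ : EuclideanSpace ℝ (Fin n)) : ℝ :=
  (stdGaussian (Submodule.span ℝ {θ})ᗮ).real
    {x | ∀ i, |(x : EuclideanSpace ℝ (Fin n)) i| ≤ r}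

/-- The Gaussian measure of the parallel section at height `s`. -/
noncomputable def G (θ : EuclideanSpace ℝ (Fin n)) (s : ℝ) : ℝ :=
  (stdGaussian (Submodule.span ℝ {θ})ᗮ).real {y | ∀ i, |(glue θ (s, y)) i| ≤ 1}

/-- the cube -/
def cube (n : ℕ) : Set (EuclideanSpace ℝ (Fin n)) := {x | ∀ i, |x i| ≤ 1}

lemma isClosed_cube : IsClosed (cube n) := by
  unfold cube
  rw [ofPred_forall]
  apply isClosed_iInter
  intro i
  exact isClosed_le (by fun_prop) continuous_const

lemma measurableSet_cube : MeasurableSet (cube n) := isClosed_cube.measurableSet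

lemma G_zero (θ : EuclideanSpace ℝ (Fin n)) : G θ 0 = secMeas 1 θ := by
  unfold G secMeas glue
  simp

lemma G_eq_integral (θ : EuclideanSpace ℝ (Fin n)) (s : ℝ) :
    G θ s = ∫ y, (cube n).indicator (fun _ => (1 : ℝ)) (glue θ (s, y))
      ∂(stdGaussian (Submodule.span ℝ {θ})ᗮ) := by
  have h1 : (fun y : (Submodule.span ℝ {θ})ᗮ => (cube n).indicator (fun _ => (1 : ℝ)) (glue θ (s, y)))
      = {y : (Submodule.span ℝ {θ})ᗮ | ∀ i, |(glue θ (s, y)) i| ≤ 1}.indicator (fun _ => (1 : ℝ)) := by
    ext y
    rfl
  have hm : MeasurableSet {y : (Submodule.span ℝ {θ})ᗮ | ∀ i, |(glue θ (s, y)) i| ≤ 1} := by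
    have : Continuous fun y : (Submodule.span ℝ {θ})ᗮ => glue θ (s, y) :=
      (continuous_glue θ).comp (by fun_prop)
    exact measurableSet_cube.preimage this.measurable
  rw [h1, integral_indicator_const _ hm]
  unfold G
  simp

lemma pdf_eq (x : ℝ) : gaussianPDFReal 0 1 x = (√(2 * Real.pi))⁻¹ * g x := by
  unfold gaussianPDFReal g
  simp

/-- one coordinate -/
lemma one_coord (s : ℝ) :
    ∫ x, ((Icc (-1 : ℝ) 1).indicator (fun _ => (1 : ℂ)) x) * Complex.exp (s * x * Complex.I)
      ∂(gaussianReal 0 1) = (((√(2 * Real.pi))⁻¹ * (P * φ s) : ℝ) : ℂ) := by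
  rw [integral_gaussianReal_eq_integral_smul one_ne_zero]
  have h1 : ∀ x : ℝ, gaussianPDFReal 0 1 x • (((Icc (-1 : ℝ) 1).indicator (fun _ => (1 : ℂ)) x)
      * Complex.exp (s * x * Complex.I))
      = ((√(2 * Real.pi))⁻¹ : ℝ) * (((q x * Real.cos (s * x) : ℝ) : ℂ)
        + ((q x * Real.sin (s * x) : ℝ) : ℂ) * Complex.I) := by
    intro x
    rw [pdf_eq]
    have e1 : (s : ℂ) * x * Complex.I = ((s * x : ℝ) : ℂ) * Complex.I := by push_cast; ring
    rw [e1, Complex.exp_mul_I, ← Complex.ofReal_cos, ← Complex.ofReal_sin]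
    unfold q
    by_cases hx : x ∈ Icc (-1 : ℝ) 1
    · rw [indicator_of_mem hx, indicator_of_mem hx, Complex.real_smul]
      push_cast
      ring
    · rw [indicator_of_notMem hx, indicator_of_notMem hx]
      simp
  simp_rw [h1]
  have hc : Integrable (fun x => q x * Real.cos (s * x)) := by
    apply q_integrable.mul_bdd (c := 1)
    · exact (by fun_prop : Continuous fun x => Real.cos (s * x)).aestronglyMeasurable
    · filter_upwards with x
      rw [Real.norm_eq_abs]; exact Real.abs_cos_le_one _
  have hs : Integrable (fun x => q x * Real.sin (s * x)) := by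
    apply q_integrable.mul_bdd (c := 1)
    · exact (by fun_prop : Continuous fun x => Real.sin (s * x)).aestronglyMeasurable
    · filter_upwards with x
      rw [Real.norm_eq_abs]; exact Real.abs_sin_le_one _
  rw [integral_const_mul, integral_add hc.ofReal (hs.ofReal.mul_const _), integral_mul_const,
    integral_complex_ofReal, integral_complex_ofReal, integral_q_cos,
    integral_mul_sin_eq_zero q_even]
  push_cast
  ring

lemma indicator_cube (x : EuclideanSpace ℝ (Fin n)) :
    (cube n).indicator (fun _ => (1 : ℂ)) x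
      = ∏ i, (Icc (-1 : ℝ) 1).indicator (fun _ => (1 : ℂ)) (x i) := by
  by_cases hx : x ∈ cube n
  · rw [indicator_of_mem hx]
    symm
    apply Finset.prod_eq_one
    intro i _
    rw [indicator_of_mem]
    exact ⟨(abs_le.mp (hx i)).1, (abs_le.mp (hx i)).2⟩
  · rw [indicator_of_notMem hx]
    unfold cube at hx
    rw [mem_ofPred_eq, not_forall] at hx
    obtain ⟨i, hi⟩ := hx
    symm
    apply Finset.prod_eq_zero (Finset.mem_univ i)
    rw [indicator_of_notMem]
    exact fun h => hi (abs_le.mpr ⟨h.1, h.2⟩)

/-- The characteristic function of the truncated Gaussian on the cube. -/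
lemma cube_charFun (θ : EuclideanSpace ℝ (Fin n)) (t : ℝ) :
    ∫ x, (cube n).indicator (fun _ => (1 : ℂ)) x * Complex.exp (t * ⟪θ, x⟫ * Complex.I)
      ∂(stdGaussian (EuclideanSpace ℝ (Fin n)))
      = ((∏ i, (√(2 * Real.pi))⁻¹ * (P * φ (θ i * t)) : ℝ) : ℂ) := by
  rw [← map_pi_eq_stdGaussian, integral_map (by fun_prop)]
  · have h1 : ∀ x : Fin n → ℝ, (cube n).indicator (fun _ => (1 : ℂ)) (WithLp.toLp 2 x)
        * Complex.exp (t * ⟪θ, WithLp.toLp 2 x⟫ * Complex.I)
        = ∏ i, ((Icc (-1 : ℝ) 1).indicator (fun _ => (1 : ℂ)) (x i)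
          * Complex.exp ((θ i * t : ℝ) * x i * Complex.I)) := by
      intro x
      rw [indicator_cube, Finset.prod_mul_distrib, ← Complex.exp_sum]
      congr 2
      rw [PiLp.inner_apply, ← Finset.sum_mul]
      congr 1
      push_cast
      rw [Finset.mul_sum]
      apply Finset.sum_congr rfl
      intro i _
      simp
      ring
    simp_rw [h1]
    rw [integral_fintype_prod_eq_prod (f := fun i x => ((Icc (-1 : ℝ) 1).indicator (fun _ => (1 : ℂ)) x
          * Complex.exp ((θ i * t : ℝ) * x * Complex.I)))]
    simp_rw [one_coord]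
    push_cast
    rfl
  · apply AEStronglyMeasurable.mul
    · exact (aestronglyMeasurable_const.indicator measurableSet_cube)
    · fun_prop

lemma inner_glue {θ : EuclideanSpace ℝ (Fin n)} (hθ : ‖θ‖ = 1)
    (p : ℝ × (Submodule.span ℝ {θ})ᗮ) : ⟪θ, glue θ p⟫ = p.1 := by
  unfold glue
  rw [inner_add_right, real_inner_smul_right, real_inner_self_eq_norm_sq, hθ]
  have : ⟪θ, (p.2 : EuclideanSpace ℝ (Fin n))⟫ = 0 :=
    Submodule.mem_orthogonal_singleton_iff_inner_right.mp p.2.2
  rw [this]
  ring

lemma integrable_indicator_glue (θ : EuclideanSpace ℝ (Fin n)) :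
    Integrable (fun p : ℝ × (Submodule.span ℝ {θ})ᗮ =>
      (cube n).indicator (fun _ => (1 : ℝ)) (glue θ p))
      ((gaussianReal 0 1).prod (stdGaussian (Submodule.span ℝ {θ})ᗮ)) := by
  apply Integrable.of_bound (C := 1)
  · exact ((measurable_const.indicator measurableSet_cube).comp
      (continuous_glue θ).measurable).aestronglyMeasurable
  · filter_upwards with p
    rw [Real.norm_eq_abs]
    by_cases h : glue θ p ∈ cube n
    · rw [indicator_of_mem h]; simp
    · rw [indicator_of_notMem h]; simp

lemma G_nonneg (θ : EuclideanSpace ℝ (Fin n)) (s : ℝ) : 0 ≤ G θ s := measureReal_nonneg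

lemma G_le_one (θ : EuclideanSpace ℝ (Fin n)) (s : ℝ) : G θ s ≤ 1 := measureReal_le_one

lemma integrable_G (θ : EuclideanSpace ℝ (Fin n)) : Integrable (G θ) (gaussianReal 0 1) := by
  have h := (integrable_indicator_glue θ).integral_prod_left
  refine h.congr ?_
  filter_upwards with s
  rw [G_eq_integral]

lemma measurable_G (θ : EuclideanSpace ℝ (Fin n)) : Measurable (G θ) := by
  have h : Measurable (fun s : ℝ => ∫ y, (cube n).indicator (fun _ => (1 : ℝ)) (glue θ (s, y))
      ∂(stdGaussian (Submodule.span ℝ {θ})ᗮ)) := by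
    apply StronglyMeasurable.measurable
    apply StronglyMeasurable.integral_prod_right'
      (f := fun p : ℝ × (Submodule.span ℝ {θ})ᗮ => (cube n).indicator (fun _ => (1 : ℝ)) (glue θ p))
    exact ((measurable_const.indicator measurableSet_cube).comp
      (continuous_glue θ).measurable).stronglyMeasurable
  have e : G θ = fun s : ℝ => ∫ y, (cube n).indicator (fun _ => (1 : ℝ)) (glue θ (s, y))
      ∂(stdGaussian (Submodule.span ℝ {θ})ᗮ) := by
    ext s
    exact G_eq_integral θ s
  rw [e]
  exact h

/-- Characteristic function of the profile. -/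
lemma profile_charFun {θ : EuclideanSpace ℝ (Fin n)} (hθ : ‖θ‖ = 1) (t : ℝ) :
    ∫ s, ((√(2 * Real.pi))⁻¹ * g s * G θ s) * Real.cos (t * s)
      = ∏ i, (√(2 * Real.pi))⁻¹ * (P * φ (θ i * t)) := by
  have h0 := cube_charFun θ t
  rw [← map_glue hθ, integral_map (continuous_glue θ).aemeasurable] at h0
  · simp_rw [inner_glue hθ] at h0
    have hint : Integrable (fun p : ℝ × (Submodule.span ℝ {θ})ᗮ =>
        (cube n).indicator (fun _ => (1 : ℂ)) (glue θ p) * Complex.exp (t * p.1 * Complex.I))
        ((gaussianReal 0 1).prod (stdGaussian (Submodule.span ℝ {θ})ᗮ)) := by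
      apply Integrable.of_bound (C := 1)
      · apply AEStronglyMeasurable.mul
        · exact ((measurable_const.indicator measurableSet_cube).comp
            (continuous_glue θ).measurable).aestronglyMeasurable
        · exact (by fun_prop : Continuous fun p : ℝ × (Submodule.span ℝ {θ})ᗮ =>
            Complex.exp (t * p.1 * Complex.I)).aestronglyMeasurable
      · filter_upwards with p
        rw [norm_mul]
        have e : Complex.exp (t * p.1 * Complex.I) = Complex.exp (((t * p.1 : ℝ) : ℂ) * Complex.I) := by
          push_cast; rfl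
        rw [e, Complex.norm_exp_ofReal_mul_I, mul_one]
        by_cases h : glue θ p ∈ cube n
        · rw [indicator_of_mem h]; simp
        · rw [indicator_of_notMem h]; simp
    rw [integral_prod _ hint] at h0
    have h1 : ∀ s : ℝ, ∫ y, (cube n).indicator (fun _ => (1 : ℂ)) (glue θ (s, y))
        * Complex.exp (t * s * Complex.I) ∂(stdGaussian (Submodule.span ℝ {θ})ᗮ)
        = (G θ s : ℂ) * Complex.exp (t * s * Complex.I) := by
      intro s
      rw [integral_mul_const, G_eq_integral]
      congr 1
      rw [← integral_complex_ofReal]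
      congr 1
      ext y
      by_cases h : glue θ (s, y) ∈ cube n
      · rw [indicator_of_mem h, indicator_of_mem h]; simp
      · rw [indicator_of_notMem h, indicator_of_notMem h]; simp
    simp_rw [h1] at h0
    rw [integral_gaussianReal_eq_integral_smul one_ne_zero] at h0
    have hGi : Integrable (fun s => (√(2 * Real.pi))⁻¹ * g s * G θ s) := by
      have hg : Integrable (fun s => (√(2 * Real.pi))⁻¹ * g s) := by
        apply Integrable.const_mul
        have := integrable_exp_neg_mul_sq (b := 1 / 2) (by norm_num)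
        refine this.congr ?_
        filter_upwards with x
        unfold g
        congr 1
        ring
      apply hg.mul_bdd (c := 1)
      · exact (measurable_G θ).aestronglyMeasurable
      · filter_upwards with s
        rw [Real.norm_eq_abs, abs_of_nonneg (G_nonneg θ s)]
        exact G_le_one θ s
    have h2 : ∀ s : ℝ, gaussianPDFReal 0 1 s • ((G θ s : ℂ) * Complex.exp (t * s * Complex.I))
        = (((√(2 * Real.pi))⁻¹ * g s * G θ s * Real.cos (t * s) : ℝ) : ℂ)
          + (((√(2 * Real.pi))⁻¹ * g s * G θ s * Real.sin (t * s) : ℝ) : ℂ) * Complex.I := by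
      intro s
      rw [pdf_eq, Complex.real_smul]
      have e1 : (t : ℂ) * s * Complex.I = ((t * s : ℝ) : ℂ) * Complex.I := by push_cast; ring
      rw [e1, Complex.exp_mul_I, ← Complex.ofReal_cos, ← Complex.ofReal_sin]
      push_cast
      ring
    simp_rw [h2] at h0
    have hc : Integrable (fun s => (√(2 * Real.pi))⁻¹ * g s * G θ s * Real.cos (t * s)) := by
      apply hGi.mul_bdd (c := 1)
      · exact (by fun_prop : Continuous fun x => Real.cos (t * x)).aestronglyMeasurable
      · filter_upwards with x
        rw [Real.norm_eq_abs]; exact Real.abs_cos_le_one _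
    have hs : Integrable (fun s => (√(2 * Real.pi))⁻¹ * g s * G θ s * Real.sin (t * s)) := by
      apply hGi.mul_bdd (c := 1)
      · exact (by fun_prop : Continuous fun x => Real.sin (t * x)).aestronglyMeasurable
      · filter_upwards with x
        rw [Real.norm_eq_abs]; exact Real.abs_sin_le_one _
    rw [integral_add hc.ofReal (hs.ofReal.mul_const _), integral_mul_const, integral_complex_ofReal,
      integral_complex_ofReal] at h0
    have h3 := congrArg Complex.re h0
    simp only [Complex.add_re, Complex.ofReal_re, Complex.mul_re, Complex.I_re, mul_zero,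
      Complex.ofReal_im, Complex.I_im, mul_one, sub_self, add_zero] at h3
    exact h3
  · apply AEStronglyMeasurable.mul
    · exact (aestronglyMeasurable_const.indicator measurableSet_cube)
    · fun_prop

end Helper58.GC
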