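import Pool.Agent.Helper58.GC.Asm
import Pool.Agent.Helper64.CubeGauss.Num

/-!
# Values and the comparison with the Brascamp-Lieb bound
-/

namespace Helper58.GC

open MeasureTheory ProbabilityTheory Module Set Helper64.CubeGauss

open scoped RealInnerProductSpace

variable {n : ℕ}

/-- Gaussian measure of a full-dimensional cube. -/
lemma stdGaussian_cube (m : ℕ) (a : ℝ) :
    (stdGaussian (EuclideanSpace ℝ (Fin m))).real {x | ∀ i, |x i| ≤ a}
      = ((gaussianReal 0 1).real (Icc (-a) a)) ^ m := by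
  rw [← map_pi_eq_stdGaussian, map_measureReal_apply (by fun_prop)]
  · have h1 : (WithLp.toLp 2) ⁻¹' {x : EuclideanSpace ℝ (Fin m) | ∀ i, |x i| ≤ a}
        = Set.pi univ (fun _ : Fin m => Icc (-a) a) := by
      ext x
      simp only [mem_preimage, mem_ofPred_eq, mem_pi, mem_univ, true_implies, mem_Icc, abs_le]
    rw [h1, measureReal_def, Measure.pi_pi, ENNReal.toReal_prod]
    simp [measureReal_def]
  · rw [ofPred_forall]
    apply MeasurableSet.iInter
    intro i
    exact (isClosed_le (by fun_prop) continuous_const).measurableSet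

/-- `Γ s = ∫_{-√s}^{√s} e^{-x²/2} dx` -/
noncomputable def Gam (s : ℝ) : ℝ := ∫ x in (-√s)..√s, g x

lemma Gam_hasDeriv {s : ℝ} (hs : 0 < s) : HasDerivAt Gam (g (√s) / √s) s := by
  have hF : ∀ x, HasDerivAt (fun x => ∫ y in (0 : ℝ)..x, g y) (g x) x := fun x =>
    intervalIntegral.integral_hasDerivAt_right (g_cont.intervalIntegrable _ _)
      (g_cont.stronglyMeasurableAtFilter _ _) g_cont.continuousAt
  have e1 : Gam = fun u => (∫ y in (0 : ℝ)..√u, g y) - ∫ y in (0 : ℝ)..(-√u), g y := by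
    ext u
    unfold Gam
    rw [intervalIntegral.integral_interval_sub_left
      (g_cont.intervalIntegrable _ _) (g_cont.intervalIntegrable _ _)]
  rw [e1]
  have d1 : HasDerivAt (fun u : ℝ => √u) (1 / (2 * √s)) s := Real.hasDerivAt_sqrt hs.ne'
  have d2 : HasDerivAt (fun u : ℝ => -√u) (-(1 / (2 * √s))) s := d1.neg
  refine (((hF (√s)).comp s d1).sub ((hF (-√s)).comp s d2)).congr_deriv ?_
  rw [g_even]
  have : 0 < √s := Real.sqrt_pos.mpr hs
  field_simp
  norm_num

lemma Gam_deriv_anti : AntitoneOn (fun s : ℝ => g (√s) / √s) (Ioi 0) := by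
  intro s hs t ht hst
  simp only
  have hs' : (0 : ℝ) < s := hs
  have ht' : (0 : ℝ) < t := ht
  have h1 : √s ≤ √t := Real.sqrt_le_sqrt hst
  have h2 : 0 < √s := Real.sqrt_pos.mpr hs'
  have h3 : 0 < √t := Real.sqrt_pos.mpr ht'
  apply div_le_div₀ (g_pos _).le _ h2 h1
  unfold g
  rw [Real.sq_sqrt hs'.le, Real.sq_sqrt ht'.le]
  apply Real.exp_le_exp.mpr
  linarith

lemma Gam_concave : ConcaveOn ℝ (Icc 1 2) Gam := by
  apply AntitoneOn.concaveOn_of_deriv (convex_Icc 1 2)
  · intro s hs
    exact (Gam_hasDeriv (by linarith [hs.1] : (0 : ℝ) < s)).continuousAt.continuousWithinAt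
  · intro s hs
    rw [interior_Icc] at hs
    exact (Gam_hasDeriv (by linarith [hs.1] : (0 : ℝ) < s)).differentiableAt.differentiableWithinAt
  · intro s hs t ht hst
    rw [interior_Icc] at hs ht
    rw [(Gam_hasDeriv (by linarith [hs.1] : (0 : ℝ) < s)).deriv,
      (Gam_hasDeriv (by linarith [ht.1] : (0 : ℝ) < t)).deriv]
    exact Gam_deriv_anti (by simp only [mem_Ioi]; linarith [hs.1])
      (by simp only [mem_Ioi]; linarith [ht.1]) hst

lemma Gam_one : Gam 1 = P := by
  unfold Gam P
  rw [Real.sqrt_one]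

lemma Gam_chord {h : ℝ} (h0 : 0 ≤ h) (h1 : h ≤ 1) :
    Gam 1 + h * (Gam 2 - Gam 1) ≤ Gam (1 + h) := by
  have := Gam_concave.2 (show (1 : ℝ) ∈ Icc (1 : ℝ) 2 by norm_num)
    (show (2 : ℝ) ∈ Icc (1 : ℝ) 2 by norm_num) (show 0 ≤ 1 - h by linarith) h0 (by ring)
  simp only [smul_eq_mul] at this
  have e : (1 - h) * 1 + h * 2 = 1 + h := by ring
  rw [e] at this
  linarith

lemma Gam_lt : Gam 1 < Gam 2 := by
  have hm : StrictMonoOn Gam (Icc 1 2) := by
    apply strictMonoOn_of_deriv_pos (convex_Icc 1 2)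
    · intro s hs
      exact (Gam_hasDeriv (by linarith [hs.1] : (0 : ℝ) < s)).continuousAt.continuousWithinAt
    · intro s hs
      rw [interior_Icc] at hs
      rw [(Gam_hasDeriv (by linarith [hs.1] : (0 : ℝ) < s)).deriv]
      have : 0 < √s := Real.sqrt_pos.mpr (by linarith [hs.1])
      exact div_pos (g_pos _) this
  exact hm (by norm_num) (by norm_num) (by norm_num)

/-- The slope bound used for `n ≥ 6`. -/
lemma Gam_slope {h : ℝ} (h0 : 0 ≤ h) (h1 : h ≤ 1 / 5) :
    Gam 1 + h * (1 / 2) ≤ Gam (1 + h) := by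
  have key := (convex_Icc (1 : ℝ) (6 / 5)).mul_sub_le_image_sub_of_le_deriv (f := Gam) (C := 1 / 2)
    (by
      intro s hs
      exact (Gam_hasDeriv (by linarith [hs.1] : (0 : ℝ) < s)).continuousAt.continuousWithinAt)
    (by
      intro s hs
      rw [interior_Icc] at hs
      exact (Gam_hasDeriv (by linarith [hs.1] : (0 : ℝ) < s)).differentiableAt.differentiableWithinAt)
    (by
      intro s hs
      rw [interior_Icc] at hs
      rw [(Gam_hasDeriv (by linarith [hs.1] : (0 : ℝ) < s)).deriv]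
      have h1 : g (√(6 / 5)) / √(6 / 5) ≤ g (√s) / √s :=
        Gam_deriv_anti (by simp only [mem_Ioi]; linarith [hs.1]) (by simp only [mem_Ioi]; norm_num)
          hs.2.le
      refine le_trans ?_ h1
      unfold g
      rw [Real.sq_sqrt (by norm_num)]
      have h2 : √(6 / 5) ≤ 1.0955 := by
        rw [show (1.0955 : ℝ) = √(1.0955 ^ 2) by rw [Real.sqrt_sq (by norm_num)]]
        apply Real.sqrt_le_sqrt
        norm_num
      have h3 : 0 < √(6 / 5 : ℝ) := Real.sqrt_pos.mpr (by norm_num)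
      rw [le_div_iff₀ h3]
      have h4 : (0.5487 : ℝ) ≤ Real.exp (-(6 / 5) / 2) := by
        have h5 : Real.exp (-(6 / 5) / 2) = (Real.exp (6 / 5 / 2))⁻¹ := by
          rw [← Real.exp_neg]; congr 1; ring
        rw [h5]
        have h6 : Real.exp (6 / 5 / 2) ≤ 1.8222 := by
          have := Real.exp_bound' (x := 6 / 5 / 2) (by norm_num) (by norm_num) (n := 6) (by norm_num)
          refine this.trans ?_
          norm_num [Finset.sum_range_succ, Nat.factorial]
        rw [le_inv_comm₀ (by norm_num) (Real.exp_pos _)]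
        exact h6.trans (by norm_num)
      nlinarith) 1 (by norm_num) (1 + h) ⟨by linarith, by linarith⟩ (by linarith)
  linarith

end Helper58.GC
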